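import Mathlib

/-!
Numerical inequalities for the asymmetric beam problem.
-/

open Real Set

namespace Pool.Agent.R208.Beam

lemma exp_6854 : exp (6.854 : ℝ) ≤ 948.2 := by
  have h1 : exp (6.854 : ℝ) * exp 0.146 = exp 1 ^ 7 := by
    rw [← Real.exp_add, ← Real.exp_nat_mul]; norm_num
  have h2 : (1.156658 : ℝ) ≤ exp 0.146 := by
    have := Real.quadratic_le_exp_of_nonneg (x := 0.146) (by norm_num)
    norm_num at this ⊢
    linarith
  have h3 : exp 1 ^ 7 ≤ (1096.7 : ℝ) := by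
    have := Real.exp_one_lt_d9
    calc exp 1 ^ 7 ≤ (2.7182818286 : ℝ) ^ 7 := by gcongr
      _ ≤ 1096.7 := by norm_num
  have h4 : 0 < exp (6.854 : ℝ) := exp_pos _
  nlinarith

lemma exp_5638 : exp (5.638 : ℝ) ≤ 283 := by
  have h1 : exp (5.638 : ℝ) * exp 0.362 = exp 1 ^ 6 := by
    rw [← Real.exp_add, ← Real.exp_nat_mul]; norm_num
  have h2 : (1.427522 : ℝ) ≤ exp 0.362 := by
    have := Real.quadratic_le_exp_of_nonneg (x := 0.362) (by norm_num)
    norm_num at this ⊢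
    linarith
  have h3 : exp 1 ^ 6 ≤ (403.5 : ℝ) := by
    have := Real.exp_one_lt_d9
    calc exp 1 ^ 6 ≤ (2.7182818286 : ℝ) ^ 6 := by gcongr
      _ ≤ 403.5 := by norm_num
  have h4 : 0 < exp (5.638 : ℝ) := exp_pos _
  nlinarith

lemma poly_bound {δ : ℝ} (h0 : 0 ≤ δ) (h1 : δ ≤ 1) :
    2 * (2 - δ) ≤ (2 - 2 * δ + δ ^ 2) ^ 2 * exp (1.5 * δ) := by
  have h2 : 1 + 1.5 * δ + (1.5 * δ) ^ 2 / 2 ≤ exp (1.5 * δ) :=
    Real.quadratic_le_exp_of_nonneg (by positivity)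
  have h3 : (2 - 2 * δ + δ ^ 2) ^ 2 * (1 + 1.5 * δ + (1.5 * δ) ^ 2 / 2) ≤
      (2 - 2 * δ + δ ^ 2) ^ 2 * exp (1.5 * δ) := mul_le_mul_of_nonneg_left h2 (sq_nonneg _)
  refine le_trans ?_ h3
  have key : 0 ≤ δ ^ 2 * (0.5 * (1 - δ) ^ 2 + δ ^ 2 * (3.5 - 3 * δ + 9 / 8 * δ ^ 2)) := by
    have : 0 ≤ 3.5 - 3 * δ + 9 / 8 * δ ^ 2 := by nlinarith [sq_nonneg δ]
    positivity
  nlinarith [key]

/-- parameters -/
structure Par (c α β : ℝ) : Prop where
  c0 : 0 < c
  α0 : 0 < α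
  β0 : 0 < β
  ab : α ^ 2 + β ^ 2 = 1
  cc : c ^ 2 = 2 - 4 * α ^ 2

lemma Par.lt {c α β : ℝ} (P : Par c α β) : α < β := by
  have h1 := P.ab
  have h2 := P.cc
  have h3 : 0 < c ^ 2 := by have := P.c0; positivity
  have h4 : α ^ 2 < β ^ 2 := by nlinarith
  exact lt_of_pow_lt_pow_left₀ 2 P.β0.le h4

lemma Par.cle {c α β : ℝ} (P : Par c α β) : c < 1.41422 := by
  have h2 := P.cc
  have h3 := P.α0
  by_contra h
  push Not at h
  nlinarith [sq_nonneg α, mul_pos h3 h3]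

lemma Par.main_sq {c α β : ℝ} (P : Par c α β) :
    (c * β * (√2 * exp (5 * π / 4 * (α / β)))) ^ 2 ≤
      2 * exp (5 * π / 2) * ((1 - α / β) * exp (-(5 * π / 2 - 1.5) * (1 - α / β))) := by
  obtain ⟨c0, α0, β0, ab, cc⟩ := id P
  have hlt := P.lt
  set δ : ℝ := 1 - α / β with hδ
  have hk : α = β * (1 - δ) := by rw [hδ]; field_simp; ring
  have hδ0 : 0 < δ := by rw [hδ]; have : α / β < 1 := (div_lt_one β0).mpr hlt; linarith
  have hδ1 : δ ≤ 1 := by rw [hδ]; have : 0 < α / β := by positivity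
                         linarith
  have hb : β ^ 2 * (2 - 2 * δ + δ ^ 2) = 1 := by rw [← ab, hk]; ring
  have hq : 0 < 2 - 2 * δ + δ ^ 2 := by nlinarith [sq_nonneg (1 - δ)]
  have hc : c ^ 2 = 2 * δ * (2 - δ) * β ^ 2 := by
    rw [cc, hk]; nlinarith
  have hE : exp (5 * π / 4 * (α / β)) ^ 2 = exp (5 * π / 2) * exp (-(5 * π / 2) * δ) := by
    rw [← Real.exp_nat_mul, ← Real.exp_add]
    congr 1
    rw [hδ]; push_cast; ring
  have h2 : (√2 : ℝ) ^ 2 = 2 := Real.sq_sqrt (by norm_num)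
  have hpb := poly_bound hδ0.le hδ1
  have e1 : (c * β * (√2 * exp (5 * π / 4 * (α / β)))) ^ 2 =
      c ^ 2 * β ^ 2 * (√2 ^ 2 * exp (5 * π / 4 * (α / β)) ^ 2) := by ring
  rw [e1, h2, hE, hc]
  have e2 : exp (-(5 * π / 2 - 1.5) * δ) = exp (-(5 * π / 2) * δ) * exp (1.5 * δ) := by
    rw [← Real.exp_add]; congr 1; ring
  rw [e2]
  -- 2 δ (2-δ) β^4 * 2 ≤ 2 δ exp(1.5 δ)
  have h5 : (2 * (2 - δ)) * β ^ 4 ≤ exp (1.5 * δ) := by
    have h6 : (2 * (2 - δ)) * β ^ 4 ≤ ((2 - 2 * δ + δ ^ 2) ^ 2 * exp (1.5 * δ)) * β ^ 4 :=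
      mul_le_mul_of_nonneg_right hpb (by positivity)
    calc _ ≤ _ := h6
      _ = (β ^ 2 * (2 - 2 * δ + δ ^ 2)) ^ 2 * exp (1.5 * δ) := by ring
      _ = exp (1.5 * δ) := by rw [hb]; ring
  have h7 : 0 ≤ 2 * δ * (exp (5 * π / 2) * exp (-(5 * π / 2) * δ)) := by positivity
  have h8 := mul_le_mul_of_nonneg_left h5 h7
  calc _ = 2 * δ * (exp (5 * π / 2) * exp (-(5 * π / 2) * δ)) * (2 * (2 - δ) * β ^ 4) := by ring
    _ ≤ _ := h8
    _ = _ := by ring

lemma mul_exp_neg_le {x : ℝ} : x * exp (-x) ≤ exp (-1) := by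
  have h := Real.add_one_le_exp (x - 1)
  have h2 : exp (x - 1) * exp (-x) = exp (-1) := by rw [← Real.exp_add]; congr 1; ring
  have h3 : 0 < exp (-x) := exp_pos _
  nlinarith

lemma mul_exp_neg_le' {x y : ℝ} (hy : 1 ≤ y) (h : y ≤ x) : x * exp (-x) ≤ y * exp (-y) := by
  have h1 := Real.add_one_le_exp (x - y)
  have h2 : exp (x - y) * exp (-x) = exp (-y) := by rw [← Real.exp_add]; congr 1; ring
  have h3 : 0 < exp (-x) := exp_pos _
  have h4 : x ≤ y * exp (x - y) := by nlinarith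
  calc x * exp (-x) ≤ (y * exp (x - y)) * exp (-x) := mul_le_mul_of_nonneg_right h4 h3.le
    _ = y * exp (-y) := by rw [mul_assoc, h2]

lemma pi_lo : (3.1415 : ℝ) < π := Real.pi_gt_d4.trans_le' (by norm_num)
lemma pi_hi : π < (3.1416 : ℝ) := Real.pi_lt_d4

lemma Par.B1 {c α β s : ℝ} (P : Par c α β) (hs : s < α + β * (1 + √2 * exp (5 * π / 4 * (α / β)))) :
    c * (s - 2 * α) < 6 * π := by
  obtain ⟨c0, α0, β0, ab, cc⟩ := id P
  have hlt := P.lt
  have hcle := P.cle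
  have hπ1 := pi_lo
  have hπ2 := pi_hi
  have hm := P.main_sq
  set δ : ℝ := 1 - α / β with hδ
  set W : ℝ := c * β * (√2 * exp (5 * π / 4 * (α / β))) with hW
  have hW0 : 0 ≤ W := by positivity
  set m : ℝ := 5 * π / 2 - 1.5 with hmm
  have hm1 : (6.35 : ℝ) < m := by rw [hmm]; linarith
  have h1 : δ * exp (-m * δ) ≤ exp (-1) / m := by
    have := mul_exp_neg_le (x := m * δ)
    rw [le_div_iff₀ (by linarith)]
    have e : -m * δ = -(m * δ) := by ring
    rw [e]; linarith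
  have h2 : W ^ 2 ≤ 2 * exp (5 * π / 2) * (exp (-1) / m) :=
    hm.trans (mul_le_mul_of_nonneg_left h1 (by positivity))
  have h3 : exp (5 * π / 2) * exp (-1) ≤ 948.2 := by
    rw [← Real.exp_add]
    refine le_trans (Real.exp_le_exp.mpr ?_) exp_6854
    linarith
  have h4 : 2 * exp (5 * π / 2) * (exp (-1) / m) ≤ 299 := by
    rw [mul_div_assoc', div_le_iff₀ (by linarith)]
    nlinarith
  have h5 : W ≤ 17.3 := by
    by_contra hcon
    push Not at hcon
    nlinarith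
  have hβ1 : β < 1 := by nlinarith
  have h6 : c * (β - α) < 1.41422 := by nlinarith [mul_pos c0 α0]
  have h7 : c * (s - 2 * α) < W + c * (β - α) := by
    have : c * s < c * (α + β * (1 + √2 * exp (5 * π / 4 * (α / β)))) :=
      mul_lt_mul_of_pos_left hs c0
    rw [hW]
    nlinarith
  linarith

lemma Par.B2 {c α β s : ℝ} (P : Par c α β) (hc9 : 0.9 ≤ c)
    (hs : s < α + β * (1 + √2 * exp (5 * π / 4 * (α / β)))) :
    c * (s - 2 * α) < 5 * π := by
  obtain ⟨c0, α0, β0, ab, cc⟩ := id P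
  have hlt := P.lt
  have hcle := P.cle
  have hπ1 := pi_lo
  have hπ2 := pi_hi
  have hm := P.main_sq
  set δ : ℝ := 1 - α / β with hδ
  set W : ℝ := c * β * (√2 * exp (5 * π / 4 * (α / β))) with hW
  have hW0 : 0 ≤ W := by positivity
  set m : ℝ := 5 * π / 2 - 1.5 with hmm
  have hm1 : (6.35 : ℝ) < m := by rw [hmm]; linarith
  have hδ2 : 0.349 ≤ δ := by
    have hα : α ^ 2 ≤ 0.2975 := by nlinarith
    have hβ : 0.7025 ≤ β ^ 2 := by nlinarith
    have : α / β ≤ 0.651 := by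
      rw [div_le_iff₀ β0]
      by_contra hcon
      push Not at hcon
      nlinarith
    rw [hδ]; linarith
  have h1 : δ * exp (-m * δ) ≤ 2.216 * exp (-2.216) / m := by
    have := mul_exp_neg_le' (x := m * δ) (y := 2.216) (by norm_num) (by nlinarith)
    rw [le_div_iff₀ (by linarith)]
    have e : -m * δ = -(m * δ) := by ring
    rw [e]; linarith
  have h2 : W ^ 2 ≤ 2 * exp (5 * π / 2) * (2.216 * exp (-2.216) / m) :=
    hm.trans (mul_le_mul_of_nonneg_left h1 (by positivity))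
  have h3 : exp (5 * π / 2) * exp (-2.216) ≤ 283 := by
    rw [← Real.exp_add]
    refine le_trans (Real.exp_le_exp.mpr ?_) exp_5638
    linarith
  have h4 : 2 * exp (5 * π / 2) * (2.216 * exp (-2.216) / m) ≤ 198 := by
    rw [mul_div_assoc', div_le_iff₀ (by linarith)]
    nlinarith
  have h5 : W ≤ 14.1 := by
    by_contra hcon
    push Not at hcon
    nlinarith
  have hβ1 : β < 1 := by nlinarith
  have h6 : c * (β - α) < 1.41422 := by nlinarith [mul_pos c0 α0]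
  have h7 : c * (s - 2 * α) < W + c * (β - α) := by
    have : c * s < c * (α + β * (1 + √2 * exp (5 * π / 4 * (α / β)))) :=
      mul_lt_mul_of_pos_left hs c0
    rw [hW]
    nlinarith
  linarith

end Pool.Agent.R208.Beam
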