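import Mathlib
import Pool.Agent.R208.BeamNum

/-!
Phase functions for the asymmetric beam problem.
-/

open Real Set

namespace Pool.Agent.R208.Beam

/-- phase -/
noncomputable def G (α ω s : ℝ) : ℝ := arctan (ω * s) + arctan ((1 - ω ^ 2) / (2 * α * ω)) - π / 2

/-- phase difference -/
noncomputable def H (α ω₁ ω₂ s : ℝ) : ℝ := ω₂ / ω₁ * G α ω₁ s - G α ω₂ s

lemma angle {α ω s T X : ℝ} (hα : 0 < α) (hω : 0 < ω)
    (h1 : X * cos (ω * T) = 1 / ω ^ 2 - 1 + 2 * α * s)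
    (h2 : ω * X * sin (ω * T) = (1 - ω ^ 2) * s - 2 * α) :
    sin (ω * T - G α ω s) = 0 := by
  set x : ℝ := (1 - ω ^ 2) / (2 * α * ω) with hx
  have e1 : ω * s + x = ω * X / (2 * α) * cos (ω * T) := by
    have : ω * X / (2 * α) * cos (ω * T) = ω / (2 * α) * (X * cos (ω * T)) := by ring
    rw [this, h1, hx]; field_simp; ring
  have e2 : ω * s * x - 1 = ω * X / (2 * α) * sin (ω * T) := by
    have : ω * X / (2 * α) * sin (ω * T) = 1 / (2 * α) * (ω * X * sin (ω * T)) := by ring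
    rw [this, h2, hx]; field_simp
  set C1 : ℝ := 1 / √(1 + (ω * s) ^ 2) with hC1
  set C2 : ℝ := 1 / √(1 + x ^ 2) with hC2
  have s1 : sin (arctan (ω * s)) = ω * s * C1 := by rw [Real.sin_arctan, hC1]; ring
  have c1 : cos (arctan (ω * s)) = C1 := by rw [Real.cos_arctan]
  have s2 : sin (arctan x) = x * C2 := by rw [Real.sin_arctan, hC2]; ring
  have c2 : cos (arctan x) = C2 := by rw [Real.cos_arctan]
  have cG : cos (G α ω s) = C1 * C2 * (ω * s + x) := by
    rw [G, ← hx, Real.cos_sub_pi_div_two, Real.sin_add, s1, c1, s2, c2]; ring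
  have sG : sin (G α ω s) = C1 * C2 * (ω * s * x - 1) := by
    rw [G, ← hx, Real.sin_sub_pi_div_two, Real.cos_add, s1, c1, s2, c2]; ring
  rw [Real.sin_sub, cG, sG, e1, e2]; ring

lemma H_strictMono {α ω₁ ω₂ : ℝ} (h1 : 0 < ω₁) (h12 : ω₁ < ω₂) :
    StrictMonoOn (H α ω₁ ω₂) (Ici 0) := by
  have h2 : 0 < ω₂ := h1.trans h12
  have hd : ∀ s, HasDerivAt (H α ω₁ ω₂)
      (ω₂ / ω₁ * (1 / (1 + (ω₁ * s) ^ 2) * ω₁) - 1 / (1 + (ω₂ * s) ^ 2) * ω₂) s := by
    intro s
    have l1 : ∀ ω : ℝ, HasDerivAt (fun s : ℝ => ω * s) ω s := by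
      intro ω; simpa using (hasDerivAt_id s).const_mul ω
    have g : ∀ ω : ℝ, HasDerivAt (fun s : ℝ => G α ω s) (1 / (1 + (ω * s) ^ 2) * ω) s := by
      intro ω
      have := ((l1 ω).arctan.add_const (arctan ((1 - ω ^ 2) / (2 * α * ω)))).sub_const (π / 2)
      exact this
    exact ((g ω₁).const_mul (ω₂ / ω₁)).sub (g ω₂)
  apply strictMonoOn_of_deriv_pos (convex_Ici 0)
  · exact fun s _ => (hd s).continuousAt.continuousWithinAt
  · intro s hs
    rw [interior_Ici] at hs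
    rw [(hd s).deriv]
    have hs' : 0 < s := hs
    have e : ω₂ / ω₁ * (1 / (1 + (ω₁ * s) ^ 2) * ω₁) = 1 / (1 + (ω₁ * s) ^ 2) * ω₂ := by
      field_simp
    rw [e]
    have : 1 / (1 + (ω₂ * s) ^ 2) < 1 / (1 + (ω₁ * s) ^ 2) := by
      apply one_div_lt_one_div_of_lt (by positivity)
      have : ω₁ * s < ω₂ * s := mul_lt_mul_of_pos_right h12 hs'
      have : (ω₁ * s) ^ 2 < (ω₂ * s) ^ 2 := pow_lt_pow_left₀ this (by positivity) (by norm_num)
      linarith
    nlinarith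

lemma H_pos {α ω₁ ω₂ s : ℝ} (hα : 0 < α) (h1 : 0 < ω₁) (h12 : ω₁ < ω₂) (hω : ω₁ < 1)
    (hG : 0 < G α ω₁ s) : 0 < H α ω₁ ω₂ s := by
  have h2 : 0 < ω₂ := h1.trans h12
  have hsq : ω₁ ^ 2 < 1 := by nlinarith
  have hsq' : 0 < 1 - ω₁ ^ 2 := by linarith
  set s₀ : ℝ := 2 * α / (1 - ω₁ ^ 2) with hs₀
  have hs0 : 0 < s₀ := by positivity
  have hG0 : G α ω₁ s₀ = 0 := by
    have e : (1 - ω₁ ^ 2) / (2 * α * ω₁) = (ω₁ * s₀)⁻¹ := by
      rw [hs₀]; field_simp
    rw [G, e, Real.arctan_inv_of_pos (by positivity)]; ring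
  have hlt : s₀ < s := by
    by_contra hcon
    push Not at hcon
    have : G α ω₁ s ≤ G α ω₁ s₀ := by
      unfold G
      have := Real.arctan_strictMono.monotone (mul_le_mul_of_nonneg_left hcon h1.le)
      linarith
    linarith
  have hmono := H_strictMono (α := α) h1 h12 (show s₀ ∈ Ici (0:ℝ) from hs0.le)
    (show s ∈ Ici (0:ℝ) from (hs0.trans hlt).le) hlt
  have : 0 < H α ω₁ ω₂ s₀ := by
    rw [H, hG0, mul_zero, zero_sub, neg_pos, G]
    have e : (1 - ω₂ ^ 2) / (2 * α * ω₂) < (ω₂ * s₀)⁻¹ := by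
      have e2 : (ω₂ * s₀)⁻¹ = (1 - ω₁ ^ 2) / (2 * α * ω₂) := by
        rw [hs₀]; field_simp
      rw [e2]
      apply div_lt_div_of_pos_right _ (by positivity)
      nlinarith
    have e3 := Real.arctan_strictMono e
    rw [Real.arctan_inv_of_pos (by positivity)] at e3
    linarith
  linarith

lemma H_lt {c α β ω₁ ω₂ s T : ℝ} (P : Par c α β) (h1 : 0 < ω₁) (h12 : ω₁ < ω₂) (h2c : ω₂ ≤ c)
    (hT0 : 0 < T) (hTs : T < s - 2 * α) (hTG : ω₁ * T = G α ω₁ s)
    (hs : s < α + β * (1 + √2 * exp (5 * π / 4 * (α / β)))) :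
    H α ω₁ ω₂ s < 6 * π := by
  obtain ⟨c0, α0, β0, ab, cc⟩ := id P
  have h2 : 0 < ω₂ := h1.trans h12
  have hπ := Real.pi_pos
  have hπ1 := pi_lo
  have hH : H α ω₁ ω₂ s = ω₂ * T - G α ω₂ s := by
    rw [H, ← hTG]; field_simp
  have hs0 : 0 < s := by linarith
  have hle : ω₂ * T < c * (s - 2 * α) := by
    calc ω₂ * T ≤ c * T := mul_le_mul_of_nonneg_right h2c hT0.le
      _ < _ := mul_lt_mul_of_pos_left hTs c0
  have hat : 0 < arctan (ω₂ * s) := Real.arctan_pos.mpr (by positivity)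
  rw [hH]
  rcases le_or_gt 0.9 c with h9 | h9
  · have hB := P.B2 h9 hs
    have hm : -G α ω₂ s < π := by
      unfold G
      have := Real.neg_pi_div_two_lt_arctan ((1 - ω₂ ^ 2) / (2 * α * ω₂))
      linarith
    linarith
  · have hω2 : ω₂ < 0.9 := lt_of_le_of_lt h2c h9
    have hsq : 0.19 < 1 - ω₂ ^ 2 := by nlinarith
    have hx : 0 < (1 - ω₂ ^ 2) / (2 * α * ω₂) := by
      apply div_pos (by linarith) (by positivity)
    rcases le_or_gt 1 (ω₂ * s * ((1 - ω₂ ^ 2) / (2 * α * ω₂))) with hc1 | hc1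
    · have hB := P.B1 hs
      have : -G α ω₂ s ≤ 0 := by
        unfold G
        have e : (((1 - ω₂ ^ 2) / (2 * α * ω₂)))⁻¹ ≤ ω₂ * s := by
          rw [inv_le_comm₀ hx (by positivity), inv_eq_one_div, div_le_iff₀ (by positivity)]
          linarith
        have := Real.arctan_strictMono.monotone e
        rw [Real.arctan_inv_of_pos hx] at this
        linarith
      linarith
    · have hs2 : s * (1 - ω₂ ^ 2) < 2 * α := by
        have e : ω₂ * s * ((1 - ω₂ ^ 2) / (2 * α * ω₂)) = s * (1 - ω₂ ^ 2) / (2 * α) := by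
          field_simp
        rw [e, div_lt_one (by positivity)] at hc1
        exact hc1
      have hα1 : α < 0.7072 := by
        have hc2 : 0 < c ^ 2 := by positivity
        nlinarith
      have hs3 : s < 7.5 := by nlinarith
      have hcs : c * (s - 2 * α) < 6.75 := by nlinarith
      have : -G α ω₂ s < π / 2 := by
        unfold G
        have := Real.arctan_pos.mpr hx
        linarith
      linarith

end Pool.Agent.R208.Beam
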