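import Mathlib

/-!
Damped oscillator lemmas and the analysis of `z'''' + c² z'' + z = 0` near infinity.
-/

open Real Set Filter Topology

namespace Pool.Agent.R208.Beam

/-- Explicit solution of `f'' = 2 a f' - (a² + b²) f`. -/
lemma osc {f f1 : ℝ → ℝ} {a b T t : ℝ} (hb : b ≠ 0) (hT : T ≤ t)
    (h : ∀ x ∈ Icc T t, HasDerivAt f (f1 x) x)
    (h1 : ∀ x ∈ Icc T t, HasDerivAt f1 (2 * a * f1 x - (a ^ 2 + b ^ 2) * f x) x) :
    f t = exp (a * (t - T)) * (f T * cos (b * (t - T)) + (f1 T - a * f T) / b * sin (b * (t - T))) ∧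
    (f1 t - a * f t) / b = exp (a * (t - T)) *
      ((f1 T - a * f T) / b * cos (b * (t - T)) - f T * sin (b * (t - T))) := by
  set E : ℝ → ℝ := fun x => exp (-a * (x - T)) with hE
  set C : ℝ → ℝ := fun x => cos (b * (x - T)) with hC
  set S : ℝ → ℝ := fun x => sin (b * (x - T)) with hS
  have hEd : ∀ x, HasDerivAt E (-a * E x) x := by
    intro x
    have h0 : HasDerivAt (fun x : ℝ => -a * (x - T)) (-a) x := by
      have := (((hasDerivAt_id x).sub_const T).const_mul (-a))
      simpa using this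
    have := h0.exp
    convert this using 1
    simp only [hE]; ring
  have hlin : ∀ x, HasDerivAt (fun x : ℝ => b * (x - T)) b x := by
    intro x
    have := (((hasDerivAt_id x).sub_const T).const_mul b)
    simpa using this
  have hCd : ∀ x, HasDerivAt C (-(b * S x)) x := by
    intro x
    have := (hlin x).cos
    convert this using 1
    simp only [hS]; ring
  have hSd : ∀ x, HasDerivAt S (b * C x) x := by
    intro x
    have := (hlin x).sin
    convert this using 1
    simp only [hC]; ring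
  set P : ℝ → ℝ := fun x => E x * (f x * C x - (f1 x - a * f x) / b * S x) with hP
  set Q : ℝ → ℝ := fun x => E x * (f x * S x + (f1 x - a * f x) / b * C x) with hQ
  have hPd : ∀ x ∈ Icc T t, HasDerivAt P 0 x := by
    intro x hx
    have hf := h x hx
    have hf1 := h1 x hx
    have := (hEd x).mul ((hf.mul (hCd x)).sub ((((hf1.sub (hf.const_mul a)).div_const b)).mul (hSd x)))
    refine HasDerivAt.congr_deriv (f := P) this ?_
    simp only [Pi.sub_apply, Pi.mul_apply]
    field_simp
    ring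
  have hQd : ∀ x ∈ Icc T t, HasDerivAt Q 0 x := by
    intro x hx
    have hf := h x hx
    have hf1 := h1 x hx
    have := (hEd x).mul ((hf.mul (hSd x)).add ((((hf1.sub (hf.const_mul a)).div_const b)).mul (hCd x)))
    refine HasDerivAt.congr_deriv (f := Q) this ?_
    simp only [Pi.add_apply, Pi.mul_apply, Pi.sub_apply]
    field_simp
    ring
  have hPc : P t = P T := by
    apply constant_of_has_deriv_right_zero (a := T) (b := t)
    · exact fun x hx => (hPd x hx).continuousAt.continuousWithinAt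
    · exact fun x hx => (hPd x ⟨hx.1, hx.2.le⟩).hasDerivWithinAt
    · exact ⟨hT, le_rfl⟩
  have hQc : Q t = Q T := by
    apply constant_of_has_deriv_right_zero (a := T) (b := t)
    · exact fun x hx => (hQd x hx).continuousAt.continuousWithinAt
    · exact fun x hx => (hQd x ⟨hx.1, hx.2.le⟩).hasDerivWithinAt
    · exact ⟨hT, le_rfl⟩
  have hPT : P T = f T := by simp [hP, hE, hC, hS]
  have hQT : Q T = (f1 T - a * f T) / b := by simp [hQ, hE, hC, hS]
  have hEe : exp (a * (t - T)) * E t = 1 := by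
    simp only [hE]; rw [← Real.exp_add]; simp
  have hcs : C t ^ 2 + S t ^ 2 = 1 := by
    simp only [hC, hS]; exact cos_sq_add_sin_sq _
  have hP' : E t * (f t * C t - (f1 t - a * f t) / b * S t) = f T := by rw [← hPT, ← hPc]
  have hQ' : E t * (f t * S t + (f1 t - a * f t) / b * C t) = (f1 T - a * f T) / b := by
    rw [← hQT, ← hQc]
  constructor
  · show f t = exp (a * (t - T)) * (f T * C t + (f1 T - a * f T) / b * S t)
    rw [← hQ', ← hP']
    calc f t = (exp (a * (t - T)) * E t) * (f t * (C t ^ 2 + S t ^ 2)) := by rw [hEe, hcs]; ring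
      _ = _ := by ring
  · show (f1 t - a * f t) / b = exp (a * (t - T)) * ((f1 T - a * f T) / b * C t - f T * S t)
    rw [← hQ', ← hP']
    calc (f1 t - a * f t) / b = (exp (a * (t - T)) * E t) * ((f1 t - a * f t) / b * (C t ^ 2 + S t ^ 2)) := by
          rw [hEe, hcs]; ring
      _ = _ := by ring

/-- Derivative data of a `C⁴` function satisfying the linear equation on `[T₀, ∞)`. -/
structure Lin (c : ℝ) (z z1 z2 z3 z4 : ℝ → ℝ) (T₀ : ℝ) : Prop where
  d0 : ∀ x, HasDerivAt z (z1 x) x
  d1 : ∀ x, HasDerivAt z1 (z2 x) x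
  d2 : ∀ x, HasDerivAt z2 (z3 x) x
  d3 : ∀ x, HasDerivAt z3 (z4 x) x
  eq : ∀ x, T₀ ≤ x → z4 x + c ^ 2 * z2 x + z x = 0
  l0 : Tendsto z atTop (𝓝 0)
  l1 : Tendsto z1 atTop (𝓝 0)

lemma tendsto_decay {α : ℝ} (hα : 0 < α) (T M : ℝ) :
    Tendsto (fun t : ℝ => exp (-α * (t - T)) * M) atTop (𝓝 0) := by
  have h1 : Tendsto (fun t : ℝ => α * (t - T)) atTop atTop := by
    apply Tendsto.const_mul_atTop hα
    exact tendsto_atTop_add_const_right _ _ tendsto_id
  have h2 : Tendsto (fun t : ℝ => exp (-α * (t - T))) atTop (𝓝 0) := by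
    have := Real.tendsto_exp_neg_atTop_nhds_zero.comp h1
    refine this.congr ?_
    intro t
    simp only [Function.comp]
    congr 1; ring
  simpa using h2.mul_const M

lemma Lin.g_zero {c α β T₀ : ℝ} {z z1 z2 z3 z4 : ℝ → ℝ} (L : Lin c z z1 z2 z3 z4 T₀)
    (hα : 0 < α) (hβ : 0 < β) (hab : α ^ 2 + β ^ 2 = 1) (hc : c ^ 2 = 2 - 4 * α ^ 2) :
    z2 T₀ + 2 * α * z1 T₀ + z T₀ = 0 ∧ z3 T₀ + 2 * α * z2 T₀ + z1 T₀ = 0 := by
  set g : ℝ → ℝ := fun x => z2 x + 2 * α * z1 x + z x with hg
  set g1 : ℝ → ℝ := fun x => z3 x + 2 * α * z2 x + z1 x with hg1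
  set h : ℝ → ℝ := fun x => z2 x - 2 * α * z1 x + z x with hh
  set h1 : ℝ → ℝ := fun x => z3 x - 2 * α * z2 x + z1 x with hh1
  have gd : ∀ x, HasDerivAt g (g1 x) x := fun x =>
    ((L.d2 x).add ((L.d1 x).const_mul (2 * α))).add (L.d0 x)
  have hd : ∀ x, HasDerivAt h (h1 x) x := fun x =>
    ((L.d2 x).sub ((L.d1 x).const_mul (2 * α))).add (L.d0 x)
  have gd1 : ∀ x, T₀ ≤ x → HasDerivAt g1 (2 * α * g1 x - (α ^ 2 + β ^ 2) * g x) x := by
    intro x hx
    have := ((L.d3 x).add ((L.d2 x).const_mul (2 * α))).add (L.d1 x)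
    refine HasDerivAt.congr_deriv (f := g1) this ?_
    have e := L.eq x hx
    simp only [hg, hg1]
    rw [hab]
    have : z4 x = - c ^ 2 * z2 x - z x := by linarith
    rw [this, hc]; ring
  have hd1 : ∀ x, T₀ ≤ x → HasDerivAt h1 (2 * (-α) * h1 x - ((-α) ^ 2 + β ^ 2) * h x) x := by
    intro x hx
    have := ((L.d3 x).sub ((L.d2 x).const_mul (2 * α))).add (L.d1 x)
    refine HasDerivAt.congr_deriv (f := h1) this ?_
    have e := L.eq x hx
    simp only [hh, hh1]
    rw [neg_sq, hab]
    have : z4 x = - c ^ 2 * z2 x - z x := by linarith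
    rw [this, hc]; ring
  -- h tends to zero
  set M : ℝ := |h T₀| + |(h1 T₀ - (-α) * h T₀) / β| with hM
  have hhb : ∀ t, T₀ ≤ t → |h t| ≤ exp (-α * (t - T₀)) * M := by
    intro t ht
    have := (osc (a := -α) (b := β) hβ.ne' ht (fun x _ => hd x) (fun x hx => hd1 x hx.1)).1
    rw [this, abs_mul, abs_of_pos (exp_pos _)]
    apply mul_le_mul_of_nonneg_left _ (exp_pos _).le
    refine (abs_add_le _ _).trans ?_
    rw [abs_mul, abs_mul]
    have h1' : |cos (β * (t - T₀))| ≤ 1 := abs_cos_le_one _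
    have h2' : |sin (β * (t - T₀))| ≤ 1 := abs_sin_le_one _
    have := mul_le_mul_of_nonneg_left h1' (abs_nonneg (h T₀))
    have := mul_le_mul_of_nonneg_left h2' (abs_nonneg ((h1 T₀ - (-α) * h T₀) / β))
    simp only [hM]
    linarith
  have hh0 : Tendsto h atTop (𝓝 0) := by
    rw [tendsto_zero_iff_abs_tendsto_zero]
    refine squeeze_zero' (Eventually.of_forall fun t => abs_nonneg _) ?_ (tendsto_decay hα T₀ M)
    filter_upwards [eventually_ge_atTop T₀] with t ht using hhb t ht
  have hg0 : Tendsto g atTop (𝓝 0) := by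
    have := hh0.add (L.l1.const_mul (4 * α))
    simp only [mul_zero, add_zero] at this
    refine this.congr ?_
    intro t
    simp only [hg, hh]; ring
  -- the coefficients vanish
  have hform : ∀ t, T₀ ≤ t → g t = exp (α * (t - T₀)) * (g T₀ * cos (β * (t - T₀)) +
      (g1 T₀ - α * g T₀) / β * sin (β * (t - T₀))) := fun t ht =>
    (osc (a := α) (b := β) hβ.ne' ht (fun x _ => gd x) (fun x hx => gd1 x hx.1)).1
  -- general: along a sequence going to infinity
  have key : ∀ (θ : ℝ), 0 ≤ θ → g T₀ * cos θ + (g1 T₀ - α * g T₀) / β * sin θ = 0 := by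
    intro θ hθ
    set V : ℝ := g T₀ * cos θ + (g1 T₀ - α * g T₀) / β * sin θ with hV
    have hseq : Tendsto (fun n : ℕ => T₀ + (θ + n * (2 * π)) / β) atTop atTop := by
      apply tendsto_atTop_add_const_left
      apply Tendsto.atTop_div_const hβ
      apply tendsto_atTop_add_const_left
      exact (tendsto_natCast_atTop_atTop).atTop_mul_const (by positivity)
    have hl := hg0.comp hseq
    have hbd : ∀ n : ℕ, |V| ≤ |g (T₀ + (θ + n * (2 * π)) / β)| := by
      intro n
      have hpos : 0 ≤ (θ + n * (2 * π)) / β := by positivity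
      rw [hform _ (by linarith)]
      have e1 : β * (T₀ + (θ + n * (2 * π)) / β - T₀) = θ + n * (2 * π) := by
        field_simp
        ring
      rw [e1, Real.cos_add_nat_mul_two_pi, Real.sin_add_nat_mul_two_pi, abs_mul,
        abs_of_pos (exp_pos _)]
      have : 1 ≤ exp (α * (T₀ + (θ + n * (2 * π)) / β - T₀)) := by
        apply Real.one_le_exp
        have : T₀ + (θ + n * (2 * π)) / β - T₀ = (θ + n * (2 * π)) / β := by ring
        rw [this]; positivity
      nlinarith [abs_nonneg V]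
    have hl2 := hl.abs
    simp only [abs_zero] at hl2
    have : |V| ≤ 0 := ge_of_tendsto hl2 (Eventually.of_forall fun n => hbd n)
    exact abs_nonpos_iff.mp this
  have k0 := key 0 le_rfl
  have k1 := key (π / 2) (by positivity)
  simp only [cos_zero, sin_zero, mul_one, mul_zero, add_zero] at k0
  simp only [cos_pi_div_two, sin_pi_div_two, mul_one, mul_zero, zero_add] at k1
  rw [k0] at k1
  have k2 : g1 T₀ = 0 := by
    rw [div_eq_zero_iff] at k1
    rcases k1 with h | h
    · linarith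
    · exact absurd h hβ.ne'
  exact ⟨k0, k2⟩

end Pool.Agent.R208.Beam
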