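import Mathlib
import Pool.Agent.R208.BeamOsc
import Pool.Agent.R208.BeamNum
import Pool.Agent.R208.BeamAngle

/-!
Analysis of an even one-troughed wave of the asymmetric beam model.
-/

open Real Set Filter Topology

namespace Pool.Agent.R208.Beam

/-- wave data -/
structure Wv (c ξ T : ℝ) (z z1 z2 z3 z4 : ℝ → ℝ) : Prop where
  d0 : ∀ x, HasDerivAt z (z1 x) x
  d1 : ∀ x, HasDerivAt z1 (z2 x) x
  d2 : ∀ x, HasDerivAt z2 (z3 x) x
  d3 : ∀ x, HasDerivAt z3 (z4 x) x
  eq : ∀ x, z4 x + c ^ 2 * z2 x + max (z x + 1) 0 - ξ * max (-(z x + 1)) 0 - 1 = 0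
  l0 : Tendsto z atTop (𝓝 0)
  l1 : Tendsto z1 atTop (𝓝 0)
  even : ∀ x, z (-x) = z x
  T0 : 0 < T
  zer : ∀ x, z x = -1 ↔ x = T ∨ x = -T

/-- frequencies -/
structure Fr (c ξ ω₁ ω₂ : ℝ) : Prop where
  p1 : 0 < ω₁
  lt : ω₁ < ω₂
  add : ω₁ ^ 2 + ω₂ ^ 2 = c ^ 2
  mul : ω₁ ^ 2 * ω₂ ^ 2 = ξ

section
variable {c ξ T α β ω₁ ω₂ : ℝ} {z z1 z2 z3 z4 : ℝ → ℝ}

lemma even_deriv {f f1 : ℝ → ℝ} (hd : ∀ x, HasDerivAt f (f1 x) x) (he : ∀ x, f (-x) = f x) (x : ℝ) :
    f1 (-x) = - f1 x := by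
  have h1 : HasDerivAt (fun y => f (-y)) (f1 (-x) * (-1)) x :=
    (hd (-x)).comp x (hasDerivAt_neg x)
  have h2 : (fun y => f (-y)) = f := funext he
  rw [h2] at h1
  have := h1.unique (hd x)
  linarith

lemma odd_deriv {f f1 : ℝ → ℝ} (hd : ∀ x, HasDerivAt f (f1 x) x) (he : ∀ x, f (-x) = - f x) (x : ℝ) :
    f1 (-x) = f1 x := by
  have h1 : HasDerivAt (fun y => f (-y)) (f1 (-x) * (-1)) x :=
    (hd (-x)).comp x (hasDerivAt_neg x)
  have h2 : (fun y => f (-y)) = fun y => - f y := funext he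
  rw [h2] at h1
  have := h1.unique (hd x).fun_neg
  linarith

lemma Wv.cont (W : Wv c ξ T z z1 z2 z3 z4) : Continuous z :=
  continuous_iff_continuousAt.mpr fun x => (W.d0 x).continuousAt

lemma Wv.zT (W : Wv c ξ T z z1 z2 z3 z4) : z T = -1 := (W.zer T).mpr (Or.inl rfl)

lemma Wv.e1 (W : Wv c ξ T z z1 z2 z3 z4) (x : ℝ) : z1 (-x) = - z1 x := even_deriv W.d0 W.even x
lemma Wv.e2 (W : Wv c ξ T z z1 z2 z3 z4) (x : ℝ) : z2 (-x) = z2 x := odd_deriv W.d1 W.e1 x
lemma Wv.e3 (W : Wv c ξ T z z1 z2 z3 z4) (x : ℝ) : z3 (-x) = - z3 x := even_deriv W.d2 W.e2 x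

lemma Wv.z10 (W : Wv c ξ T z z1 z2 z3 z4) : z1 0 = 0 := by
  have := W.e1 0; rw [neg_zero] at this; linarith
lemma Wv.z30 (W : Wv c ξ T z z1 z2 z3 z4) : z3 0 = 0 := by
  have := W.e3 0; rw [neg_zero] at this; linarith

lemma Wv.out (W : Wv c ξ T z z1 z2 z3 z4) {t : ℝ} (ht : T < t) : -1 < z t := by
  by_contra hcon
  push Not at hcon
  obtain ⟨t', h1, h2⟩ := ((W.l0.eventually (lt_mem_nhds (show (-1:ℝ) < 0 by norm_num))).and
    (eventually_gt_atTop t)).exists
  obtain ⟨x, hx, hx2⟩ := intermediate_value_Icc h2.le W.cont.continuousOn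
    (show (-1:ℝ) ∈ Icc (z t) (z t') from ⟨hcon, h1.le⟩)
  have := W.T0
  rcases (W.zer x).mp hx2 with h | h
  · linarith [hx.1]
  · linarith [hx.1]

lemma Wv.in0 (W : Wv c ξ T z z1 z2 z3 z4) (P : Par c α β) : z 0 < -1 := by
  have hT := W.T0
  by_contra hcon
  push Not at hcon
  have hne : z 0 ≠ -1 := by
    intro h
    rcases (W.zer 0).mp h with h | h <;> linarith
  have h0 : -1 < z 0 := lt_of_le_of_ne hcon (Ne.symm hne)
  have hnn : ∀ t, 0 ≤ t → -1 ≤ z t := by
    intro t ht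
    by_contra h
    push Not at h
    obtain ⟨x, hx, hx2⟩ := intermediate_value_Icc' ht W.cont.continuousOn
      (show (-1:ℝ) ∈ Icc (z t) (z 0) from ⟨h.le, h0.le⟩)
    rcases (W.zer x).mp hx2 with h' | h'
    · rw [h'] at hx
      rcases lt_or_eq_of_le hx.2 with h3 | h3
      · linarith [W.out h3]
      · rw [← h3, W.zT] at h; linarith
    · linarith [hx.1]
  have hall : ∀ t, -1 ≤ z t := by
    intro t
    rcases le_total 0 t with h | h
    · exact hnn t h
    · rw [← W.even t]; exact hnn (-t) (by linarith)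
  have hL : ∀ T₀, Lin c z z1 z2 z3 z4 T₀ := by
    intro T₀
    refine ⟨W.d0, W.d1, W.d2, W.d3, ?_, W.l0, W.l1⟩
    intro x _
    have e := W.eq x
    rw [max_eq_left (by linarith [hall x]), max_eq_right (by linarith [hall x])] at e
    linarith
  have hg : ∀ t, z2 t + 2 * α * z1 t + z t = 0 := fun t => ((hL t).g_zero P.α0 P.β0 P.ab P.cc).1
  have hz1 : ∀ t, z1 t = 0 := by
    intro t
    have a := hg t
    have b := hg (-t)
    rw [W.e1, W.e2, W.even] at b
    have : α * z1 t = 0 := by linarith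
    rcases mul_eq_zero.mp this with h | h
    · exact absurd h P.α0.ne'
    · exact h
  have hconst : ∀ t, z t = z T := by
    intro t
    have hd : ∀ x, HasDerivAt z 0 x := fun x => by rw [← hz1 x]; exact W.d0 x
    exact is_const_of_deriv_eq_zero (fun x => (hd x).differentiableAt) (fun x => (hd x).deriv) t T
  have : Tendsto z atTop (𝓝 (-1)) := by
    have : z = fun _ => -1 := by funext t; rw [hconst t, W.zT]
    rw [this]; exact tendsto_const_nhds
  have := tendsto_nhds_unique this W.l0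
  norm_num at this

lemma Wv.ins (W : Wv c ξ T z z1 z2 z3 z4) (P : Par c α β) {t : ℝ} (h0 : 0 ≤ t) (ht : t < T) :
    z t < -1 := by
  have hT := W.T0
  by_contra h
  push Not at h
  obtain ⟨x, hx, hx2⟩ := intermediate_value_Icc h0 W.cont.continuousOn
    (show (-1:ℝ) ∈ Icc (z 0) (z t) from ⟨(W.in0 P).le, h⟩)
  rcases (W.zer x).mp hx2 with h' | h'
  · linarith [hx.2]
  · linarith [hx.1]

lemma Wv.lin (W : Wv c ξ T z z1 z2 z3 z4) {T₀ : ℝ} (h : T ≤ T₀) : Lin c z z1 z2 z3 z4 T₀ := by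
  refine ⟨W.d0, W.d1, W.d2, W.d3, ?_, W.l0, W.l1⟩
  intro x hx
  have hz : -1 ≤ z x := by
    rcases lt_or_eq_of_le (h.trans hx) with h3 | h3
    · exact (W.out h3).le
    · rw [← h3, W.zT]
  have e := W.eq x
  rw [max_eq_left (by linarith), max_eq_right (by linarith)] at e
  linarith

lemma Wv.s0 (W : Wv c ξ T z z1 z2 z3 z4) : 0 ≤ z1 T := by
  have h := (hasDerivAt_iff_tendsto_slope.mp (W.d0 T))
  have h2 : Tendsto (slope z T) (𝓝[>] T) (𝓝 (z1 T)) :=
    h.mono_left (nhdsWithin_mono _ (fun x hx => ne_of_gt hx))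
  refine ge_of_tendsto h2 ?_
  filter_upwards [self_mem_nhdsWithin] with x hx
  have hx' : T < x := hx
  rw [slope_def_field]
  have := W.out hx'
  rw [W.zT]
  exact div_nonneg (by linarith) (by linarith)

lemma Wv.outform (W : Wv c ξ T z z1 z2 z3 z4) (P : Par c α β) {t : ℝ} (ht : T ≤ t) :
    z t = exp (-α * (t - T)) * (-cos (β * (t - T)) + (z1 T - α) / β * sin (β * (t - T))) := by
  have := (osc (f := z) (f1 := z1) (a := -α) (b := β) P.β0.ne' ht (fun x _ => W.d0 x) (fun x hx => by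
    refine (W.d1 x).congr_deriv ?_
    have := ((W.lin hx.1).g_zero P.α0 P.β0 P.ab P.cc).1
    have e : (-α) ^ 2 + β ^ 2 = 1 := by rw [neg_sq]; exact P.ab
    rw [e]; linarith)).1
  rw [this, W.zT]
  ring

lemma Wv.sbound (W : Wv c ξ T z z1 z2 z3 z4) (P : Par c α β) :
    z1 T < α + β * (1 + √2 * exp (5 * π / 4 * (α / β))) := by
  have hβ := P.β0
  have hα := P.α0
  have hπ := Real.pi_pos
  set t : ℝ := T + 5 * π / 4 / β with ht
  have hpos : 0 < 5 * π / 4 / β := by positivity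
  have h1 := W.out (t := t) (by rw [ht]; linarith)
  rw [W.outform P (by rw [ht]; linarith)] at h1
  have e1 : β * (t - T) = π / 4 + π := by rw [ht]; field_simp; ring
  have e2 : -α * (t - T) = -(5 * π / 4 * (α / β)) := by rw [ht]; field_simp; ring
  rw [e1, e2, Real.cos_add_pi, Real.sin_add_pi, Real.cos_pi_div_four, Real.sin_pi_div_four] at h1
  set E : ℝ := exp (5 * π / 4 * (α / β)) with hE
  have hE0 : 0 < E := exp_pos _
  have e3 : exp (-(5 * π / 4 * (α / β))) * E = 1 := by rw [hE, ← Real.exp_add]; simp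
  have h2 : (√2 : ℝ) ^ 2 = 2 := Real.sq_sqrt (by norm_num)
  have h20 : (0:ℝ) < √2 := by positivity
  have h3 : -E < √2 / 2 - (z1 T - α) / β * (√2 / 2) := by
    have := mul_lt_mul_of_pos_right h1 hE0
    calc -E = -1 * E := by ring
      _ < _ := this
      _ = (exp (-(5 * π / 4 * (α / β))) * E) * (√2 / 2 - (z1 T - α) / β * (√2 / 2)) := by ring
      _ = _ := by rw [e3, one_mul]
  have h4 : (z1 T - α) / β < 1 + √2 * E := by
    by_contra hcon
    push Not at hcon
    nlinarith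
  rw [div_lt_iff₀ hβ] at h4
  linarith

lemma Wv.zTvals (W : Wv c ξ T z z1 z2 z3 z4) (P : Par c α β) :
    z2 T = 1 - 2 * α * z1 T ∧ z3 T = -2 * α + (1 - c ^ 2) * z1 T := by
  have := (W.lin le_rfl).g_zero P.α0 P.β0 P.ab P.cc
  rw [W.zT] at this
  have h2 : z2 T = 1 - 2 * α * z1 T := by linarith [this.1]
  refine ⟨h2, ?_⟩
  have h3 := this.2
  rw [h2] at h3
  rw [P.cc]
  linarith

/-- inside oscillator: `ω` the frequency, `ω'` the other one -/
lemma Wv.inform (W : Wv c ξ T z z1 z2 z3 z4) (P : Par c α β) {ω ω' : ℝ} (hω : 0 < ω) (hω' : 0 < ω')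
    (hadd : ω ^ 2 + ω' ^ 2 = c ^ 2) (hmul : ω ^ 2 * ω' ^ 2 = ξ) {t : ℝ} (h0 : 0 ≤ t) (ht : t ≤ T) :
    z2 t + ω' ^ 2 * (z t + 1 - 1 / ξ) = (z2 0 + ω' ^ 2 * (z 0 + 1 - 1 / ξ)) * cos (ω * t) ∧
    z3 t + ω' ^ 2 * z1 t = - ω * (z2 0 + ω' ^ 2 * (z 0 + 1 - 1 / ξ)) * sin (ω * t) := by
  have hξ : 0 < ξ := by rw [← hmul]; positivity
  set v : ℝ → ℝ := fun x => z2 x + ω' ^ 2 * (z x + 1 - 1 / ξ) with hv
  set v1 : ℝ → ℝ := fun x => z3 x + ω' ^ 2 * z1 x with hv1
  have dv : ∀ x, HasDerivAt v (v1 x) x := fun x =>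
    (W.d2 x).add ((((W.d0 x).add_const 1).sub_const (1 / ξ)).const_mul (ω' ^ 2))
  have dv1 : ∀ x ∈ Icc 0 t, HasDerivAt v1 (2 * 0 * v1 x - (0 ^ 2 + ω ^ 2) * v x) x := by
    intro x hx
    refine HasDerivAt.congr_deriv (f := v1) ((W.d3 x).add ((W.d1 x).const_mul (ω' ^ 2))) ?_
    have hz : z x ≤ -1 := by
      rcases lt_or_eq_of_le (hx.2.trans ht) with h3 | h3
      · exact (W.ins P hx.1 h3).le
      · rw [h3, W.zT]
    have e := W.eq x
    rw [max_eq_right (by linarith), max_eq_left (by linarith)] at e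
    have e4 : z4 x = - c ^ 2 * z2 x - ξ * (z x + 1) + 1 := by linarith
    have e5 : ω ^ 2 * (ω' ^ 2 * (z x + 1 - 1 / ξ)) = ξ * (z x + 1) - 1 := by
      rw [← mul_assoc, hmul]; field_simp
    simp only [hv, hv1]
    rw [e4, ← hadd]
    linear_combination e5
  have h := osc (f := v) (f1 := v1) (a := 0) (b := ω) (T := 0) hω.ne' h0 (fun x _ => dv x) dv1
  have hv10 : v1 0 = 0 := by simp only [hv1]; rw [W.z30, W.z10]; ring
  have ha := h.1
  have hb := h.2
  rw [hv10] at ha hb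
  simp only [zero_mul, exp_zero, one_mul, sub_zero, zero_div, add_zero, zero_sub] at ha hb
  constructor
  · exact ha
  · show v1 t = - ω * v 0 * sin (ω * t)
    rw [div_eq_iff hω.ne'] at hb
    rw [hb]; ring

/-- amplitude -/
noncomputable def V0 (α ω s T : ℝ) : ℝ :=
  -((1 / ω ^ 2 - 1 + 2 * α * s) * cos (ω * T) + ((1 - ω ^ 2) * s - 2 * α) / ω * sin (ω * T))

/-- matching relations for each frequency -/
lemma Wv.matching (W : Wv c ξ T z z1 z2 z3 z4) (P : Par c α β) {ω ω' : ℝ} (hω : 0 < ω) (hω' : 0 < ω')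
    (hadd : ω ^ 2 + ω' ^ 2 = c ^ 2) (hmul : ω ^ 2 * ω' ^ 2 = ξ) :
    -(z2 0 + ω' ^ 2 * (z 0 + 1 - 1 / ξ)) * cos (ω * T) = 1 / ω ^ 2 - 1 + 2 * α * z1 T ∧
    ω * -(z2 0 + ω' ^ 2 * (z 0 + 1 - 1 / ξ)) * sin (ω * T) = (1 - ω ^ 2) * z1 T - 2 * α ∧
    z2 0 + ω' ^ 2 * (z 0 + 1 - 1 / ξ) = V0 α ω (z1 T) T := by
  have h := W.inform P hω hω' hadd hmul W.T0.le le_rfl
  obtain ⟨h2, h3⟩ := W.zTvals P
  rw [h2, h3, W.zT] at h
  have e5 : ω' ^ 2 * (1 / ξ) = 1 / ω ^ 2 := by rw [← hmul]; field_simp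
  set v : ℝ := z2 0 + ω' ^ 2 * (z 0 + 1 - 1 / ξ) with hv
  have A : -v * cos (ω * T) = 1 / ω ^ 2 - 1 + 2 * α * z1 T := by
    linear_combination h.1 + e5
  have B : ω * -v * sin (ω * T) = (1 - ω ^ 2) * z1 T - 2 * α := by
    linear_combination -h.2 + (z1 T) * hadd
  refine ⟨A, B, ?_⟩
  rw [V0, ← A, ← B]
  have := cos_sq_add_sin_sq (ω * T)
  have e : ω * -v * sin (ω * T) / ω = -v * sin (ω * T) := by field_simp
  rw [e]
  linear_combination -v * this

lemma Wv.wneg (W : Wv c ξ T z z1 z2 z3 z4) (P : Par c α β) (hξ : 0 < ξ) {t : ℝ} (h0 : 0 ≤ t)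
    (ht : t ≤ T) : z t + 1 - 1 / ξ < 0 := by
  have : z t ≤ -1 := by
    rcases lt_or_eq_of_le ht with h3 | h3
    · exact (W.ins P h0 h3).le
    · rw [h3, W.zT]
  have : 0 < 1 / ξ := by positivity
  linarith

lemma Wv.quarter (W : Wv c ξ T z z1 z2 z3 z4) (P : Par c α β) (F : Fr c ξ ω₁ ω₂)
    (h1 : ω₁ < 1) : ω₁ * T < π / 2 ∧ z2 0 + ω₂ ^ 2 * (z 0 + 1 - 1 / ξ) < 0 := by
  obtain ⟨p1, lt, hadd, hmul⟩ := id F
  have p2 : 0 < ω₂ := p1.trans lt
  have hξ : 0 < ξ := by rw [← hmul]; positivity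
  have hα := P.α0
  have hπ := Real.pi_pos
  have hT := W.T0
  have hs := W.s0
  obtain ⟨hA, hB, -⟩ := W.matching P p1 p2 hadd hmul
  have hin := fun (t : ℝ) (h0 : 0 ≤ t) (ht : t ≤ T) => W.inform P p1 p2 hadd hmul h0 ht
  set v : ℝ := z2 0 + ω₂ ^ 2 * (z 0 + 1 - 1 / ξ) with hv
  have hpos : 0 < 1 / ω₁ ^ 2 - 1 + 2 * α * z1 T := by
    have : 1 < 1 / ω₁ ^ 2 := by
      rw [lt_div_iff₀ (by positivity)]; nlinarith
    have : 0 ≤ 2 * α * z1 T := by positivity
    linarith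
  have hmain : ω₁ * T < π / 2 := by
    by_contra hcon
    push Not at hcon
    have hT1 : π / (2 * ω₁) ≤ T := by
      rw [div_le_iff₀ (by positivity)]; nlinarith
    have h12 : π / (2 * ω₂) ≤ π / (2 * ω₁) := by
      apply div_le_div_of_nonneg_left hπ.le (by positivity) (by nlinarith)
    rcases le_or_gt 0 v with hv0 | hv0
    · -- test function cos on [0, π/(2ω₂)]
      set Φ : ℝ → ℝ := fun t => z1 t * cos (ω₂ * t) + ω₂ * ((z t + 1 - 1 / ξ) * sin (ω₂ * t)) with hΦ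
      have hl : ∀ t : ℝ, HasDerivAt (fun s : ℝ => ω₂ * s) ω₂ t := by
        intro t; simpa using (hasDerivAt_id t).const_mul ω₂
      have hΦd : ∀ t, HasDerivAt Φ ((z2 t + ω₂ ^ 2 * (z t + 1 - 1 / ξ)) * cos (ω₂ * t)) t := by
        intro t
        have := ((W.d1 t).mul (hl t).cos).add
          (((((W.d0 t).add_const 1).sub_const (1 / ξ)).mul (hl t).sin).const_mul ω₂)
        refine HasDerivAt.congr_deriv (f := Φ) this ?_
        ring
      have hb0 : 0 ≤ π / (2 * ω₂) := by positivity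
      have hmono : MonotoneOn Φ (Icc 0 (π / (2 * ω₂))) := by
        apply monotoneOn_of_deriv_nonneg (convex_Icc _ _)
        · exact fun t _ => (hΦd t).continuousAt.continuousWithinAt
        · exact fun t _ => (hΦd t).differentiableAt.differentiableWithinAt
        · intro t ht
          rw [interior_Icc] at ht
          rw [(hΦd t).deriv, (hin t ht.1.le (by linarith [ht.2])).1]
          have c1 : 0 ≤ cos (ω₁ * t) := by
            apply Real.cos_nonneg_of_mem_Icc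
            have a1 : 0 ≤ ω₁ * t := mul_nonneg p1.le ht.1.le
            have a2 : t ≤ π / (2 * ω₁) := by linarith [ht.2]
            rw [le_div_iff₀ (by positivity)] at a2
            exact ⟨by linarith, by nlinarith⟩
          have c2 : 0 ≤ cos (ω₂ * t) := by
            apply Real.cos_nonneg_of_mem_Icc
            have a1 : 0 ≤ ω₂ * t := mul_nonneg p2.le ht.1.le
            have a2 : t ≤ π / (2 * ω₂) := ht.2.le
            rw [le_div_iff₀ (by positivity)] at a2
            exact ⟨by linarith, by nlinarith⟩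
          positivity
      have h := hmono (left_mem_Icc.mpr hb0) (right_mem_Icc.mpr hb0) hb0
      have e : ω₂ * (π / (2 * ω₂)) = π / 2 := by field_simp
      simp only [hΦ] at h
      rw [e, W.z10, cos_pi_div_two, sin_pi_div_two, mul_zero, sin_zero] at h
      have hw := W.wneg P hξ hb0 (by linarith)
      have m1 := mul_neg_of_pos_of_neg p2 hw
      linarith
    · rcases le_or_gt (3 * π / (2 * ω₁)) T with hT3 | hT3
      · -- test function sin on [a, a+π/ω₂]
        set a : ℝ := π / (2 * ω₁) with ha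
        set b : ℝ := a + π / ω₂ with hb
        have ha0 : 0 < a := by positivity
        have hab : a ≤ b := by rw [hb]; have : 0 < π / ω₂ := by positivity
                               linarith
        have hbT : b ≤ 3 * π / (2 * ω₁) := by
          have : π / ω₂ ≤ π / ω₁ := div_le_div_of_nonneg_left hπ.le p1 lt.le
          have e : 3 * π / (2 * ω₁) = π / (2 * ω₁) + π / ω₁ := by field_simp; ring
          rw [e, hb, ha]; linarith
        set Φ : ℝ → ℝ := fun t => z1 t * sin (ω₂ * (t - a)) -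
          ω₂ * ((z t + 1 - 1 / ξ) * cos (ω₂ * (t - a))) with hΦ
        have hl : ∀ t : ℝ, HasDerivAt (fun s : ℝ => ω₂ * (s - a)) ω₂ t := by
          intro t; simpa using ((hasDerivAt_id t).sub_const a).const_mul ω₂
        have hΦd : ∀ t, HasDerivAt Φ ((z2 t + ω₂ ^ 2 * (z t + 1 - 1 / ξ)) * sin (ω₂ * (t - a))) t := by
          intro t
          have := ((W.d1 t).mul (hl t).sin).sub
            (((((W.d0 t).add_const 1).sub_const (1 / ξ)).mul (hl t).cos).const_mul ω₂)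
          refine HasDerivAt.congr_deriv (f := Φ) this ?_
          ring
        have hmono : MonotoneOn Φ (Icc a b) := by
          apply monotoneOn_of_deriv_nonneg (convex_Icc _ _)
          · exact fun t _ => (hΦd t).continuousAt.continuousWithinAt
          · exact fun t _ => (hΦd t).differentiableAt.differentiableWithinAt
          · intro t ht
            rw [interior_Icc] at ht
            rw [(hΦd t).deriv, (hin t (ha0.trans ht.1).le (by linarith [ht.2])).1]
            have c1 : cos (ω₁ * t) ≤ 0 := by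
              apply Real.cos_nonpos_of_pi_div_two_le_of_le
              · have a2 : a < t := ht.1
                rw [ha, div_lt_iff₀ (by positivity)] at a2
                nlinarith
              · have a2 : t ≤ 3 * π / (2 * ω₁) := by linarith [ht.2]
                rw [le_div_iff₀ (by positivity)] at a2
                nlinarith
            have c2 : 0 ≤ sin (ω₂ * (t - a)) := by
              apply Real.sin_nonneg_of_nonneg_of_le_pi
              · exact mul_nonneg p2.le (by linarith [ht.1])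
              · have a2 : t - a ≤ π / ω₂ := by linarith [ht.2]
                rw [le_div_iff₀ p2] at a2
                linarith
            exact mul_nonneg (mul_nonneg_of_nonpos_of_nonpos hv0.le c1) c2
        have h := hmono (left_mem_Icc.mpr hab) (right_mem_Icc.mpr hab) hab
        have e : ω₂ * (b - a) = π := by rw [hb]; field_simp; ring
        simp only [hΦ] at h
        rw [e, sub_self, mul_zero, sin_zero, cos_zero, sin_pi, cos_pi] at h
        have hw := W.wneg P hξ ha0.le (by linarith)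
        have hw2 := W.wneg P hξ (ha0.le.trans hab) (by linarith)
        have m1 := mul_neg_of_pos_of_neg p2 hw
        have m2 := mul_neg_of_pos_of_neg p2 hw2
        linarith
      · have c1 : cos (ω₁ * T) ≤ 0 := by
          apply Real.cos_nonpos_of_pi_div_two_le_of_le hcon
          rw [lt_div_iff₀ (by positivity)] at hT3
          nlinarith
        nlinarith
  refine ⟨hmain, ?_⟩
  have c1 : 0 < cos (ω₁ * T) := by
    apply Real.cos_pos_of_mem_Ioo
    have : 0 < ω₁ * T := by positivity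
    exact ⟨by linarith, hmain⟩
  by_contra hcon
  push Not at hcon
  nlinarith

/-- the explicit profile determined by the slope `s` -/
noncomputable def Zp (ξ α β ω₁ ω₂ s t : ℝ) : ℝ :=
  let T := G α ω₁ s / ω₁
  if T ≤ |t| then exp (-α * (|t| - T)) * (-cos (β * (|t| - T)) + (s - α) / β * sin (β * (|t| - T)))
  else -1 + 1 / ξ + (V0 α ω₁ s T * cos (ω₁ * |t|) - V0 α ω₂ s T * cos (ω₂ * |t|)) / (ω₂ ^ 2 - ω₁ ^ 2)

set_option maxHeartbeats 1000000 in
lemma Wv.final (W : Wv c ξ T z z1 z2 z3 z4) (P : Par c α β) (F : Fr c ξ ω₁ ω₂) :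
    ∃ k ∈ Icc (1:ℤ) 5, ∃ s, 0 ≤ s ∧ H α ω₁ ω₂ s = k * π ∧ z = Zp ξ α β ω₁ ω₂ s := by
  obtain ⟨p1, lt, hadd, hmul⟩ := id F
  have p2 : 0 < ω₂ := p1.trans lt
  have hα := P.α0
  have hβ := P.β0
  have hξ : 0 < ξ := by rw [← hmul]; positivity
  have hc2 : c ^ 2 < 2 := by rw [P.cc]; nlinarith
  have hω1 : ω₁ < 1 := by nlinarith
  have hω1' : ω₁ ^ 2 < 1 := by nlinarith
  have hω2c : ω₂ ≤ c := by
    have := P.c0
    by_contra h; push Not at h; nlinarith
  have hT := W.T0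
  have hs := W.s0
  have hπ := Real.pi_pos
  obtain ⟨hq, hv⟩ := W.quarter P F hω1
  obtain ⟨hA, hB, hV⟩ := W.matching P p1 p2 hadd hmul
  obtain ⟨hA', hB', hV'⟩ := W.matching P p2 p1 (by rw [← hadd]; ring) (by rw [← hmul]; ring)
  have hang := angle hα p1 hA hB
  have hang' := angle hα p2 hA' hB'
  set s : ℝ := z1 T with hsdef
  set X : ℝ := -(z2 0 + ω₂ ^ 2 * (z 0 + 1 - 1 / ξ)) with hX
  have hX0 : 0 < X := by rw [hX]; linarith
  have hpos : 0 < ω₁ * T := by positivity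
  -- T = G/ω₁
  have hG : ω₁ * T = G α ω₁ s := by
    have b1 : -(π / 2) < G α ω₁ s := by
      unfold G
      have a1 : 0 ≤ arctan (ω₁ * s) := Real.arctan_nonneg.mpr (by positivity)
      have a2 : 0 < arctan ((1 - ω₁ ^ 2) / (2 * α * ω₁)) :=
        Real.arctan_pos.mpr (div_pos (by linarith) (by positivity))
      linarith
    have b2 : G α ω₁ s < π / 2 := by
      unfold G
      have a1 := Real.arctan_lt_pi_div_two (ω₁ * s)
      have a2 := Real.arctan_lt_pi_div_two ((1 - ω₁ ^ 2) / (2 * α * ω₁))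
      linarith
    have := (Real.sin_eq_zero_iff_of_lt_of_lt (x := ω₁ * T - G α ω₁ s) (by linarith) (by linarith)).mp hang
    linarith
  -- T < s - 2α
  have hTs : T < s - 2 * α := by
    have ht := Real.lt_tan hpos hq
    have hc : 0 < cos (ω₁ * T) := Real.cos_pos_of_mem_Ioo ⟨by linarith, hq⟩
    rw [Real.tan_eq_sin_div_cos, lt_div_iff₀ hc] at ht
    have h1 : ω₁ * X * (ω₁ * T * cos (ω₁ * T)) < ω₁ * X * sin (ω₁ * T) :=
      mul_lt_mul_of_pos_left ht (by positivity)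
    rw [hB] at h1
    have h2 : ω₁ * X * (ω₁ * T * cos (ω₁ * T)) = ω₁ ^ 2 * T * (X * cos (ω₁ * T)) := by ring
    rw [h2, hA] at h1
    have h3 : ω₁ ^ 2 * T * (1 / ω₁ ^ 2 - 1 + 2 * α * s) = T * (1 - ω₁ ^ 2 + 2 * α * ω₁ ^ 2 * s) := by
      field_simp
    rw [h3] at h1
    have h4 : 0 < 1 - ω₁ ^ 2 + 2 * α * ω₁ ^ 2 * s := by
      have : 0 ≤ 2 * α * ω₁ ^ 2 * s := by positivity
      linarith
    -- positivity of s - 2α
    have h5 : 0 < (1 - ω₁ ^ 2) * s - 2 * α := lt_trans (by positivity) h1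
    have h6 : 2 * α < s := by nlinarith
    by_contra hcon
    push Not at hcon
    have h7 : (s - 2 * α) * (1 - ω₁ ^ 2 + 2 * α * ω₁ ^ 2 * s) ≤ T * (1 - ω₁ ^ 2 + 2 * α * ω₁ ^ 2 * s) :=
      mul_le_mul_of_nonneg_right hcon h4.le
    have h8 : 0 ≤ 2 * α * ω₁ ^ 2 + 2 * α * ω₁ ^ 2 * s * (s - 2 * α) := by
      have : 0 ≤ s - 2 * α := by linarith
      positivity
    have h9 : (s - 2 * α) * (1 - ω₁ ^ 2 + 2 * α * ω₁ ^ 2 * s) =
        ((1 - ω₁ ^ 2) * s - 2 * α) + (2 * α * ω₁ ^ 2 + 2 * α * ω₁ ^ 2 * s * (s - 2 * α)) := by ring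
    linarith
  have hTG : T = G α ω₁ s / ω₁ := by rw [← hG]; field_simp
  have hHT : H α ω₁ ω₂ s = ω₂ * T - G α ω₂ s := by
    rw [H, ← hG]; field_simp
  have hlt := H_lt P p1 lt hω2c hT hTs hG (W.sbound P)
  have hgt := H_pos (s := s) hα p1 lt hω1 (by rw [← hG]; exact hpos)
  rw [← hHT] at hang'
  obtain ⟨k, hk⟩ := Real.sin_eq_zero_iff.mp hang'
  refine ⟨k, ?_, s, hs, hk.symm, ?_⟩
  · rw [← hk] at hlt hgt
    have k1 : (0:ℝ) < k := (mul_pos_iff_of_pos_right hπ).mp hgt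
    have k2 : (k:ℝ) < 6 := lt_of_mul_lt_mul_right hlt hπ.le
    have k1' : 0 < k := by exact_mod_cast k1
    have k2' : k < 6 := by exact_mod_cast k2
    exact ⟨by omega, by omega⟩
  · funext t
    have habs : z t = z |t| := by
      rcases abs_cases t with ⟨h, -⟩ | ⟨h, -⟩
      · rw [h]
      · rw [h, W.even]
    rw [habs]
    simp only [Zp]
    rw [← hTG]
    split_ifs with h
    · rw [W.outform P h]
    · push Not at h
      obtain ⟨i1, -⟩ := W.inform P p1 p2 hadd hmul (abs_nonneg t) h.le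
      obtain ⟨i2, -⟩ := W.inform P p2 p1 (by rw [← hadd]; ring) (by rw [← hmul]; ring) (abs_nonneg t) h.le
      rw [hV] at i1
      rw [hV'] at i2
      have hne : ω₂ ^ 2 - ω₁ ^ 2 ≠ 0 :=
        (sub_pos.mpr (pow_lt_pow_left₀ lt p1.le two_ne_zero)).ne'
      rw [← i1, ← i2]
      field_simp
      ring

end

end Pool.Agent.R208.Beam
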