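import Mathlib

/-!
Energy identity and decay for bounded solutions of the degenerate linear equation
`(A d)' = g` in a Hilbert space, `A` bounded and self-adjoint.
-/

set_option autoImplicit false
set_option linter.unusedSectionVars false

open MeasureTheory Set Filter
open scoped Topology

namespace Pool.Agent.R208.Energy

section basic

variable {E : Type*} [NormedAddCommGroup E]

lemma li {f : ℝ → E} {M : ℝ} (hm : AEStronglyMeasurable f volume) (hb : ∀ x, ‖f x‖ ≤ M) :
    LocallyIntegrable f volume := by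
  refine (locallyIntegrable_const M).mono hm (ae_of_all _ fun x => ?_)
  exact (hb x).trans (le_abs_self M)

lemma ii {f : ℝ → E} {M : ℝ} (hm : AEStronglyMeasurable f volume) (hb : ∀ x, ‖f x‖ ≤ M)
    (a b : ℝ) : IntervalIntegrable f volume a b :=
  intervalIntegrable_iff.mpr
    (((li hm hb).integrableOn_isCompact isCompact_uIcc).mono_set uIoc_subset_uIcc)

lemma shift_meas {f : ℝ → E} (hm : AEStronglyMeasurable f volume) (h : ℝ) :
    AEStronglyMeasurable (fun x => f (x + h)) volume :=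
  hm.comp_quasiMeasurePreserving (measurePreserving_add_right volume h).quasiMeasurePreserving

lemma shift_ae {p : ℝ → Prop} (hp : ∀ᵐ x, p x) (h : ℝ) : ∀ᵐ x, p (x + h) :=
  (measurePreserving_add_right volume h).quasiMeasurePreserving.ae hp

end basic

variable (𝕜 : Type*) [RCLike 𝕜] {H : Type*} [NormedAddCommGroup H] [InnerProductSpace 𝕜 H]

/-- real part of the inner product -/
noncomputable def ip (x y : H) : ℝ := RCLike.re (inner 𝕜 x y)

lemma ip_le (x y : H) : |ip 𝕜 x y| ≤ ‖x‖ * ‖y‖ :=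
  (RCLike.abs_re_le_norm _).trans (norm_inner_le_norm x y)

lemma ip_add_left (x y z : H) : ip 𝕜 (x + y) z = ip 𝕜 x z + ip 𝕜 y z := by
  simp [ip, inner_add_left]

lemma ip_add_right (x y z : H) : ip 𝕜 x (y + z) = ip 𝕜 x y + ip 𝕜 x z := by
  simp [ip, inner_add_right]

lemma ip_sub_left (x y z : H) : ip 𝕜 (x - y) z = ip 𝕜 x z - ip 𝕜 y z := by
  simp [ip, inner_sub_left]

lemma ip_sub_right (x y z : H) : ip 𝕜 x (y - z) = ip 𝕜 x y - ip 𝕜 x z := by
  simp [ip, inner_sub_right]

lemma ip_comm (x y : H) : ip 𝕜 x y = ip 𝕜 y x := inner_re_symm x y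

lemma ip_self (x : H) : ip 𝕜 x x = ‖x‖ ^ 2 := by
  rw [ip, inner_self_eq_norm_sq]

lemma ip_smul_left [NormedSpace ℝ H] (c : ℝ) (x y : H) : ip 𝕜 (c • x) y = c * ip 𝕜 x y := by
  have : c • x = (c : 𝕜) • x := by
    rw [← @smul_one_smul H ℝ 𝕜 _ _ _ _ _ c x, RCLike.real_smul_eq_coe_mul, mul_one]
  rw [ip, this, inner_smul_left, RCLike.conj_ofReal, RCLike.re_ofReal_mul, ip]

lemma ip_meas {f g : ℝ → H} (hf : AEStronglyMeasurable f volume)
    (hg : AEStronglyMeasurable g volume) :
    AEStronglyMeasurable (fun x => ip 𝕜 (f x) (g x)) volume :=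
  RCLike.continuous_re.comp_aestronglyMeasurable (hf.inner hg)

lemma ip_tendsto {α : Type*} {l : Filter α} {f : α → H} {x : H} (hf : Tendsto f l (𝓝 x)) (y : H) :
    Tendsto (fun a => ip 𝕜 (f a) y) l (𝓝 (ip 𝕜 x y)) :=
  (RCLike.continuous_re.tendsto _).comp (hf.inner tendsto_const_nhds)

variable [NormedSpace ℝ H] [CompleteSpace H]

/-- the energy density `⟪A d, d⟫` -/
noncomputable def en (A : H →L[𝕜] H) (d : ℝ → H) (t : ℝ) : ℝ := ip 𝕜 (A (d t)) (d t)

/-- Lebesgue points of the energy -/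
def Good (A : H →L[𝕜] H) (d : ℝ → H) (t : ℝ) : Prop :=
  HasDerivAt (fun x => ∫ r in (0:ℝ)..x, en 𝕜 A d r) (en 𝕜 A d t) t

variable {𝕜}
variable {A : H →L[𝕜] H} {d g Y : ℝ → H} {M G : ℝ}

lemma en_meas (hd : AEStronglyMeasurable d volume) :
    AEStronglyMeasurable (en 𝕜 A d) volume :=
  ip_meas 𝕜 (A.continuous.comp_aestronglyMeasurable hd) hd

lemma en_le (t : ℝ) : |en 𝕜 A d t| ≤ ‖A‖ * ‖d t‖ ^ 2 := by
  refine (ip_le 𝕜 _ _).trans ?_
  have := A.le_opNorm (d t)
  nlinarith [norm_nonneg (d t)]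

lemma en_bound (hb : ∀ x, ‖d x‖ ≤ M) (t : ℝ) : ‖en 𝕜 A d t‖ ≤ ‖A‖ * M ^ 2 := by
  rw [Real.norm_eq_abs]
  refine (en_le t).trans ?_
  have h1 := hb t
  have h2 := norm_nonneg (d t)
  have : ‖d t‖ ^ 2 ≤ M ^ 2 := by nlinarith
  exact mul_le_mul_of_nonneg_left this (norm_nonneg A)

lemma good_ae (hd : AEStronglyMeasurable d volume) (hb : ∀ x, ‖d x‖ ≤ M) :
    ∀ᵐ t, Good 𝕜 A d t := by
  filter_upwards [LocallyIntegrable.ae_hasDerivAt_integral (li (en_meas (A := A) hd)
    (en_bound hb))] with t ht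
  exact ht 0

/-- the sequence of steps -/
lemma step_tendsto : Tendsto (fun n : ℕ => (1 : ℝ) / ((n : ℝ) + 1)) atTop (𝓝[>] 0) := by
  refine tendsto_nhdsWithin_iff.2 ⟨tendsto_one_div_add_atTop_nhds_zero_nat, ?_⟩
  filter_upwards with n
  show (0 : ℝ) < 1 / ((n : ℝ) + 1)
  positivity

lemma slope_right {E : Type*} [NormedAddCommGroup E] [NormedSpace ℝ E] {F : ℝ → E} {F' : E}
    {t : ℝ} (h : HasDerivAt F F' t) {e : ℕ → ℝ} (he : Tendsto e atTop (𝓝[>] 0)) :
    Tendsto (fun n => (e n)⁻¹ • (F (t + e n) - F t)) atTop (𝓝 F') := by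
  have h1 := hasDerivAt_iff_tendsto_slope_zero.1 h
  have h2 : Tendsto e atTop (𝓝[≠] 0) := by
    refine he.mono_right (nhdsWithin_mono _ ?_)
    intro x hx
    exact ne_of_gt hx
  exact h1.comp h2

lemma slope_left {E : Type*} [NormedAddCommGroup E] [NormedSpace ℝ E] {F : ℝ → E} {F' : E}
    {t : ℝ} (h : HasDerivAt F F' t) {e : ℕ → ℝ} (he : Tendsto e atTop (𝓝[>] 0)) :
    Tendsto (fun n => (e n)⁻¹ • (F t - F (t - e n))) atTop (𝓝 F') := by
  have h1 := hasDerivAt_iff_tendsto_slope_zero.1 h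
  have h2 : Tendsto (fun n => - e n) atTop (𝓝[≠] 0) := by
    refine tendsto_nhdsWithin_iff.2 ⟨?_, ?_⟩
    · have := (tendsto_nhdsWithin_iff.1 he).1.neg
      simpa using this
    · filter_upwards [(tendsto_nhdsWithin_iff.1 he).2] with n hn
      have : 0 < e n := hn
      exact neg_ne_zero.2 this.ne'
  refine (h1.comp h2).congr fun n => ?_
  simp only [Function.comp]
  rw [← sub_eq_add_neg, inv_neg, neg_smul, ← smul_neg, neg_sub]


/-- the quotient term -/
lemma quot_bound {Γ : ℝ → H} (hΓ : ∀ x y, ‖Γ x - Γ y‖ ≤ G * |x - y|) {h x : ℝ} (hh : 0 < h)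
    (hb : ∀ x, ‖d x‖ ≤ M) (z : ℝ) : ‖ip 𝕜 (h⁻¹ • (Γ (z + h) - Γ z)) (d x)‖ ≤ G * M := by
  have h1 : ‖h⁻¹ • (Γ (z + h) - Γ z)‖ ≤ G := by
    rw [norm_smul, norm_inv, Real.norm_eq_abs, abs_of_pos hh, inv_mul_le_iff₀ hh]
    have := hΓ (z + h) z
    rw [add_sub_cancel_left, abs_of_pos hh] at this
    linarith
  rw [Real.norm_eq_abs]
  refine (ip_le 𝕜 _ _).trans ?_
  have h2 := hb x
  have h3 := norm_nonneg (d x)
  have h4 := norm_nonneg (h⁻¹ • (Γ (z + h) - Γ z))
  calc _ ≤ G * ‖d x‖ := mul_le_mul_of_nonneg_right h1 h3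
    _ ≤ G * M := mul_le_mul_of_nonneg_left h2 (h4.trans h1)

/-- **energy identity** -/
theorem energy (hA : IsSelfAdjoint A) (hd : AEStronglyMeasurable d volume)
    (hb : ∀ x, ‖d x‖ ≤ M) (hg : AEStronglyMeasurable g volume) (hgb : ∀ x, ‖g x‖ ≤ G)
    (hY : ∀ s t, 0 ≤ s → s ≤ t → Y t = Y s + ∫ r in s..t, g r)
    (hYd : ∀ᵐ t, 0 < t → Y t = A (d t)) {s t : ℝ} (hs : Good 𝕜 A d s) (ht : Good 𝕜 A d t)
    (hs0 : 0 < s) (hst : s < t) :
    en 𝕜 A d t - en 𝕜 A d s = 2 * ∫ r in s..t, ip 𝕜 (g r) (d r) := by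
  have hM0 : 0 ≤ M := (norm_nonneg _).trans (hb 0)
  have hG0 : 0 ≤ G := (norm_nonneg _).trans (hgb 0)
  set Γ : ℝ → H := fun x => ∫ r in (0:ℝ)..x, g r with hΓ
  have hΓl : ∀ x y, ‖Γ x - Γ y‖ ≤ G * |x - y| := by
    intro x y
    rw [hΓ]
    simp only
    rw [intervalIntegral.integral_interval_sub_left (ii hg hgb _ _) (ii hg hgb _ _)]
    exact intervalIntegral.norm_integral_le_of_norm_le_const fun r _ => hgb r
  have hΓc : Continuous Γ := by
    have : LipschitzWith ⟨G, hG0⟩ Γ := by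
      refine LipschitzWith.of_dist_le_mul fun x y => ?_
      rw [dist_eq_norm, Real.dist_eq]
      exact hΓl x y
    exact this.continuous
  have hYΓ : ∀ x h, 0 ≤ x → 0 ≤ h → Y (x + h) - Y x = Γ (x + h) - Γ x := by
    intro x h hx hh
    rw [hY x (x + h) hx (by linarith), add_sub_cancel_left, hΓ]
    simp only
    rw [intervalIntegral.integral_interval_sub_left (ii hg hgb _ _) (ii hg hgb _ _)]
  set e : ℕ → ℝ := fun n => (1 : ℝ) / ((n : ℝ) + 1) with he
  have het := step_tendsto
  have hepos : ∀ n, 0 < e n := fun n => by rw [he]; positivity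
  have hemeas := en_meas (A := A) hd
  have heb := en_bound (A := A) hb
  -- left hand side
  have hL : Tendsto (fun n => (e n)⁻¹ * ∫ r in s..t, (en 𝕜 A d (r + e n) - en 𝕜 A d r)) atTop
      (𝓝 (en 𝕜 A d t - en 𝕜 A d s)) := by
    have h1 := (slope_right ht het).sub (slope_right hs het)
    refine h1.congr fun n => ?_
    simp only [smul_eq_mul]
    rw [intervalIntegral.integral_sub (ii (shift_meas hemeas _) (fun x => heb _) _ _)
      (ii hemeas heb _ _), intervalIntegral.integral_comp_add_right,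
      intervalIntegral.integral_interval_sub_left (ii hemeas heb _ _) (ii hemeas heb _ _),
      intervalIntegral.integral_interval_sub_left (ii hemeas heb _ _) (ii hemeas heb _ _),
      ← mul_sub]
    congr 1
    have e1 := intervalIntegral.integral_add_adjacent_intervals
      (ii hemeas heb s t) (ii hemeas heb t (t + e n))
    have e2 := intervalIntegral.integral_add_adjacent_intervals
      (ii hemeas heb s (s + e n)) (ii hemeas heb (s + e n) (t + e n))
    linarith
  -- the two quotient terms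
  set P : ℕ → ℝ → ℝ := fun n r => ip 𝕜 ((e n)⁻¹ • (Γ (r + e n) - Γ r)) (d r) with hP
  set Q : ℕ → ℝ → ℝ := fun n r => ip 𝕜 ((e n)⁻¹ • (Γ r - Γ (r - e n))) (d r) with hQ
  have hPb : ∀ n r, ‖P n r‖ ≤ G * M := fun n r => quot_bound hΓl (hepos n) hb r
  have hQb : ∀ n r, ‖Q n r‖ ≤ G * M := by
    intro n r
    have := quot_bound (𝕜 := 𝕜) hΓl (hepos n) hb (x := r) (r - e n)
    rwa [sub_add_cancel] at this
  have hPm : ∀ n, AEStronglyMeasurable (P n) volume := fun n =>
    ip_meas 𝕜 (((hΓc.comp (continuous_id.add continuous_const)).sub hΓc).const_smul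
      _).aestronglyMeasurable hd
  have hQm : ∀ n, AEStronglyMeasurable (Q n) volume := fun n =>
    ip_meas 𝕜 ((hΓc.sub (hΓc.comp (continuous_id.sub continuous_const))).const_smul
      _).aestronglyMeasurable hd
  have hΓd : ∀ᵐ r, HasDerivAt Γ (g r) r := by
    filter_upwards [LocallyIntegrable.ae_hasDerivAt_integral (li hg hgb)] with r hr
    exact hr 0
  have hPl : Tendsto (fun n => ∫ r in s..t, P n r) atTop (𝓝 (∫ r in s..t, ip 𝕜 (g r) (d r))) := by
    refine intervalIntegral.tendsto_integral_filter_of_dominated_convergence (fun _ => G * M)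
      (Eventually.of_forall fun n => (hPm n).restrict)
      (Eventually.of_forall fun n => ae_of_all _ fun r _ => hPb n r)
      intervalIntegrable_const ?_
    filter_upwards [hΓd] with r hr _
    exact ip_tendsto 𝕜 (slope_right hr het) _
  have hQl : Tendsto (fun n => ∫ r in s..t, Q n r) atTop (𝓝 (∫ r in s..t, ip 𝕜 (g r) (d r))) := by
    refine intervalIntegral.tendsto_integral_filter_of_dominated_convergence (fun _ => G * M)
      (Eventually.of_forall fun n => (hQm n).restrict)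
      (Eventually.of_forall fun n => ae_of_all _ fun r _ => hQb n r)
      intervalIntegrable_const ?_
    filter_upwards [hΓd] with r hr _
    exact ip_tendsto 𝕜 (slope_left hr het) _
  have herr : ∀ c : ℝ, Tendsto (fun n => ∫ r in c..(c + e n), Q n r) atTop (𝓝 0) := by
    intro c
    have h0 : Tendsto (fun n => G * M * e n) atTop (𝓝 0) := by
      have := (tendsto_nhdsWithin_iff.1 het).1.const_mul (G * M)
      rwa [mul_zero] at this
    refine squeeze_zero_norm (fun n => ?_) h0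
    refine (intervalIntegral.norm_integral_le_of_norm_le_const fun r _ => hQb n r).trans ?_
    rw [add_sub_cancel_left, abs_of_pos (hepos n)]
  have hR : Tendsto (fun n => (e n)⁻¹ * ∫ r in s..t, (en 𝕜 A d (r + e n) - en 𝕜 A d r)) atTop
      (𝓝 ((∫ r in s..t, ip 𝕜 (g r) (d r)) + (∫ r in s..t, ip 𝕜 (g r) (d r)))) := by
    have h1 := (hPl.add hQl).add ((herr t).sub (herr s))
    rw [sub_zero, add_zero] at h1
    refine h1.congr fun n => ?_
    have e1 : (e n)⁻¹ * ∫ r in s..t, (en 𝕜 A d (r + e n) - en 𝕜 A d r)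
        = ∫ r in s..t, (P n r + Q n (r + e n)) := by
      rw [← intervalIntegral.integral_const_mul]
      refine intervalIntegral.integral_congr_ae ?_
      filter_upwards [hYd, shift_ae hYd (e n)] with r h2 h3 hr
      rw [uIoc_of_le hst.le] at hr
      have hr0 : 0 < r := hs0.trans hr.1
      have h2 := h2 hr0
      have h3 := h3 (by have := hepos n; linarith)
      have h4 := hYΓ r (e n) hr0.le (hepos n).le
      rw [hP, hQ]
      simp only
      rw [add_sub_cancel_right, ip_smul_left, ip_smul_left, ← mul_add]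
      congr 1
      rw [← h4, h2, h3]
      unfold en
      have h5 : ip 𝕜 (A (d (r + e n))) (d r) = ip 𝕜 (A (d r)) (d (r + e n)) := by
        have := (ContinuousLinearMap.isSelfAdjoint_iff_isSymmetric.1 hA) (d (r + e n)) (d r)
        simp only [ContinuousLinearMap.coe_coe] at this
        unfold ip
        rw [this]
        exact inner_re_symm _ _
      rw [ip_sub_left, ip_sub_left, h5]
      ring
    rw [e1, intervalIntegral.integral_add (ii (hPm n) (hPb n) _ _)
      (ii (shift_meas (hQm n) _) (fun x => hQb n _) _ _),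
      intervalIntegral.integral_comp_add_right]
    have e2 := intervalIntegral.integral_add_adjacent_intervals
      (ii (hQm n) (hQb n) s t) (ii (hQm n) (hQb n) t (t + e n))
    have e3 := intervalIntegral.integral_add_adjacent_intervals
      (ii (hQm n) (hQb n) s (s + e n)) (ii (hQm n) (hQb n) (s + e n) (t + e n))
    linarith
  rw [tendsto_nhds_unique hL hR]
  ring


/-- Cauchy-Schwarz on an interval -/
lemma cs {E : Type*} [NormedAddCommGroup E] {f : ℝ → E} {M : ℝ}
    (hm : AEStronglyMeasurable f volume) (hb : ∀ x, ‖f x‖ ≤ M) {a b : ℝ} (hab : a < b) :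
    (∫ r in a..b, ‖f r‖) ^ 2 ≤ (b - a) * ∫ r in a..b, ‖f r‖ ^ 2 := by
  have hM0 : 0 ≤ M := (norm_nonneg _).trans (hb 0)
  set I := ∫ r in a..b, ‖f r‖ with hI
  have i1 : IntervalIntegrable (fun r => ‖f r‖) volume a b := (ii hm hb a b).norm
  have i2 : IntervalIntegrable (fun r => ‖f r‖ ^ 2) volume a b := by
    refine ii (f := fun r => ‖f r‖ ^ 2) (M := M ^ 2) (hm.norm.pow 2) (fun x => ?_) a b
    rw [norm_pow, norm_norm]
    exact pow_le_pow_left₀ (norm_nonneg _) (hb x) 2
  have h1 : 0 ≤ ∫ r in a..b, ((b - a) * ‖f r‖ - I) ^ 2 :=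
    intervalIntegral.integral_nonneg hab.le fun r _ => sq_nonneg _
  have h2 : ∫ r in a..b, ((b - a) * ‖f r‖ - I) ^ 2
      = (b - a) ^ 2 * (∫ r in a..b, ‖f r‖ ^ 2) - 2 * (b - a) * I * I + (b - a) * I ^ 2 := by
    have : ∀ r, ((b - a) * ‖f r‖ - I) ^ 2
        = ((b - a) ^ 2 * ‖f r‖ ^ 2 - 2 * (b - a) * I * ‖f r‖) + I ^ 2 := fun r => by ring
    simp_rw [this]
    rw [intervalIntegral.integral_add ((i2.const_mul _).sub (i1.const_mul _))
      intervalIntegrable_const, intervalIntegral.integral_sub (i2.const_mul _) (i1.const_mul _),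
      intervalIntegral.integral_const_mul, intervalIntegral.integral_const_mul,
      intervalIntegral.integral_const, ← hI, smul_eq_mul]
  rw [h2] at h1
  have h3 : 0 < b - a := sub_pos.2 hab
  have h4 : 0 ≤ (b - a) * ((b - a) * (∫ r in a..b, ‖f r‖ ^ 2) - I ^ 2) := by nlinarith
  have h5 := nonneg_of_mul_nonneg_right h4 h3
  linarith

variable (d) in
/-- squared norm -/
noncomputable def F (t : ℝ) : ℝ := ‖d t‖ ^ 2

lemma F_meas (hd : AEStronglyMeasurable d volume) : AEStronglyMeasurable (F d) volume :=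
  hd.norm.pow 2

lemma F_bound (hb : ∀ x, ‖d x‖ ≤ M) (t : ℝ) : ‖F d t‖ ≤ M ^ 2 := by
  unfold F
  rw [norm_pow, norm_norm]
  exact pow_le_pow_left₀ (norm_nonneg _) (hb t) 2

lemma F_nonneg (t : ℝ) : 0 ≤ F d t := sq_nonneg _

/-- the consequence of a dissipation inequality -/
theorem dissipation (hd : AEStronglyMeasurable d volume) (hb : ∀ x, ‖d x‖ ≤ M) {c : ℝ}
    (hc : 0 < c)
    (hdis : ∀ s t, Good 𝕜 A d s → Good 𝕜 A d t → 0 < s → s < t →
      c * ∫ r in s..t, F d r ≤ en 𝕜 A d s - en 𝕜 A d t) :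
    IntegrableOn (F d) (Ioi 0) ∧
      ∀ᵐ s, 0 < s → c * ∫ r in Ioi s, F d r ≤ en 𝕜 A d s := by
  have hgood := good_ae (A := A) hd hb
  have hFi := fun a b => ii (F_meas hd) (F_bound hb) a b
  -- averaged inequality
  have h1 : ∀ s, Good 𝕜 A d s → 0 < s → ∀ N, s ≤ N →
      c * ∫ r in s..N, F d r ≤ en 𝕜 A d s + ‖A‖ * ∫ r in N..(N + 1), F d r := by
    intro s hs hs0 N hN
    have h2 : ∫ _r in N..(N + 1), (c * ∫ r in s..N, F d r)
        ≤ ∫ r in N..(N + 1), (en 𝕜 A d s + ‖A‖ * F d r) := by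
      refine intervalIntegral.integral_mono_ae_restrict (by linarith) intervalIntegrable_const
        (intervalIntegrable_const.add ((hFi _ _).const_mul _)) ?_
      rw [EventuallyLE, ae_restrict_iff' measurableSet_Icc]
      have hne : ∀ᵐ t : ℝ, t ≠ N := by simp [ae_iff, measure_singleton]
      filter_upwards [hgood, hne] with t ht htN htI
      have ht1 : s < t := lt_of_le_of_lt hN (lt_of_le_of_ne htI.1 (Ne.symm htN))
      have h3 := hdis s t hs ht hs0 ht1
      have h4 : ∫ r in s..N, F d r ≤ ∫ r in s..t, F d r := by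
        rw [← intervalIntegral.integral_add_adjacent_intervals (hFi s N) (hFi N t)]
        have : 0 ≤ ∫ r in N..t, F d r :=
          intervalIntegral.integral_nonneg htI.1 fun r _ => F_nonneg r
        linarith
      have h5 : -en 𝕜 A d t ≤ ‖A‖ * F d t := (neg_le_abs _).trans (en_le t)
      have h6 := mul_le_mul_of_nonneg_left h4 hc.le
      linarith
    rw [intervalIntegral.integral_const, intervalIntegral.integral_add intervalIntegrable_const
      ((hFi _ _).const_mul _), intervalIntegral.integral_const,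
      intervalIntegral.integral_const_mul] at h2
    simpa using h2
  have h2 : ∀ s, Good 𝕜 A d s → 0 < s → IntegrableOn (F d) (Ioi s) := by
    intro s hs hs0
    refine integrableOn_Ioi_of_intervalIntegral_norm_bounded
      ((en 𝕜 A d s + ‖A‖ * M ^ 2) / c) s (fun N : ℝ => (hFi s N).1) tendsto_id ?_
    filter_upwards [eventually_ge_atTop s] with N hN
    have h3 := h1 s hs hs0 N hN
    have h4 : ∫ r in N..(N + 1), F d r ≤ M ^ 2 := by
      have := intervalIntegral.norm_integral_le_of_norm_le_const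
        (a := N) (b := N + 1) (f := F d) (C := M ^ 2) fun r _ => F_bound hb r
      rw [add_sub_cancel_left, abs_one, mul_one] at this
      exact (le_abs_self _).trans this
    have h5 : ∫ r in s..N, ‖F d r‖ = ∫ r in s..N, F d r := by
      refine intervalIntegral.integral_congr fun r _ => ?_
      exact abs_of_nonneg (F_nonneg r)
    rw [h5, le_div_iff₀ hc, mul_comm]
    have := mul_le_mul_of_nonneg_left h4 (norm_nonneg A)
    linarith
  refine ⟨?_, ?_⟩
  · obtain ⟨s, hs, hs0, hs1⟩ : ∃ s, Good 𝕜 A d s ∧ 0 < s ∧ s < 1 := by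
      have h3 : ∀ᵐ s ∂(volume.restrict (Ioo (0:ℝ) 1)), Good 𝕜 A d s := ae_restrict_of_ae hgood
      have h4 : volume.restrict (Ioo (0:ℝ) 1) ≠ 0 := by
        rw [Ne, Measure.restrict_eq_zero]
        simp
      have h5 : ∀ᵐ s ∂(volume.restrict (Ioo (0:ℝ) 1)), s ∈ Ioo (0:ℝ) 1 :=
        ae_restrict_mem measurableSet_Ioo
      have : (ae (volume.restrict (Ioo (0:ℝ) 1))).NeBot := ae_neBot.2 h4
      obtain ⟨s, h6, h7⟩ := (h3.and h5).exists
      exact ⟨s, h6, h7.1, h7.2⟩
    rw [← Ioc_union_Ioi_eq_Ioi hs0.le]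
    exact ((hFi 0 s).1).union (h2 s hs hs0)
  · filter_upwards [hgood] with s hs hs0
    have hint := h2 s hs hs0
    have h3 : Tendsto (fun N => ∫ r in s..N, F d r) atTop (𝓝 (∫ r in Ioi s, F d r)) :=
      intervalIntegral_tendsto_integral_Ioi s hint tendsto_id
    have h4 : Tendsto (fun N => ∫ r in N..(N + 1), F d r) atTop (𝓝 0) := by
      have h5 := (h3.comp (tendsto_atTop_add_const_right atTop (1:ℝ) tendsto_id)).sub h3
      rw [sub_self] at h5
      refine h5.congr fun N => ?_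
      simp only [Function.comp, id]
      rw [intervalIntegral.integral_interval_sub_left (hFi _ _) (hFi _ _)]
    refine le_of_tendsto_of_tendsto (h3.const_mul c)
      ((h4.const_mul ‖A‖).const_add (en 𝕜 A d s)) ?_ |>.trans_eq (by ring)
    filter_upwards [eventually_ge_atTop s] with N hN
    exact h1 s hs hs0 N hN

end Pool.Agent.R208.Energy
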