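import Mathlib
import Pool.Agent.R208.Energy

/-!
Decay of the differences `w(· + h) - w` of a bounded solution.
-/

set_option autoImplicit false
set_option linter.unusedSectionVars false

open MeasureTheory Set Filter
open scoped Topology

namespace Pool.Agent.R208.Energy

variable {H : Type*} [NormedAddCommGroup H] [NormedSpace ℝ H] [CompleteSpace H] {d : ℝ → H}
  {M c a b : ℝ}

/-- tail integral of the squared norm -/
noncomputable def G (d : ℝ → H) (t : ℝ) : ℝ := ∫ r in Ioi t, F d r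

lemma G_nonneg (t : ℝ) : 0 ≤ G d t := integral_nonneg fun r => F_nonneg r

lemma G_anti (hi : IntegrableOn (F d) (Ioi 0)) {s t : ℝ} (hs : 0 ≤ s) (hst : s ≤ t) :
    G d t ≤ G d s :=
  setIntegral_mono_set (hi.mono_set (Ioi_subset_Ioi hs)) (ae_of_all _ fun r => F_nonneg r)
    (Ioi_subset_Ioi hst).eventuallyLE

lemma int_le_G (hi : IntegrableOn (F d) (Ioi 0)) {s t : ℝ} (hs : 0 ≤ s) (hst : s ≤ t) :
    ∫ r in s..t, F d r ≤ G d s := by
  rw [intervalIntegral.integral_of_le hst]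
  exact setIntegral_mono_set (hi.mono_set (Ioi_subset_Ioi hs)) (ae_of_all _ fun r => F_nonneg r)
    Ioc_subset_Ioi_self.eventuallyLE

lemma halving (hd : AEStronglyMeasurable d volume) (hb : ∀ x, ‖d x‖ ≤ M)
    (hi : IntegrableOn (F d) (Ioi 0)) (hc : 0 < c) (ha : 0 ≤ a)
    (h1 : ∀ᵐ s, 0 < s → c * G d s ≤ a * F d s) {t : ℝ} (ht : 0 ≤ t) :
    G d (t + (2 * a + 1) / c) ≤ G d t / 2 := by
  set l := (2 * a + 1) / c with hl
  have hl0 : 0 < l := by positivity
  have hFi := fun a b => ii (F_meas hd) (F_bound hb) a b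
  have h2 : ∫ _r in t..(t + l), c * G d (t + l) ≤ ∫ r in t..(t + l), a * F d r := by
    refine intervalIntegral.integral_mono_ae_restrict (by linarith) intervalIntegrable_const
      ((hFi _ _).const_mul _) ?_
    rw [EventuallyLE, ae_restrict_iff' measurableSet_Icc]
    have hne : ∀ᵐ s : ℝ, s ≠ t := by simp [ae_iff, measure_singleton]
    filter_upwards [h1, hne] with s h3 h4 h5
    have hs0 : 0 < s := lt_of_le_of_lt ht (lt_of_le_of_ne h5.1 (Ne.symm h4))
    have h6 := G_anti hi hs0.le h5.2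
    exact (mul_le_mul_of_nonneg_left h6 hc.le).trans (h3 hs0)
  rw [intervalIntegral.integral_const, intervalIntegral.integral_const_mul, smul_eq_mul,
    add_sub_cancel_left] at h2
  have h3 := int_le_G hi ht (by linarith : t ≤ t + l)
  have h4 : l * c = 2 * a + 1 := by rw [hl]; field_simp
  have h5 := G_nonneg (d := d) t
  have h6 := mul_le_mul_of_nonneg_left h3 ha
  have h7 : (2 * a + 1) * G d (t + l) ≤ a * G d t := by
    calc (2 * a + 1) * G d (t + l) = l * (c * G d (t + l)) := by rw [← h4]; ring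
      _ ≤ _ := h2.trans h6
  have h8 : (2 * a + 1) * G d (t + l) ≤ (2 * a + 1) * (G d t / 2) := by nlinarith
  exact le_of_mul_le_mul_left h8 (by positivity)

lemma sq_gain (hd : AEStronglyMeasurable d volume) (hb : ∀ x, ‖d x‖ ≤ M)
    (hi : IntegrableOn (F d) (Ioi 0)) (hc : 0 < c) (hb0 : 0 ≤ b)
    (h1 : ∀ᵐ s, 0 < s → c * G d s ≤ b * ‖d s‖) :
    c ^ 3 * G d 2 ^ 2 ≤ b ^ 3 * M := by
  have hFi := fun a b => ii (F_meas hd) (F_bound hb) a b
  have hM0 : 0 ≤ M := (norm_nonneg _).trans (hb 0)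
  -- value at `1`
  have h2 : c * G d 1 ≤ b * M := by
    obtain ⟨s, hs, hs0, hs1⟩ : ∃ s, (0 < s → c * G d s ≤ b * ‖d s‖) ∧ 0 < s ∧ s < 1 := by
      have h3 : ∀ᵐ s ∂(volume.restrict (Ioo (0:ℝ) 1)), (0 < s → c * G d s ≤ b * ‖d s‖) :=
        ae_restrict_of_ae h1
      have h4 : volume.restrict (Ioo (0:ℝ) 1) ≠ 0 := by
        rw [Ne, Measure.restrict_eq_zero]
        simp
      have h5 : ∀ᵐ s ∂(volume.restrict (Ioo (0:ℝ) 1)), s ∈ Ioo (0:ℝ) 1 :=
        ae_restrict_mem measurableSet_Ioo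
      have : (ae (volume.restrict (Ioo (0:ℝ) 1))).NeBot := ae_neBot.2 h4
      obtain ⟨s, h6, h7⟩ := (h3.and h5).exists
      exact ⟨s, h6, h7.1, h7.2⟩
    calc c * G d 1 ≤ c * G d s := mul_le_mul_of_nonneg_left (G_anti hi hs0.le hs1.le) hc.le
      _ ≤ b * ‖d s‖ := hs hs0
      _ ≤ b * M := mul_le_mul_of_nonneg_left (hb s) hb0
  have h3 : ∫ _r in (1:ℝ)..2, (c * G d 2) ^ 2 ≤ ∫ r in (1:ℝ)..2, b ^ 2 * F d r := by
    refine intervalIntegral.integral_mono_ae_restrict (by norm_num) intervalIntegrable_const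
      ((hFi _ _).const_mul _) ?_
    rw [EventuallyLE, ae_restrict_iff' measurableSet_Icc]
    filter_upwards [h1] with s h3 h5
    have hs0 : (0:ℝ) < s := by linarith [h5.1]
    have h6 := G_anti hi hs0.le h5.2
    have h7 := (mul_le_mul_of_nonneg_left h6 hc.le).trans (h3 hs0)
    have h8 : 0 ≤ c * G d 2 := mul_nonneg hc.le (G_nonneg _)
    calc (c * G d 2) ^ 2 ≤ (b * ‖d s‖) ^ 2 := pow_le_pow_left₀ h8 h7 2
      _ = b ^ 2 * F d s := by rw [mul_pow, F]
  rw [intervalIntegral.integral_const, intervalIntegral.integral_const_mul, smul_eq_mul] at h3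
  have h4 := int_le_G hi (by norm_num : (0:ℝ) ≤ 1) (by norm_num : (1:ℝ) ≤ 2)
  have h5 := mul_le_mul_of_nonneg_left h4 (sq_nonneg b)
  have h6 : (c * G d 2) ^ 2 ≤ b ^ 2 * G d 1 := by linarith
  calc c ^ 3 * G d 2 ^ 2 = c * (c * G d 2) ^ 2 := by ring
    _ ≤ c * (b ^ 2 * G d 1) := mul_le_mul_of_nonneg_left h6 hc.le
    _ = b ^ 2 * (c * G d 1) := by ring
    _ ≤ b ^ 2 * (b * M) := mul_le_mul_of_nonneg_left h2 (sq_nonneg b)
    _ = b ^ 3 * M := by ring

lemma G_pow (hd : AEStronglyMeasurable d volume) (hb : ∀ x, ‖d x‖ ≤ M)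
    (hi : IntegrableOn (F d) (Ioi 0)) (hc : 0 < c) (ha : 0 ≤ a)
    (h1 : ∀ᵐ s, 0 < s → c * G d s ≤ a * F d s) (k : ℕ) :
    G d (2 + k * ((2 * a + 1) / c)) ≤ G d 2 / 2 ^ k := by
  induction k with
  | zero => simp
  | succ k ih =>
    have hl0 : 0 < (2 * a + 1) / c := by positivity
    have h2 := halving hd hb hi hc ha h1 (t := 2 + k * ((2 * a + 1) / c)) (by positivity)
    have e : 2 + ((k + 1 : ℕ) : ℝ) * ((2 * a + 1) / c)
        = 2 + k * ((2 * a + 1) / c) + (2 * a + 1) / c := by push_cast; ring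
    rw [e, pow_succ]
    calc _ ≤ _ := h2
      _ ≤ G d 2 / 2 ^ k / 2 := by linarith
      _ = _ := by rw [div_div]

/-- **pointwise decay from decay of differences**: the abstract statement -/
theorem limit_of_differences {w : ℝ → H} {ε K l : ℝ} (hw : AEStronglyMeasurable w volume)
    (hb : ∀ x, ‖w x‖ ≤ ε) (hK : 0 ≤ K) (hl : 0 < l)
    (hi : ∀ h, 0 < h → IntegrableOn (F fun r => w (r + h) - w r) (Ioi 0))
    (hG : ∀ h, 0 < h → h ≤ 1 → ∀ k : ℕ,
      G (fun r => w (r + h) - w r) (2 + k * l) ^ 2 ≤ K * (1 / 4) ^ k * h ^ 3) :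
    ∃ v : H, ∃ C β : ℝ, 0 < C ∧ 0 < β ∧ ∀ᵐ t, 0 < t → ‖w t - v‖ ≤ C * Real.exp (-β * t) := by
  have hε0 : 0 ≤ ε := (norm_nonneg _).trans (hb 0)
  have hwi := fun a b => ii hw hb a b
  -- `q = 2^(-1/4)`
  obtain ⟨q, hq0, hq1, hq4⟩ : ∃ q : ℝ, 0 < q ∧ q < 1 ∧ q ^ 4 = 1 / 2 := by
    refine ⟨(1 / 2 : ℝ) ^ (1 / 4 : ℝ), by positivity,
      Real.rpow_lt_one (by norm_num) (by norm_num) (by norm_num), ?_⟩
    rw [← Real.rpow_natCast, ← Real.rpow_mul (by norm_num)]
    norm_num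
  obtain ⟨K1, hK1, hK14⟩ : ∃ K1 : ℝ, 0 ≤ K1 ∧ K ≤ K1 ^ 4 := by
    refine ⟨K ^ (1 / 4 : ℝ), by positivity, ?_⟩
    rw [← Real.rpow_natCast, ← Real.rpow_mul hK]
    norm_num
  have hdb : ∀ h x, ‖w (x + h) - w x‖ ≤ 2 * ε := by
    intro h x
    refine (norm_sub_le _ _).trans ?_
    have := hb (x + h)
    have := hb x
    linarith
  have hdm : ∀ h, AEStronglyMeasurable (fun r => w (r + h) - w r) volume := fun h =>
    (shift_meas hw h).sub hw
  -- bound of integrals of differences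
  have key : ∀ (h : ℝ) (k : ℕ) (t δ : ℝ), 0 < h → h ≤ 1 → 2 + k * l ≤ t → 0 < δ →
      (∫ r in t..(t + δ), ‖w (r + h) - w r‖) ^ 4 ≤ δ ^ 2 * (K * (1 / 4) ^ k * h ^ 3) := by
    intro h k t δ hh hh1 hkt hδ
    have ht0 : 0 ≤ t := by
      have : 0 ≤ (k : ℝ) * l := by positivity
      linarith
    have h1 := cs (hdm h) (hdb h) (by linarith : t < t + δ)
    rw [add_sub_cancel_left] at h1
    have h2 : ∫ r in t..(t + δ), ‖w (r + h) - w r‖ ^ 2 ≤ G (fun r => w (r + h) - w r) t :=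
      int_le_G (d := fun r => w (r + h) - w r) (hi h hh) ht0 (by linarith)
    have h3 : G (fun r => w (r + h) - w r) t ≤ G (fun r => w (r + h) - w r) (2 + k * l) :=
      G_anti (hi h hh) (by positivity) hkt
    have h4 : (∫ r in t..(t + δ), ‖w (r + h) - w r‖) ^ 2
        ≤ δ * G (fun r => w (r + h) - w r) (2 + k * l) :=
      h1.trans (mul_le_mul_of_nonneg_left (h2.trans h3) hδ.le)
    calc (∫ r in t..(t + δ), ‖w (r + h) - w r‖) ^ 4
        = ((∫ r in t..(t + δ), ‖w (r + h) - w r‖) ^ 2) ^ 2 := by ring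
      _ ≤ (δ * G (fun r => w (r + h) - w r) (2 + k * l)) ^ 2 :=
          pow_le_pow_left₀ (sq_nonneg _) h4 2
      _ = δ ^ 2 * G (fun r => w (r + h) - w r) (2 + k * l) ^ 2 := by ring
      _ ≤ _ := mul_le_mul_of_nonneg_left (hG h hh hh1 k) (sq_nonneg _)
  have hpow4 : ∀ x y : ℝ, 0 ≤ y → x ^ 4 ≤ y ^ 4 → x ≤ y := by
    intro x y hy h
    by_contra hlt
    push Not at hlt
    have : y ^ 4 < x ^ 4 := pow_lt_pow_left₀ hlt hy (by norm_num)
    linarith
  have hq2k : ∀ k : ℕ, ((1:ℝ) / 4) ^ k = (q ^ (2 * k)) ^ 4 := by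
    intro k
    rw [← pow_mul, show 2 * k * 4 = 4 * (2 * k) by ring, pow_mul, hq4, pow_mul]
    norm_num
  -- averages over `(t, t + h)`
  set m : ℕ → ℝ → H := fun j t => (2:ℝ) ^ j • ∫ r in t..(t + (1 / 2) ^ j), w r with hm
  have hmd : ∀ (k : ℕ) (t : ℝ), 2 + k * l ≤ t → ∀ j,
      dist (m j t) (m (j + 1) t) ≤ K1 * q ^ (2 * k) * q ^ j := by
    intro k t hkt j
    set h : ℝ := (1 / 2) ^ (j + 1) with hh
    have hh0 : 0 < h := by positivity
    have hh1 : h ≤ 1 := pow_le_one₀ (by norm_num) (by norm_num)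
    have e2h : (1 / 2 : ℝ) ^ j = h + h := by rw [hh, pow_succ]; ring
    have e1 : m j t - m (j + 1) t = (2:ℝ) ^ j • ∫ r in t..(t + h), (w (r + h) - w r) := by
      rw [hm]
      simp only
      rw [pow_succ, ← hh, e2h, ← add_assoc,
        ← intervalIntegral.integral_add_adjacent_intervals (hwi t (t + h)) (hwi (t + h) _),
        intervalIntegral.integral_sub (ii (shift_meas hw h) (fun x => hb _) _ _) (hwi _ _),
        intervalIntegral.integral_comp_add_right, mul_smul, ← smul_sub, two_smul]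
      congr 1
      abel
    rw [dist_eq_norm, e1, norm_smul, norm_pow, Real.norm_ofNat]
    have h1 : ‖∫ r in t..(t + h), (w (r + h) - w r)‖ ≤ ∫ r in t..(t + h), ‖w (r + h) - w r‖ :=
      intervalIntegral.norm_integral_le_integral_norm (by linarith)
    refine (mul_le_mul_of_nonneg_left h1 (by positivity)).trans ?_
    refine hpow4 _ _ (by positivity) ?_
    have h2 := key h k t h hh0 hh1 hkt hh0
    have e3 : ((1:ℝ) / 2) ^ j = (q ^ j) ^ 4 := by
      rw [← hq4, ← pow_mul, ← pow_mul, mul_comm]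
    calc ((2:ℝ) ^ j * ∫ r in t..(t + h), ‖w (r + h) - w r‖) ^ 4
        = ((2:ℝ) ^ j) ^ 4 * (∫ r in t..(t + h), ‖w (r + h) - w r‖) ^ 4 := by rw [mul_pow]
      _ ≤ ((2:ℝ) ^ j) ^ 4 * (h ^ 2 * (K * (1 / 4) ^ k * h ^ 3)) :=
          mul_le_mul_of_nonneg_left h2 (by positivity)
      _ = ((2:ℝ) ^ j * h) ^ 4 * h * (K * (1 / 4) ^ k) := by ring
      _ = (1 / 2) ^ 4 * ((1 / 2) ^ j * (1 / 2)) * (K * (1 / 4) ^ k) := by
          have : (2:ℝ) ^ j * h = 1 / 2 := by
            rw [hh, pow_succ, ← mul_assoc, ← mul_pow]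
            norm_num
          rw [this, hh]
          ring
      _ = (1 / 32) * ((q ^ j) ^ 4 * (K * (q ^ (2 * k)) ^ 4)) := by
          rw [e3, hq2k]
          ring
      _ ≤ (q ^ j) ^ 4 * (K * (q ^ (2 * k)) ^ 4) := by
          have : 0 ≤ (q ^ j) ^ 4 * (K * (q ^ (2 * k)) ^ 4) := by positivity
          linarith
      _ ≤ (q ^ j) ^ 4 * (K1 ^ 4 * (q ^ (2 * k)) ^ 4) := by gcongr
      _ = (K1 * q ^ (2 * k) * q ^ j) ^ 4 := by ring
  -- convergence of the averages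
  have hconv : ∀ᵐ t, Tendsto (fun j => m j t) atTop (𝓝 (w t)) := by
    filter_upwards [LocallyIntegrable.ae_hasDerivAt_integral (li hw hb)] with t ht
    have h1 : Tendsto (fun j : ℕ => (1 / 2 : ℝ) ^ j) atTop (𝓝[>] 0) := by
      refine tendsto_nhdsWithin_iff.2
        ⟨tendsto_pow_atTop_nhds_zero_of_lt_one (by norm_num) (by norm_num), ?_⟩
      filter_upwards with j
      show (0:ℝ) < (1 / 2) ^ j
      positivity
    refine (slope_right (ht 0) h1).congr fun j => ?_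
    rw [intervalIntegral.integral_interval_sub_left (hwi _ _) (hwi _ _), hm]
    simp only
    congr 1
    rw [← inv_pow]
    norm_num
  -- the function `μ`
  have hμ1 : ∀ᵐ t, ∀ k : ℕ, 2 + k * l ≤ t → ‖w t - m 0 t‖ ≤ K1 * q ^ (2 * k) / (1 - q) := by
    filter_upwards [hconv] with t ht k hk
    have h1 := dist_le_of_le_geometric_of_tendsto₀ q (K1 * q ^ (2 * k)) hq1 (hmd k t hk) ht
    rw [dist_comm, dist_eq_norm] at h1
    exact h1
  have hμ2 : ∀ (k : ℕ) (t h : ℝ), 2 + k * l ≤ t → 0 ≤ h → h ≤ 1 →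
      ‖m 0 (t + h) - m 0 t‖ ≤ K1 * q ^ (2 * k) := by
    intro k t h hkt hh0 hh1
    rcases hh0.eq_or_lt with rfl | hh
    · rw [add_zero, sub_self, norm_zero]; positivity
    have e1 : m 0 (t + h) - m 0 t = ∫ r in t..(t + 1), (w (r + h) - w r) := by
      rw [hm]
      simp only [pow_zero, one_smul]
      rw [intervalIntegral.integral_sub (ii (shift_meas hw h) (fun x => hb _) _ _) (hwi _ _),
        intervalIntegral.integral_comp_add_right]
      congr 2
      ring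
    rw [e1]
    refine (intervalIntegral.norm_integral_le_integral_norm (by linarith)).trans ?_
    refine hpow4 _ _ (by positivity) ?_
    refine (key h k t 1 hh hh1 hkt one_pos).trans ?_
    have h3 : h ^ 3 ≤ 1 := pow_le_one₀ hh.le hh1
    calc 1 ^ 2 * (K * (1 / 4) ^ k * h ^ 3) = (K * (1 / 4) ^ k) * h ^ 3 := by ring
      _ ≤ (K * (1 / 4) ^ k) * 1 := by gcongr
      _ = K * (q ^ (2 * k)) ^ 4 := by rw [hq2k]; ring
      _ ≤ K1 ^ 4 * (q ^ (2 * k)) ^ 4 := by gcongr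
      _ = (K1 * q ^ (2 * k)) ^ 4 := by ring
  -- exponential form
  set β : ℝ := -(2 * Real.log q / l) with hβ
  have hlq : Real.log q < 0 := Real.log_neg hq0 hq1
  have hβ0 : 0 < β := by
    rw [hβ, Left.neg_pos_iff]
    exact div_neg_of_neg_of_pos (by linarith) hl
  have hexp : ∀ t : ℝ, 2 ≤ t → ∃ k : ℕ, 2 + k * l ≤ t ∧
      q ^ (2 * k) ≤ Real.exp (β * (2 + l)) * Real.exp (-β * t) := by
    intro t ht
    have h0 : 0 ≤ (t - 2) / l := div_nonneg (by linarith) hl.le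
    refine ⟨⌊(t - 2) / l⌋₊, ?_, ?_⟩
    · have h1 := Nat.floor_le h0
      rw [le_div_iff₀ hl] at h1
      linarith
    · have h1 := Nat.lt_floor_add_one ((t - 2) / l)
      rw [div_lt_iff₀ hl] at h1
      rw [← Real.exp_log (pow_pos hq0 (2 * ⌊(t - 2) / l⌋₊)), ← Real.exp_add, Real.log_pow,
        Real.exp_le_exp]
      have h2 : β * l = -(2 * Real.log q) := by rw [hβ]; field_simp
      push_cast
      set n : ℝ := (⌊(t - 2) / l⌋₊ : ℝ) with hn
      have h3 : β * (t - 2) ≤ β * ((n + 1) * l) := mul_le_mul_of_nonneg_left h1.le hβ0.le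
      have h4 : β * ((n + 1) * l) = (n + 1) * (-(2 * Real.log q)) := by rw [← h2]; ring
      nlinarith
  set C0 : ℝ := Real.exp (β * (2 + l)) with hC0
  have hC00 : 0 < C0 := Real.exp_pos _
  have hμ2' : ∀ t h : ℝ, 2 ≤ t → 0 ≤ h → h ≤ 1 →
      ‖m 0 (t + h) - m 0 t‖ ≤ K1 * C0 * Real.exp (-β * t) := by
    intro t h ht hh hh1
    obtain ⟨k, hk1, hk2⟩ := hexp t ht
    refine (hμ2 k t h hk1 hh hh1).trans ?_
    rw [mul_assoc]
    exact mul_le_mul_of_nonneg_left hk2 hK1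
  -- the limit
  set ρ : ℝ := Real.exp (-β) with hρ
  have hρ0 : 0 < ρ := Real.exp_pos _
  have hρ1 : ρ < 1 := by rw [hρ, Real.exp_lt_one_iff]; linarith
  have hxd : ∀ n : ℕ, dist (m 0 (n + 2)) (m 0 ((n + 1 : ℕ) + 2)) ≤ K1 * C0 * ρ ^ n := by
    intro n
    have h1 := hμ2' (n + 2) 1 (by linarith [n.cast_nonneg (α := ℝ)]) zero_le_one le_rfl
    rw [dist_comm, dist_eq_norm]
    have e1 : ((n + 1 : ℕ) : ℝ) + 2 = (n + 2 : ℝ) + 1 := by push_cast; ring
    rw [e1]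
    refine h1.trans ?_
    refine mul_le_mul_of_nonneg_left ?_ (by positivity)
    rw [hρ, ← Real.exp_nat_mul, Real.exp_le_exp]
    nlinarith [n.cast_nonneg (α := ℝ)]
  obtain ⟨v, hv⟩ := cauchySeq_tendsto_of_complete
    (cauchySeq_of_le_geometric ρ (K1 * C0) hρ1 (f := fun n : ℕ => m 0 (n + 2)) hxd)
  have hxv : ∀ n : ℕ, ‖m 0 (n + 2) - v‖ ≤ K1 * C0 * ρ ^ n / (1 - ρ) := by
    intro n
    rw [← dist_eq_norm]
    exact dist_le_of_le_geometric_of_tendsto ρ (K1 * C0) hρ1 hxd hv n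
  have h1ρ : 0 < 1 - ρ := sub_pos.2 hρ1
  have h1q : 0 < 1 - q := sub_pos.2 hq1
  have hμv : ∀ t : ℝ, 2 ≤ t →
      ‖m 0 t - v‖ ≤ (K1 * C0 + K1 * C0 / (1 - ρ)) * Real.exp (3 * β) * Real.exp (-β * t) := by
    intro t ht
    obtain ⟨n, hn⟩ : ∃ n : ℕ, ⌊t⌋₊ = n + 2 := by
      have : 2 ≤ ⌊t⌋₊ := Nat.le_floor (by exact_mod_cast ht)
      exact ⟨⌊t⌋₊ - 2, by omega⟩
    have h1 : (n : ℝ) + 2 ≤ t := by
      have := Nat.floor_le (by linarith : (0:ℝ) ≤ t)
      rw [hn] at this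
      push_cast at this
      exact this
    have h2 : t < (n : ℝ) + 3 := by
      have := Nat.lt_floor_add_one t
      rw [hn] at this
      push_cast at this
      linarith
    have h3 := hμ2' (n + 2) (t - (n + 2)) (by linarith [n.cast_nonneg (α := ℝ)])
      (by linarith) (by linarith)
    rw [add_sub_cancel] at h3
    have h4 := hxv n
    have h5 : ρ ^ n ≤ Real.exp (3 * β) * Real.exp (-β * t) := by
      rw [hρ, ← Real.exp_nat_mul, ← Real.exp_add, Real.exp_le_exp]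
      nlinarith
    have h6 : Real.exp (-β * (n + 2)) ≤ Real.exp (3 * β) * Real.exp (-β * t) := by
      rw [← Real.exp_add, Real.exp_le_exp]
      nlinarith
    have h7 : 0 ≤ K1 * C0 := by positivity
    calc ‖m 0 t - v‖ = ‖(m 0 t - m 0 (n + 2)) + (m 0 (n + 2) - v)‖ := by
          rw [sub_add_sub_cancel]
      _ ≤ ‖m 0 t - m 0 (n + 2)‖ + ‖m 0 (n + 2) - v‖ := norm_add_le _ _
      _ ≤ K1 * C0 * Real.exp (-β * (n + 2)) + K1 * C0 * ρ ^ n / (1 - ρ) := add_le_add h3 h4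
      _ ≤ K1 * C0 * (Real.exp (3 * β) * Real.exp (-β * t))
          + K1 * C0 * (Real.exp (3 * β) * Real.exp (-β * t)) / (1 - ρ) := by gcongr
      _ = _ := by ring
  -- conclusion
  set C1 : ℝ := K1 * C0 / (1 - q) + (K1 * C0 + K1 * C0 / (1 - ρ)) * Real.exp (3 * β) with hC1
  have hC10 : 0 ≤ C1 := by positivity
  set C2 : ℝ := (ε + ‖v‖) * Real.exp (2 * β) with hC2
  have hC20 : 0 ≤ C2 := by positivity
  refine ⟨v, C1 + C2 + 1, β, by positivity, hβ0, ?_⟩
  filter_upwards [hμ1] with t ht ht0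
  have hE : 0 < Real.exp (-β * t) := Real.exp_pos _
  rcases le_or_gt 2 t with h2t | h2t
  · obtain ⟨k, hk1, hk2⟩ := hexp t h2t
    have h1 := ht k hk1
    have h2 := hμv t h2t
    calc ‖w t - v‖ = ‖(w t - m 0 t) + (m 0 t - v)‖ := by rw [sub_add_sub_cancel]
      _ ≤ ‖w t - m 0 t‖ + ‖m 0 t - v‖ := norm_add_le _ _
      _ ≤ K1 * q ^ (2 * k) / (1 - q)
          + (K1 * C0 + K1 * C0 / (1 - ρ)) * Real.exp (3 * β) * Real.exp (-β * t) :=
          add_le_add h1 h2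
      _ ≤ K1 * (C0 * Real.exp (-β * t)) / (1 - q)
          + (K1 * C0 + K1 * C0 / (1 - ρ)) * Real.exp (3 * β) * Real.exp (-β * t) := by gcongr
      _ = C1 * Real.exp (-β * t) := by rw [hC1]; ring
      _ ≤ _ := by
          refine mul_le_mul_of_nonneg_right ?_ hE.le
          linarith
  · have h1 : ‖w t - v‖ ≤ ε + ‖v‖ := (norm_sub_le _ _).trans (by linarith [hb t])
    have h2 : 1 ≤ Real.exp (2 * β) * Real.exp (-β * t) := by
      rw [← Real.exp_add, Real.one_le_exp_iff]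
      nlinarith
    have h3 : ε + ‖v‖ ≤ C2 * Real.exp (-β * t) := by
      rw [hC2, mul_assoc]
      exact le_mul_of_one_le_right (by positivity) h2
    calc ‖w t - v‖ ≤ C2 * Real.exp (-β * t) := h1.trans h3
      _ ≤ _ := by
          refine mul_le_mul_of_nonneg_right ?_ hE.le
          linarith

end Pool.Agent.R208.Energy
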