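import Mathlib

/-!
# Two elementary growth lemmas for differential inequalities
-/

set_option autoImplicit false

open Set Filter
open scoped Topology

namespace Pool.Agent.R208.GrowthOde

/-- If `E ≤ (s + κ A₁) A` with `A = E'`, `A₁ = E₁'` and `E₁ ≤ E + C s`, then `E ≥ c s`. -/
theorem linear_growth {E E1 A A1 : ℝ → ℝ} {κ C r : ℝ} (hκ : 0 ≤ κ) (hC : 0 ≤ C) (hr : 0 < r)
    (hE : ∀ s, r ≤ s → HasDerivAt E (A s) s) (hE1 : ∀ s, r ≤ s → HasDerivAt E1 (A1 s) s)
    (hA : ∀ s, r ≤ s → 0 ≤ A s) (hA1 : ∀ s, r ≤ s → 0 ≤ A1 s) (hE1n : ∀ s, r ≤ s → 0 ≤ E1 s)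
    (hpos : 0 < E r) (hineq : ∀ s, r ≤ s → E s ≤ (s + κ * A1 s) * A s)
    (hE1le : ∀ s, r ≤ s → E1 s ≤ E s + C * s) :
    ∃ c > 0, ∀ s, r ≤ s → c * s ≤ E s := by
  have hEc : ContinuousOn E (Ici r) := fun s hs => (hE s hs).continuousAt.continuousWithinAt
  have hmono : MonotoneOn E (Ici r) := by
    apply monotoneOn_of_deriv_nonneg (convex_Ici r) hEc
    · intro s hs
      rw [interior_Ici] at hs
      exact (hE s (le_of_lt hs)).differentiableAt.differentiableWithinAt
    · intro s hs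
      rw [interior_Ici] at hs
      rw [(hE s (le_of_lt hs)).deriv]
      exact hA s (le_of_lt hs)
  have hEpos : ∀ s, r ≤ s → 0 < E s := fun s hs =>
    lt_of_lt_of_le hpos (hmono (mem_Ici.2 le_rfl) (mem_Ici.2 hs) hs)
  set h1 : ℝ := min 1 (E r / r) with hh1
  have hh1pos : 0 < h1 := lt_min one_pos (div_pos hpos hr)
  set K : ℝ := 2 * κ * (1 + C) with hK
  have hK0 : 0 ≤ K := by positivity
  refine ⟨h1 * Real.exp (-K / r), by positivity, fun R hR => ?_⟩
  by_cases hcase : h1 * R ≤ E R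
  · have hR0 : 0 < R := lt_of_lt_of_le hr hR
    refine le_trans ?_ hcase
    have : Real.exp (-K / r) ≤ 1 := by
      rw [Real.exp_le_one_iff]
      exact div_nonpos_of_nonpos_of_nonneg (by linarith) hr.le
    nlinarith [mul_nonneg hh1pos.le hR0.le]
  push Not at hcase
  -- the last time that `E ≥ h1 s`
  have hcomp : IsCompact (Icc r R ∩ {s | h1 * s ≤ E s}) := by
    have hcl : IsClosed (Icc r R ∩ {s | h1 * s ≤ E s}) := by
      have hc1 : ContinuousOn (fun s => E s - h1 * s) (Icc r R) :=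
        (hEc.mono Icc_subset_Ici_self).sub (by fun_prop)
      have := hc1.preimage_isClosed_of_isClosed isClosed_Icc (isClosed_Ici (a := (0 : ℝ)))
      convert this using 1
      ext s
      simp
    exact isCompact_Icc.of_isClosed_subset hcl inter_subset_left
  have hne : (Icc r R ∩ {s | h1 * s ≤ E s}).Nonempty := by
    refine ⟨r, ⟨le_rfl, hR⟩, ?_⟩
    show h1 * r ≤ E r
    calc h1 * r ≤ E r / r * r := by gcongr; exact min_le_right _ _
      _ = E r := by field_simp
  obtain ⟨R1, ⟨⟨hR1r, hR1R⟩, hR1h⟩, hR1max⟩ := hcomp.exists_isGreatest hne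
  have hR1h : h1 * R1 ≤ E R1 := hR1h
  have hR10 : 0 < R1 := lt_of_lt_of_le hr hR1r
  have hR1ne : R1 ≠ R := by
    rintro rfl
    linarith
  have hlt : R1 < R := lt_of_le_of_ne hR1R hR1ne
  have hR0 : 0 < R := hR10.trans hlt
  have hsmall : ∀ s, R1 < s → s ≤ R → E s < s := by
    intro s hs hsR
    by_contra hn
    push Not at hn
    have hs0 : 0 < s := hR10.trans hs
    have h2 : s ∈ Icc r R ∩ {s | h1 * s ≤ E s} := by
      refine ⟨⟨hR1r.trans hs.le, hsR⟩, ?_⟩
      show h1 * s ≤ E s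
      have : h1 ≤ 1 := min_le_left _ _
      nlinarith
    exact absurd (hR1max h2) (not_le.2 hs)
  set ψ : ℝ → ℝ := fun s => Real.log (E s) - Real.log s + κ * E1 s / s ^ 2 - K / s with hψ
  have hψd : ∀ s, r ≤ s → HasDerivAt ψ (A s / E s - s⁻¹
      + (κ * A1 s * s ^ 2 - κ * E1 s * (2 * s)) / (s ^ 2) ^ 2 - (-(K / s ^ 2))) s := by
    intro s hs
    have hs0 : 0 < s := lt_of_lt_of_le hr hs
    have e1 := (hE s hs).log (hEpos s hs).ne'
    have e2 := Real.hasDerivAt_log hs0.ne'
    have e3 : HasDerivAt (fun s : ℝ => s ^ 2) (2 * s) s := by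
      simpa using hasDerivAt_pow 2 s
    have e4 := ((hE1 s hs).const_mul κ).div e3 (by positivity)
    have e5 : HasDerivAt (fun s : ℝ => K / s) (-(K / s ^ 2)) s := by
      have := (hasDerivAt_inv hs0.ne').const_mul K
      refine (this.congr_deriv ?_)
      field_simp
    exact ((e1.sub e2).add e4).sub e5
  have hψmono : MonotoneOn ψ (Icc R1 R) := by
    apply monotoneOn_of_deriv_nonneg (convex_Icc R1 R)
    · exact fun s hs => (hψd s (hR1r.trans hs.1)).continuousAt.continuousWithinAt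
    · intro s hs
      rw [interior_Icc] at hs
      exact (hψd s (hR1r.trans hs.1.le)).differentiableAt.differentiableWithinAt
    · intro s hs
      rw [interior_Icc] at hs
      have hs' : r ≤ s := hR1r.trans hs.1.le
      have hs0 : 0 < s := lt_of_lt_of_le hr hs'
      rw [(hψd s hs').deriv]
      have f1 := hineq s hs'
      have f2 := hEpos s hs'
      have f3 := hA1 s hs'
      have f4 := hA s hs'
      have f5 := hE1le s hs'
      have f6 := hsmall s hs.1 hs.2.le
      have f7 : 0 < s + κ * A1 s := by positivity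
      have g1 : 1 / (s + κ * A1 s) ≤ A s / E s := by
        rw [div_le_div_iff₀ f7 f2]
        linarith
      have g2 : s⁻¹ - κ * A1 s / s ^ 2 ≤ 1 / (s + κ * A1 s) := by
        have : 1 / (s + κ * A1 s) - (s⁻¹ - κ * A1 s / s ^ 2)
            = (κ * A1 s) ^ 2 / (s ^ 2 * (s + κ * A1 s)) := by
          field_simp
          ring
        have h3 : 0 ≤ (κ * A1 s) ^ 2 / (s ^ 2 * (s + κ * A1 s)) := by positivity
        linarith
      have g3 : κ * E1 s * (2 * s) ≤ K * s ^ 2 := by
        have : E1 s ≤ (1 + C) * s := by linarith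
        calc κ * E1 s * (2 * s) ≤ κ * ((1 + C) * s) * (2 * s) := by gcongr
          _ = K * s ^ 2 := by rw [hK]; ring
      have g4 : (κ * A1 s * s ^ 2 - κ * E1 s * (2 * s)) / (s ^ 2) ^ 2
          ≥ κ * A1 s / s ^ 2 - K / s ^ 2 := by
        have : κ * A1 s / s ^ 2 - K / s ^ 2 = (κ * A1 s * s ^ 2 - K * s ^ 2) / (s ^ 2) ^ 2 := by
          field_simp
        rw [this, ge_iff_le]
        gcongr
      linarith
  have hfin := hψmono (left_mem_Icc.2 hlt.le) (right_mem_Icc.2 hlt.le) hlt.le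
  simp only [hψ] at hfin
  have hER := hEpos R hR
  have k1 : κ * E1 R / R ^ 2 ≤ K / R := by
    have h3 : E1 R ≤ (1 + C) * R := by
      have := hE1le R hR
      have := hsmall R hlt le_rfl
      linarith
    rw [div_le_div_iff₀ (by positivity) hR0]
    calc κ * E1 R * R ≤ κ * ((1 + C) * R) * R := by gcongr
      _ = K / 2 * R ^ 2 := by rw [hK]; ring
      _ ≤ K * R ^ 2 := by nlinarith [sq_nonneg R]
  have k2 : 0 ≤ κ * E1 R1 / R1 ^ 2 := by
    have := hE1n R1 hR1r
    positivity
  have k3 : K / R1 ≤ K / r := by gcongr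
  have k4 : Real.log h1 ≤ Real.log (E R1) - Real.log R1 := by
    rw [← Real.log_div (hEpos R1 hR1r).ne' hR10.ne']
    apply Real.log_le_log hh1pos
    rw [le_div_iff₀ hR10]
    exact hR1h
  have k5 : Real.log h1 - K / r ≤ Real.log (E R) - Real.log R := by linarith
  have k6 : Real.log (h1 * Real.exp (-K / r) * R) ≤ Real.log (E R) := by
    rw [Real.log_mul (by positivity) hR0.ne', Real.log_mul hh1pos.ne' (Real.exp_ne_zero _),
      Real.log_exp, neg_div]
    linarith
  exact (Real.log_le_log_iff (by positivity) hER).1 k6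

/-- If `E² ≤ B A` on `[R, 2R]` with `A = E'` and `E > 0` then `E(R) ≤ B / R`. -/
theorem upper_bound {E A : ℝ → ℝ} {B R : ℝ} (hR : 0 < R) (hB : 0 < B)
    (hE : ∀ s, R ≤ s → s ≤ 2 * R → HasDerivAt E (A s) s)
    (hpos : ∀ s, R ≤ s → s ≤ 2 * R → 0 < E s)
    (hineq : ∀ s, R ≤ s → s ≤ 2 * R → E s ^ 2 ≤ B * A s) : E R ≤ B / R := by
  set ψ : ℝ → ℝ := fun s => (E s)⁻¹ + s / B with hψ
  have hψd : ∀ s, R ≤ s → s ≤ 2 * R → HasDerivAt ψ (-A s / E s ^ 2 + 1 / B) s := by
    intro s h1 h2
    exact ((hE s h1 h2).inv (hpos s h1 h2).ne').add ((hasDerivAt_id s).div_const B)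
  have hanti : AntitoneOn ψ (Icc R (2 * R)) := by
    apply antitoneOn_of_deriv_nonpos (convex_Icc _ _)
    · exact fun s hs => (hψd s hs.1 hs.2).continuousAt.continuousWithinAt
    · intro s hs
      rw [interior_Icc] at hs
      exact (hψd s hs.1.le hs.2.le).differentiableAt.differentiableWithinAt
    · intro s hs
      rw [interior_Icc] at hs
      rw [(hψd s hs.1.le hs.2.le).deriv]
      have h1 := hineq s hs.1.le hs.2.le
      have h2 := hpos s hs.1.le hs.2.le
      have h3 : 1 / B ≤ A s / E s ^ 2 := by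
        rw [div_le_div_iff₀ hB (by positivity)]
        linarith
      rw [neg_div]
      linarith
  have h1 := hanti (left_mem_Icc.2 (by linarith)) (right_mem_Icc.2 (by linarith)) (by linarith)
  simp only [hψ] at h1
  have h2 : 0 < (E (2 * R))⁻¹ := inv_pos.2 (hpos _ (by linarith) le_rfl)
  have h3 : R / B ≤ (E R)⁻¹ := by
    have : 2 * R / B = R / B + R / B := by ring
    linarith
  have h4 := hpos R le_rfl (by linarith)
  rw [le_div_iff₀ hR]
  rw [div_le_iff₀ hB] at h3
  calc E R * R ≤ E R * ((E R)⁻¹ * B) := by gcongr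
    _ = B := by field_simp

end Pool.Agent.R208.GrowthOde
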