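import Mathlib

/-!
# An injectivity criterion for planar maps

If `Q` is strictly increasing in the second variable with range `ℝ` on every vertical line and the
Jacobian of `(P, Q)` does not vanish, then `(P, Q)` is injective.
-/

set_option autoImplicit false

open Set Filter
open scoped Topology

namespace Pool.Agent.R208.LevelInj

theorem injOn {α β : ℝ} {Q P : ℝ × ℝ → ℝ} {Q' P' : ℝ × ℝ → ℝ × ℝ →L[ℝ] ℝ}
    (hQ : ∀ x : ℝ × ℝ, x.1 ∈ Ioo α β → HasStrictFDerivAt Q (Q' x) x)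
    (hP : ∀ x : ℝ × ℝ, x.1 ∈ Ioo α β → HasFDerivAt P (P' x) x)
    (hpos : ∀ x : ℝ × ℝ, x.1 ∈ Ioo α β → 0 < Q' x (0, 1))
    (hjac : ∀ x : ℝ × ℝ, x.1 ∈ Ioo α β →
      P' x (1, 0) * Q' x (0, 1) - P' x (0, 1) * Q' x (1, 0) < 0)
    (hbot : ∀ θ ∈ Ioo α β, Tendsto (fun ρ => Q (θ, ρ)) atBot atBot)
    (htop : ∀ θ ∈ Ioo α β, Tendsto (fun ρ => Q (θ, ρ)) atTop atTop)
    {x y : ℝ × ℝ} (hx : x.1 ∈ Ioo α β) (hy : y.1 ∈ Ioo α β) (hQxy : Q x = Q y)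
    (hPxy : P x = P y) : x = y := by
  -- derivative along the vertical lines
  have hver : ∀ z : ℝ × ℝ, z.1 ∈ Ioo α β → HasDerivAt (fun ρ => Q (z.1, ρ)) (Q' z (0, 1)) z.2 := by
    intro z hz
    have h1 : HasDerivAt (fun ρ : ℝ => (z.1, ρ)) ((0 : ℝ), (1 : ℝ)) z.2 :=
      (hasDerivAt_const z.2 z.1).prodMk (hasDerivAt_id z.2)
    exact HasFDerivAt.comp_hasDerivAt (l := Q) (f := fun ρ : ℝ => (z.1, ρ)) z.2
      (hQ z hz).hasFDerivAt h1
  have hmono : ∀ θ ∈ Ioo α β, StrictMono fun ρ => Q (θ, ρ) := by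
    intro θ hθ
    apply strictMono_of_deriv_pos
    intro ρ
    rw [(hver (θ, ρ) hθ).deriv]
    exact hpos _ hθ
  have hcont : ∀ θ ∈ Ioo α β, Continuous fun ρ => Q (θ, ρ) := fun θ hθ =>
    continuous_iff_continuousAt.2 fun ρ => (hver (θ, ρ) hθ).continuousAt
  set q := Q x with hq
  have hex : ∀ θ, ∃ ρ, θ ∈ Ioo α β → Q (θ, ρ) = q := by
    intro θ
    by_cases hθ : θ ∈ Ioo α β
    · obtain ⟨ρ, hρ⟩ := (hcont θ hθ).surjective (htop θ hθ) (hbot θ hθ) q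
      exact ⟨ρ, fun _ => hρ⟩
    · exact ⟨0, fun h => absurd h hθ⟩
  choose φ hφ using hex
  have hφu : ∀ θ ∈ Ioo α β, ∀ ρ, Q (θ, ρ) = q → ρ = φ θ := by
    intro θ hθ ρ hρ
    apply (hmono θ hθ).injective
    simp only
    rw [hρ, hφ θ hθ]
  have hx2 : φ x.1 = x.2 := (hφu x.1 hx x.2 rfl).symm
  have hy2 : φ y.1 = y.2 := (hφu y.1 hy y.2 hQxy.symm).symm
  have hφd : ∀ θ ∈ Ioo α β, HasDerivAt φ (-(Q' (θ, φ θ) (1, 0) / Q' (θ, φ θ) (0, 1))) θ := by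
    intro θ hθ
    set u : ℝ × ℝ := (θ, φ θ) with hu
    have hd := hQ u hθ
    have hp := hpos u hθ
    have hinv : (Q' u ∘L .inr ℝ ℝ ℝ).IsInvertible := by
      refine ⟨ContinuousLinearEquiv.unitsEquivAut ℝ (Units.mk0 _ hp.ne'), ?_⟩
      ext
      simp
    have h1 := (hd.hasStrictFDerivAt_implicitFunctionOfProdDomain hinv).hasFDerivAt
    have h2 := hd.eventually_apply_implicitFunctionOfProdDomain hinv
    set ψ := hd.implicitFunctionOfProdDomain hinv with hψ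
    have h3 : φ =ᶠ[𝓝 θ] ψ := by
      filter_upwards [h2, Ioo_mem_nhds hθ.1 hθ.2] with t ht htI
      exact (hφu t htI _ (by rw [ht]; exact hφ θ hθ)).symm
    have h4 : HasDerivAt ψ ((-(Q' u ∘L .inr ℝ ℝ ℝ).inverse ∘L (Q' u ∘L .inl ℝ ℝ ℝ)) 1) θ :=
      h1.hasDerivAt
    have h5 : (-(Q' u ∘L .inr ℝ ℝ ℝ).inverse ∘L (Q' u ∘L .inl ℝ ℝ ℝ)) 1
        = -(Q' u (1, 0) / Q' u (0, 1)) := by
      have h6 : ∀ c : ℝ, (Q' u ∘L .inr ℝ ℝ ℝ).inverse c = c / Q' u (0, 1) := by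
        intro c
        obtain ⟨e, he⟩ := hinv
        rw [← he, ContinuousLinearMap.inverse_equiv]
        have h7 : e (c / Q' u (0, 1)) = c := by
          have h8 : (e : ℝ →L[ℝ] ℝ) (c / Q' u (0, 1)) = c := by
            rw [he]
            have h9 : (Q' u ∘L .inr ℝ ℝ ℝ) (c / Q' u (0, 1))
                = (c / Q' u (0, 1)) • (Q' u ∘L .inr ℝ ℝ ℝ) 1 := by
              rw [← map_smul]
              simp
            rw [h9]
            simp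
            field_simp
          exact h8
        show e.symm c = _
        rw [ContinuousLinearEquiv.symm_apply_eq, h7]
      show -((Q' u ∘L .inr ℝ ℝ ℝ).inverse ((Q' u ∘L .inl ℝ ℝ ℝ) 1)) = _
      rw [h6]
      simp
    rw [h5] at h4
    exact h4.congr_of_eventuallyEq h3
  have hψd : ∀ θ ∈ Ioo α β, HasDerivAt (fun t => P (t, φ t))
      ((P' (θ, φ θ) (1, 0) * Q' (θ, φ θ) (0, 1) - P' (θ, φ θ) (0, 1) * Q' (θ, φ θ) (1, 0))
        / Q' (θ, φ θ) (0, 1)) θ := by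
    intro θ hθ
    have h1 : HasDerivAt (fun t => (t, φ t))
        ((1 : ℝ), -(Q' (θ, φ θ) (1, 0) / Q' (θ, φ θ) (0, 1))) θ :=
      (hasDerivAt_id θ).prodMk (hφd θ hθ)
    have h2 := HasFDerivAt.comp_hasDerivAt (l := P) (f := fun t => (t, φ t)) θ
      (hP (θ, φ θ) hθ) h1
    refine h2.congr_deriv ?_
    have hp := hpos (θ, φ θ) hθ
    have h3 : ∀ c : ℝ, P' (θ, φ θ) (1, c) = P' (θ, φ θ) (1, 0) + c * P' (θ, φ θ) (0, 1) := by
      intro c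
      have : ((1 : ℝ), c) = (1, 0) + c • (0, 1) := by simp
      rw [this, map_add, map_smul, smul_eq_mul]
    rw [h3]
    field_simp
    ring
  have hne : ∀ θ ∈ Ioo α β, (P' (θ, φ θ) (1, 0) * Q' (θ, φ θ) (0, 1)
      - P' (θ, φ θ) (0, 1) * Q' (θ, φ θ) (1, 0)) / Q' (θ, φ θ) (0, 1) < 0 := fun θ hθ =>
    div_neg_of_neg_of_pos (hjac _ hθ) (hpos _ hθ)
  -- Rolle
  have rolle : ∀ s t, s ∈ Ioo α β → t ∈ Ioo α β → s < t → P (s, φ s) ≠ P (t, φ t) := by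
    intro s t hs ht hst heq
    have hsub : ∀ θ ∈ Icc s t, θ ∈ Ioo α β := fun θ hθ =>
      ⟨hs.1.trans_le hθ.1, hθ.2.trans_lt ht.2⟩
    obtain ⟨c, hc, hc2⟩ := exists_hasDerivAt_eq_zero hst
      (fun θ hθ => (hψd θ (hsub θ hθ)).continuousAt.continuousWithinAt) heq
      (fun θ hθ => hψd θ (hsub θ ⟨hθ.1.le, hθ.2.le⟩))
    exact (hne c (hsub c ⟨hc.1.le, hc.2.le⟩)).ne hc2
  have hP1 : P (x.1, φ x.1) = P (y.1, φ y.1) := by
    rw [hx2, hy2]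
    exact hPxy
  rcases lt_trichotomy x.1 y.1 with h | h | h
  · exact absurd hP1 (rolle _ _ hx hy h)
  · refine Prod.ext h ?_
    rw [← hx2, ← hy2, h]
  · exact absurd hP1.symm (rolle _ _ hy hx h)

end Pool.Agent.R208.LevelInj
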