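import Pool.Agent.R208.NucMulti

/-!
# The final step for one matrix
-/

namespace Pool.Agent.R208.Nuc

open Finset

lemma nuc_transpose_le {α β : Type} [Fintype α] [Fintype β] [DecidableEq α] [DecidableEq β]
    (X : Matrix α β ℝ) : nuc X.transpose ≤ nuc X := by
  obtain ⟨G, h1, h2, -, -⟩ := exists_cert X.transpose
  have h3 := inner_le_nuc' X (G.transpose) 1 zero_le_one (fun y => by simpa using h2 y)
  have h4 : ∑ a, ∑ b, X a b * G.transpose a b = nuc X.transpose := by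
    rw [← h1, Finset.sum_comm]
    rfl
  rw [h4, one_mul] at h3
  exact h3

lemma nuc_transpose {α β : Type} [Fintype α] [Fintype β] [DecidableEq α] [DecidableEq β]
    (X : Matrix α β ℝ) : nuc X.transpose = nuc X := by
  refine le_antisymm (nuc_transpose_le X) ?_
  have := nuc_transpose_le X.transpose
  rwa [Matrix.transpose_transpose] at this

section rows

variable {α β : Type} [Fintype α] [Fintype β] [DecidableEq α] [DecidableEq β]

/-- The rows in a small exceptional set carry little mass of the minimiser. -/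
lemma row_bound (A A' : Matrix α β ℝ) (M N rK L η : ℝ) (hM : 0 < M) (hN : 0 < N)
    (hMc : M = Fintype.card α) (hNc : N = Fintype.card β) (hrK : 0 < rK) (hL : 0 < L)
    (hη : 0 < η) (hrank : (A.rank : ℝ) ≤ rK ^ 2) (hAL : ∀ x y, |A x y| ≤ L)
    (hnuc : nuc A' ≤ nuc A) (R : Finset α) (C : Finset β)
    (hR : (R.card : ℝ) ≤ 2 * η ^ 2 * M) (hC : (C.card : ℝ) ≤ 2 * η ^ 2 * N)
    (hgood : ∑ x ∈ Rᶜ, ∑ y ∈ Cᶜ, (A' x y - A x y) ^ 2 ≤ η ^ 2 * (M * N)) :
    ∑ x ∈ R, ∑ y, A' x y ^ 2 ≤ 2 * (rK * L) * (rK * η * (1 + 2 * L)) * (M * N) := by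
  obtain ⟨G, hG1, hG2, -, hG4⟩ := exists_cert A
  set S : ℝ := Real.sqrt (M * N) with hSdef
  have hMN : 0 < M * N := mul_pos hM hN
  have hS : 0 < S := Real.sqrt_pos.2 hMN
  have hS2 : S ^ 2 = M * N := Real.sq_sqrt hMN.le
  have hAsq : ∀ x y, A x y ^ 2 ≤ L ^ 2 := fun x y => by
    rw [← sq_abs]; exact pow_le_pow_left₀ (abs_nonneg _) (hAL x y) 2
  -- nuclear norm of `A`
  have hnucA : nuc A ≤ rK * L * S := by
    refine abs_le_of_sq_le_sq' ?_ (by positivity) |>.2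
    calc nuc A ^ 2 ≤ A.rank * ∑ a, ∑ b, A a b ^ 2 := nuc_sq_le A
      _ ≤ rK ^ 2 * (L ^ 2 * (M * N)) := by
          refine mul_le_mul hrank ?_ (Finset.sum_nonneg fun a _ =>
            Finset.sum_nonneg fun b _ => sq_nonneg _) (by positivity)
          calc ∑ a, ∑ b, A a b ^ 2 ≤ ∑ _a : α, ∑ _b : β, L ^ 2 :=
                Finset.sum_le_sum fun a _ => Finset.sum_le_sum fun b _ => hAsq a b
            _ = L ^ 2 * (M * N) := by
                simp only [Finset.sum_const, nsmul_eq_mul, Finset.card_univ]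
                rw [hMc, hNc]; ring
      _ = (rK * L * S) ^ 2 := by rw [← hS2]; ring
  set G1 : α → β → ℝ := fun x y => if x ∈ R ∨ y ∈ C then 0 else G x y with hG1def
  set Dg : α → β → ℝ := fun x y => if x ∈ R ∨ y ∈ C then 0 else A' x y - A x y with hDg
  set Ab : α → β → ℝ := fun x y => if x ∈ R ∨ y ∈ C then A x y else 0 with hAb
  have hDgsq : ∑ x, ∑ y, Dg x y ^ 2 ≤ η ^ 2 * (M * N) := by
    refine le_trans (le_of_eq ?_) hgood
    have h1 : ∀ x, ∑ y, Dg x y ^ 2 = if x ∈ Rᶜ then ∑ y ∈ Cᶜ, (A' x y - A x y) ^ 2 else 0 := by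
      intro x
      by_cases hx : x ∈ R
      · simp [hDg, hx]
      · have hx' : x ∈ Rᶜ := Finset.mem_compl.2 hx
        rw [if_pos hx']
        have h2 : (univ.filter fun y => y ∈ Cᶜ) = Cᶜ := by ext; simp
        rw [← h2, Finset.sum_filter]
        refine Finset.sum_congr rfl fun y _ => ?_
        by_cases hy : y ∈ C
        · simp [hDg, hx, hy]
        · simp [hDg, hx, hy]
    simp_rw [h1]
    rw [← Finset.sum_filter]
    congr 1
    ext; simp
  have hAbsq : ∑ x, ∑ y, Ab x y ^ 2 ≤ (2 * η * L) ^ 2 * (M * N) := by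
    have h1 : ∀ x y, Ab x y ^ 2 ≤ (if x ∈ R then L ^ 2 else 0) + (if y ∈ C then L ^ 2 else 0) := by
      intro x y
      have hL2 : 0 ≤ L ^ 2 := sq_nonneg _
      have := hAsq x y
      by_cases hx : x ∈ R
      · by_cases hy : y ∈ C
        · simp only [hAb, hx, hy, true_or, if_true]; linarith
        · simp only [hAb, hx, hy, true_or, if_true, if_false]; linarith
      · by_cases hy : y ∈ C
        · simp only [hAb, hx, hy, or_true, if_true, if_false]; linarith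
        · simp [hAb, hx, hy]
    calc ∑ x, ∑ y, Ab x y ^ 2
        ≤ ∑ x, ∑ y, ((if x ∈ R then L ^ 2 else 0) + (if y ∈ C then L ^ 2 else 0)) :=
          Finset.sum_le_sum fun x _ => Finset.sum_le_sum fun y _ => h1 x y
      _ = R.card * L ^ 2 * N + M * (C.card * L ^ 2) := by
          simp_rw [Finset.sum_add_distrib]
          congr 1
          · simp only [Finset.sum_const, nsmul_eq_mul, Finset.card_univ]
            rw [← Finset.mul_sum, ← Finset.sum_filter]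
            have h2 : (univ.filter fun x => x ∈ R) = R := by ext; simp
            rw [h2, Finset.sum_const, nsmul_eq_mul, hNc]
            ring
          · rw [Finset.sum_const, nsmul_eq_mul, ← Finset.sum_filter]
            have h2 : (univ.filter fun y => y ∈ C) = C := by ext; simp
            rw [h2, Finset.sum_const, nsmul_eq_mul, Finset.card_univ, hMc]
      _ ≤ 2 * η ^ 2 * M * L ^ 2 * N + M * (2 * η ^ 2 * N * L ^ 2) := by
          have hL2 : 0 ≤ L ^ 2 := sq_nonneg _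
          refine add_le_add ?_ ?_
          · exact mul_le_mul_of_nonneg_right (mul_le_mul_of_nonneg_right hR hL2) hN.le
          · exact mul_le_mul_of_nonneg_left (mul_le_mul_of_nonneg_right hC hL2) hM.le
      _ = (2 * η * L) ^ 2 * (M * N) := by ring
  have hGsq : ∑ a, ∑ b, G a b ^ 2 ≤ rK ^ 2 := by rw [hG4]; exact hrank
  have hDG : -(η * S * rK) ≤ ∑ x, ∑ y, Dg x y * G x y := by
    refine (abs_le_of_sq_le_sq' ?_ (by positivity)).1
    calc (∑ x, ∑ y, Dg x y * G x y) ^ 2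
        ≤ (∑ x, ∑ y, Dg x y ^ 2) * ∑ x, ∑ y, G x y ^ 2 := cs2 Dg G
      _ ≤ (η ^ 2 * (M * N)) * rK ^ 2 := mul_le_mul hDgsq hGsq (Finset.sum_nonneg fun a _ =>
            Finset.sum_nonneg fun b _ => sq_nonneg _) (by positivity)
      _ = (η * S * rK) ^ 2 := by rw [← hS2]; ring
  have hAG : ∑ x, ∑ y, Ab x y * G x y ≤ 2 * η * L * S * rK := by
    refine (abs_le_of_sq_le_sq' ?_ (by positivity)).2
    calc (∑ x, ∑ y, Ab x y * G x y) ^ 2
        ≤ (∑ x, ∑ y, Ab x y ^ 2) * ∑ x, ∑ y, G x y ^ 2 := cs2 Ab G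
      _ ≤ ((2 * η * L) ^ 2 * (M * N)) * rK ^ 2 := mul_le_mul hAbsq hGsq (Finset.sum_nonneg fun a _ =>
            Finset.sum_nonneg fun b _ => sq_nonneg _) (by positivity)
      _ = (2 * η * L * S * rK) ^ 2 := by rw [← hS2]; ring
  set κ : ℝ := rK * η * (1 + 2 * L) with hκ
  have hin1 : nuc A - κ * S ≤ ∑ x, ∑ y, A' x y * G1 x y := by
    have h1 : ∑ x, ∑ y, A' x y * G1 x y = ∑ x, ∑ y, A x y * G x y - ∑ x, ∑ y, Ab x y * G x y
        + ∑ x, ∑ y, Dg x y * G x y := by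
      rw [← Finset.sum_sub_distrib, ← Finset.sum_add_distrib]
      refine Finset.sum_congr rfl fun x _ => ?_
      rw [← Finset.sum_sub_distrib, ← Finset.sum_add_distrib]
      refine Finset.sum_congr rfl fun y _ => ?_
      by_cases hxy : x ∈ R ∨ y ∈ C
      · simp only [hG1def, hAb, hDg, hxy, if_true]; ring
      · simp only [hG1def, hAb, hDg, hxy, if_false]; ring
    rw [h1, hG1, hκ]
    linarith
  -- the perturbed test matrix
  set c : ℝ := 1 / (rK * L * S) with hc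
  have hcpos : 0 < c := by positivity
  have hcm : c * (rK * L * S) = 1 := by rw [hc]; field_simp
  set F : α → β → ℝ := fun x y => if x ∈ R then A' x y else 0 with hF
  set f2 : ℝ := ∑ x ∈ R, ∑ y, A' x y ^ 2 with hf2
  have hf2nn : 0 ≤ f2 := Finset.sum_nonneg fun a _ => Finset.sum_nonneg fun b _ => sq_nonneg _
  have hF2 : ∑ x, ∑ y, F x y ^ 2 = f2 := by
    have h1 : ∀ x, ∑ y, F x y ^ 2 = if x ∈ R then ∑ y, A' x y ^ 2 else 0 := by
      intro x
      by_cases hx : x ∈ R <;> simp [hF, hx]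
    simp_rw [h1]
    rw [← Finset.sum_filter, hf2]
    congr 1
    ext; simp
  have hAF : ∑ x, ∑ y, A' x y * F x y = f2 := by
    rw [← hF2]
    refine Finset.sum_congr rfl fun x _ => Finset.sum_congr rfl fun y _ => ?_
    by_cases hx : x ∈ R
    · simp only [hF, hx, if_true]; ring
    · simp [hF, hx]
  have hop : ∀ z : β → ℝ, ∑ x, (∑ y, (G1 x y + c * F x y) * z y) ^ 2
      ≤ (1 + c ^ 2 * f2 / 2) ^ 2 * ∑ y, z y ^ 2 := by
    intro z
    set z' : β → ℝ := fun y => if y ∈ C then 0 else z y with hz'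
    have hzz : ∑ y, z' y ^ 2 ≤ ∑ y, z y ^ 2 := by
      refine Finset.sum_le_sum fun y _ => ?_
      by_cases hy : y ∈ C
      · simp [hz', hy, sq_nonneg]
      · simp [hz', hy]
    have hz0 : 0 ≤ ∑ y, z y ^ 2 := Finset.sum_nonneg fun y _ => sq_nonneg _
    have h1 : ∀ x, (∑ y, (G1 x y + c * F x y) * z y) ^ 2
        ≤ (∑ y, G x y * z' y) ^ 2 + c ^ 2 * (∑ y, F x y ^ 2) * ∑ y, z y ^ 2 := by
      intro x
      by_cases hx : x ∈ R
      · have h2 : ∑ y, (G1 x y + c * F x y) * z y = c * ∑ y, F x y * z y := by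
          rw [Finset.mul_sum]
          refine Finset.sum_congr rfl fun y _ => ?_
          simp only [hG1def, hx, true_or, if_true]; ring
        rw [h2, mul_pow]
        have h3 := cs (F x) z
        have h4 : 0 ≤ (∑ y, G x y * z' y) ^ 2 := sq_nonneg _
        have h5 := mul_le_mul_of_nonneg_left h3 (sq_nonneg c)
        linarith
      · have h2 : ∑ y, (G1 x y + c * F x y) * z y = ∑ y, G x y * z' y := by
          refine Finset.sum_congr rfl fun y _ => ?_
          by_cases hy : y ∈ C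
          · simp [hG1def, hF, hz', hx, hy]
          · simp [hG1def, hF, hz', hx, hy]
        rw [h2]
        have h4 : 0 ≤ c ^ 2 * (∑ y, F x y ^ 2) * ∑ y, z y ^ 2 := by
          have : 0 ≤ ∑ y, F x y ^ 2 := Finset.sum_nonneg fun y _ => sq_nonneg _
          positivity
        linarith
    calc ∑ x, (∑ y, (G1 x y + c * F x y) * z y) ^ 2
        ≤ ∑ x, ((∑ y, G x y * z' y) ^ 2 + c ^ 2 * (∑ y, F x y ^ 2) * ∑ y, z y ^ 2) :=
          Finset.sum_le_sum fun x _ => h1 x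
      _ = ∑ x, (∑ y, G x y * z' y) ^ 2 + c ^ 2 * f2 * ∑ y, z y ^ 2 := by
          rw [Finset.sum_add_distrib]
          congr 1
          rw [← Finset.sum_mul, ← Finset.mul_sum, hF2]
      _ ≤ ∑ y, z y ^ 2 + c ^ 2 * f2 * ∑ y, z y ^ 2 := by
          have := (hG2 z').trans hzz
          linarith
      _ ≤ (1 + c ^ 2 * f2 / 2) ^ 2 * ∑ y, z y ^ 2 := by
          have h6 : 1 + c ^ 2 * f2 ≤ (1 + c ^ 2 * f2 / 2) ^ 2 := by
            nlinarith [sq_nonneg (c ^ 2 * f2 / 2)]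
          have := mul_le_mul_of_nonneg_right h6 hz0
          linarith
  have hcf0 : 0 ≤ c ^ 2 * f2 := by positivity
  have h7 := inner_le_nuc A' (fun x y => G1 x y + c * F x y) (1 + c ^ 2 * f2 / 2)
    (by positivity) hop
  have h8 : ∑ x, ∑ y, A' x y * (G1 x y + c * F x y)
      = ∑ x, ∑ y, A' x y * G1 x y + c * f2 := by
    rw [← hAF, Finset.mul_sum, ← Finset.sum_add_distrib]
    refine Finset.sum_congr rfl fun x _ => ?_
    rw [Finset.mul_sum, ← Finset.sum_add_distrib]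
    exact Finset.sum_congr rfl fun y _ => by ring
  rw [h8] at h7
  have h9 : (1 + c ^ 2 * f2 / 2) * nuc A' ≤ nuc A + c ^ 2 * f2 / 2 * (rK * L * S) := by
    have h10 : (1 + c ^ 2 * f2 / 2) * nuc A' ≤ (1 + c ^ 2 * f2 / 2) * nuc A :=
      mul_le_mul_of_nonneg_left hnuc (by positivity)
    have h11 : c ^ 2 * f2 / 2 * nuc A ≤ c ^ 2 * f2 / 2 * (rK * L * S) :=
      mul_le_mul_of_nonneg_left hnucA (by positivity)
    linarith
  have h12 : c ^ 2 * f2 / 2 * (rK * L * S) = c * f2 / 2 := by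
    calc c ^ 2 * f2 / 2 * (rK * L * S) = c * f2 / 2 * (c * (rK * L * S)) := by ring
      _ = _ := by rw [hcm, mul_one]
  have h13 : c * f2 / 2 ≤ κ * S := by linarith
  have h14 : f2 = (c * f2 / 2) * (2 * (rK * L * S)) := by
    calc f2 = f2 * (c * (rK * L * S)) := by rw [hcm, mul_one]
      _ = _ := by ring
  rw [h14]
  calc (c * f2 / 2) * (2 * (rK * L * S)) ≤ (κ * S) * (2 * (rK * L * S)) :=
        mul_le_mul_of_nonneg_right h13 (by positivity)
    _ = 2 * (rK * L) * κ * S ^ 2 := by ring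
    _ = 2 * (rK * L) * κ * (M * N) := by rw [hS2]

/-- The final estimate for one matrix. -/
lemma final_bound (A A' : Matrix α β ℝ) (M N rK L η : ℝ) (hM : 0 < M) (hN : 0 < N)
    (hMc : M = Fintype.card α) (hNc : N = Fintype.card β) (hrK : 0 < rK) (hL : 0 < L)
    (hη : 0 < η) (hrank : (A.rank : ℝ) ≤ rK ^ 2) (hAL : ∀ x y, |A x y| ≤ L)
    (hnuc : nuc A' ≤ nuc A) (R : Finset α) (C : Finset β)
    (hR : (R.card : ℝ) ≤ 2 * η ^ 2 * M) (hC : (C.card : ℝ) ≤ 2 * η ^ 2 * N)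
    (hgood : ∑ x ∈ Rᶜ, ∑ y ∈ Cᶜ, (A' x y - A x y) ^ 2 ≤ η ^ 2 * (M * N)) :
    ∑ x, ∑ y, (A' x y - A x y) ^ 2 ≤
      (η ^ 2 + 8 * (rK * L) * (rK * η * (1 + 2 * L)) + 8 * η ^ 2 * L ^ 2) * (M * N) := by
  have h1 := row_bound A A' M N rK L η hM hN hMc hNc hrK hL hη hrank hAL hnuc R C hR hC hgood
  have h2 := row_bound A.transpose A'.transpose N M rK L η hN hM hNc hMc hrK hL hη
    (by rw [Matrix.rank_transpose]; exact hrank) (fun x y => hAL y x)
    (by rw [nuc_transpose, nuc_transpose]; exact hnuc) C R hC hR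
    (by
      rw [Finset.sum_comm, mul_comm N M]
      exact hgood)
  have hAsq : ∀ x y, A x y ^ 2 ≤ L ^ 2 := fun x y => by
    rw [← sq_abs]; exact pow_le_pow_left₀ (abs_nonneg _) (hAL x y) 2
  set f : α → β → ℝ := fun x y => (A' x y - A x y) ^ 2 with hf
  have hf0 : ∀ x y, 0 ≤ f x y := fun x y => sq_nonneg _
  have h3 : ∑ x, ∑ y, f x y ≤ ∑ x ∈ Rᶜ, ∑ y ∈ Cᶜ, f x y + ∑ x ∈ R, ∑ y, f x y
      + ∑ y ∈ C, ∑ x, f x y := by
    have h4 : ∑ x, ∑ y, f x y = ∑ x ∈ R, ∑ y, f x y + ∑ x ∈ Rᶜ, ∑ y, f x y :=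
      (Finset.sum_add_sum_compl R _).symm
    have h5 : ∑ x ∈ Rᶜ, ∑ y, f x y = ∑ x ∈ Rᶜ, ∑ y ∈ C, f x y + ∑ x ∈ Rᶜ, ∑ y ∈ Cᶜ, f x y := by
      rw [← Finset.sum_add_distrib]
      exact Finset.sum_congr rfl fun x _ => (Finset.sum_add_sum_compl C _).symm
    have h6 : ∑ x ∈ Rᶜ, ∑ y ∈ C, f x y ≤ ∑ y ∈ C, ∑ x, f x y := by
      rw [Finset.sum_comm]
      exact Finset.sum_le_sum fun y _ => Finset.sum_le_sum_of_subset_of_nonneg
        (Finset.subset_univ _) fun x _ _ => hf0 x y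
    linarith
  have hfle : ∀ x y, f x y ≤ 2 * A' x y ^ 2 + 2 * L ^ 2 := by
    intro x y
    have := hAsq x y
    simp only [hf]
    nlinarith [sq_nonneg (A' x y + A x y)]
  have h7 : ∑ x ∈ R, ∑ y, f x y ≤ 2 * (∑ x ∈ R, ∑ y, A' x y ^ 2) + 4 * η ^ 2 * L ^ 2 * (M * N) := by
    calc ∑ x ∈ R, ∑ y, f x y ≤ ∑ x ∈ R, ∑ y, (2 * A' x y ^ 2 + 2 * L ^ 2) :=
          Finset.sum_le_sum fun x _ => Finset.sum_le_sum fun y _ => hfle x y
      _ = 2 * (∑ x ∈ R, ∑ y, A' x y ^ 2) + R.card * (N * (2 * L ^ 2)) := by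
          simp_rw [Finset.sum_add_distrib, ← Finset.mul_sum, Finset.sum_const, nsmul_eq_mul,
            Finset.card_univ, hNc]
          ring
      _ ≤ 2 * (∑ x ∈ R, ∑ y, A' x y ^ 2) + (2 * η ^ 2 * M) * (N * (2 * L ^ 2)) := by
          have := mul_le_mul_of_nonneg_right hR (show 0 ≤ N * (2 * L ^ 2) by positivity)
          linarith
      _ = _ := by ring
  have h8 : ∑ y ∈ C, ∑ x, f x y ≤ 2 * (∑ y ∈ C, ∑ x, A' x y ^ 2) + 4 * η ^ 2 * L ^ 2 * (M * N) := by
    calc ∑ y ∈ C, ∑ x, f x y ≤ ∑ y ∈ C, ∑ x, (2 * A' x y ^ 2 + 2 * L ^ 2) :=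
          Finset.sum_le_sum fun y _ => Finset.sum_le_sum fun x _ => hfle x y
      _ = 2 * (∑ y ∈ C, ∑ x, A' x y ^ 2) + C.card * (M * (2 * L ^ 2)) := by
          simp_rw [Finset.sum_add_distrib, ← Finset.mul_sum, Finset.sum_const, nsmul_eq_mul,
            Finset.card_univ, hMc]
          ring
      _ ≤ 2 * (∑ y ∈ C, ∑ x, A' x y ^ 2) + (2 * η ^ 2 * N) * (M * (2 * L ^ 2)) := by
          have := mul_le_mul_of_nonneg_right hC (show 0 ≤ M * (2 * L ^ 2) by positivity)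
          linarith
      _ = _ := by ring
  have h2' : ∑ y ∈ C, ∑ x, A' x y ^ 2 ≤ 2 * (rK * L) * (rK * η * (1 + 2 * L)) * (M * N) := by
    have := h2
    rw [mul_comm N M] at this
    exact this
  have h9 : ∑ x ∈ Rᶜ, ∑ y ∈ Cᶜ, f x y ≤ η ^ 2 * (M * N) := hgood
  linarith

end rows

end Pool.Agent.R208.Nuc
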