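import Pool.Agent.R208.NucOne

/-!
# The multi-scale lemma and the scaled singular value decomposition
-/

namespace Pool.Agent.R208.Nuc

open Finset

lemma window_sum {ι : Type} [Fintype ι] (σ : ι → ℝ) (hσ : ∀ i, 0 ≤ σ i) (t : ℕ → ℝ)
    (ht : ∀ j, t (j + 1) ≤ t j) (J : ℕ) :
    ∑ j ∈ Finset.range J, ∑ i ∈ univ.filter (fun i => t (j + 1) ≤ σ i ∧ σ i < t j), σ i
      ≤ ∑ i ∈ univ.filter (fun i => t J ≤ σ i), σ i := by
  induction J with
  | zero =>
      simp only [Finset.range_zero, Finset.sum_empty]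
      exact Finset.sum_nonneg fun i _ => hσ i
  | succ J ih =>
      rw [Finset.sum_range_succ]
      refine (add_le_add_left ih _).trans (le_of_eq ?_)
      rw [Finset.sum_filter, Finset.sum_filter, Finset.sum_filter, ← Finset.sum_add_distrib]
      refine Finset.sum_congr rfl fun i _ => ?_
      by_cases h1 : t J ≤ σ i
      · have h2 : ¬ σ i < t J := not_lt.2 h1
        have h3 : t (J + 1) ≤ σ i := (ht J).trans h1
        simp [h1, h2, h3]
      · have h2 : σ i < t J := not_le.1 h1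
        by_cases h3 : t (J + 1) ≤ σ i
        · simp [h1, h2, h3]
        · simp [h1, h3]

lemma multi_scale (T ε η : ℝ) (hT : 0 < T) (hε : 0 < ε) (hη : 0 < η) (δf : ℝ → ℝ)
    (hδf : ∀ ρ, 0 < ρ → 0 < δf ρ) :
    ∃ (J : ℕ) (ρ : ℕ → ℝ), (∀ j, 0 < ρ j) ∧
      ∀ (α β ι : Type) [Fintype α] [Fintype β] [Fintype ι] [DecidableEq α] [DecidableEq β]
        (M N : ℝ) (σ : ι → ℝ) (a : ι → α → ℝ) (b : ι → β → ℝ) (D P : α → β → ℝ),
        0 < M → 0 < N → M = Fintype.card α → N = Fintype.card β →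
        Scaled M N T σ a b → (∀ x y, D x y = ∑ i, a i x * b i y) →
        (∀ x y, P x y = 0 ∨ P x y = 1) → (∀ x y, D x y * P x y = 0) →
        (∀ j ∈ Finset.range J, ∀ (R : Finset α) (C : Finset β),
          ρ j * (M * N) ≤ R.card * C.card → δf (ρ j) * (M * N) < ∑ x ∈ R, ∑ y ∈ C, P x y) →
        ∃ (R : Finset α) (C : Finset β), (R.card : ℝ) ≤ 2 * ε * M ∧ (C.card : ℝ) ≤ 2 * ε * N ∧
          ∑ x ∈ Rᶜ, ∑ y ∈ Cᶜ, D x y ^ 2 ≤ η ^ 2 * (M * N) := by
  choose! rf hrf0 hrf using one_scale T ε η hT hε hη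
  set F : ℝ → ℝ := fun t => min t (min (δf (rf t) * (η ^ 2 / (64 * T))) (η ^ 2 / (64 * T))) with hF
  set t : ℕ → ℝ := fun j => F^[j] 1 with ht
  have hts : ∀ j, t (j + 1) = F (t j) := fun j => Function.iterate_succ_apply' _ _ _
  have htpos : ∀ j, 0 < t j := by
    intro j
    induction j with
    | zero => simp [ht]
    | succ j ih =>
        rw [hts]
        have h1 := hδf _ (hrf0 _ ih)
        simp only [hF, lt_min_iff]
        refine ⟨ih, by positivity, by positivity⟩
  have hanti : ∀ j, t (j + 1) ≤ t j := by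
    intro j
    rw [hts]
    exact min_le_left _ _
  set τ : ℝ := η / 16 * ε with hτ
  have hτpos : 0 < τ := by positivity
  refine ⟨⌈T / τ⌉₊ + 1, fun j => rf (t j), fun j => hrf0 _ (htpos j), ?_⟩
  intro α β ι _ _ _ _ _ M N σ a b D P hM hN hMc hNc hS hD hP hDP hrect
  set J : ℕ := ⌈T / τ⌉₊ + 1 with hJ
  have hwin : ∃ j ∈ Finset.range J,
      ∑ i ∈ univ.filter (fun i => t (j + 1) ≤ σ i ∧ σ i < t j), σ i ≤ τ := by
    by_contra hcon
    push Not at hcon
    have h1 := window_sum σ hS.nonneg t hanti J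
    have h2 : (J : ℝ) * τ ≤ ∑ j ∈ Finset.range J,
        ∑ i ∈ univ.filter (fun i => t (j + 1) ≤ σ i ∧ σ i < t j), σ i := by
      calc (J : ℝ) * τ = ∑ j ∈ Finset.range J, τ := by simp
        _ ≤ _ := Finset.sum_le_sum fun j hj => (hcon j hj).le
    have h3 : ∑ i ∈ univ.filter (fun i => t J ≤ σ i), σ i ≤ T :=
      (Finset.sum_le_sum_of_subset_of_nonneg (Finset.subset_univ _)
        fun i _ _ => hS.nonneg i).trans hS.sum_le
    have h4 : T / τ < J := by
      rw [hJ]
      push_cast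
      have := Nat.le_ceil (T / τ)
      linarith
    rw [div_lt_iff₀ hτpos] at h4
    linarith
  obtain ⟨j, hj, hwj⟩ := hwin
  refine hrf (t j) (htpos j) (t (j + 1)) (δf (rf (t j))) (htpos _) (hanti j) ?_ ?_ α β ι M N σ a b
    D P hM hN hMc hNc hS hD hP hDP hwj (hrect j hj)
  · have h1 : t (j + 1) ≤ δf (rf (t j)) * (η ^ 2 / (64 * T)) := by
      rw [hts]
      exact (min_le_right _ _).trans (min_le_left _ _)
    rw [div_le_iff₀ (by positivity)]
    have h2 : 64 * T * t (j + 1) ≤ 64 * T * (δf (rf (t j)) * (η ^ 2 / (64 * T))) :=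
      mul_le_mul_of_nonneg_left h1 (by positivity)
    have h3 : 64 * T * (δf (rf (t j)) * (η ^ 2 / (64 * T))) = δf (rf (t j)) * η ^ 2 := by
      field_simp
    linarith
  · have h1 : t (j + 1) ≤ η ^ 2 / (64 * T) := by
      rw [hts]
      exact (min_le_right _ _).trans (min_le_right _ _)
    calc t (j + 1) * T ≤ η ^ 2 / (64 * T) * T := mul_le_mul_of_nonneg_right h1 hT.le
      _ = η ^ 2 / 64 := by field_simp

/-- The scaled singular value decomposition. -/
lemma exists_scaled {α β : Type} [Fintype α] [Fintype β] [DecidableEq β] (D : Matrix α β ℝ)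
    (M N T : ℝ) (hM : 0 < M) (hN : 0 < N) (hD : nuc D ≤ T * Real.sqrt (M * N)) :
    ∃ (σ : β → ℝ) (a : β → α → ℝ) (b : β → β → ℝ), Scaled M N T σ a b ∧
      ∀ x y, D x y = ∑ i, a i x * b i y := by
  obtain ⟨s, u, v, h⟩ := exists_svd D
  set S : ℝ := Real.sqrt (M * N) with hSdef
  have hMN : 0 < M * N := mul_pos hM hN
  have hS : 0 < S := Real.sqrt_pos.2 hMN
  have hS2 : S ^ 2 = M * N := Real.sq_sqrt hMN.le
  have hσ0 : ∀ i, 0 ≤ s i / S := fun i => div_nonneg (h.nonneg i) hS.le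
  have hprod : ∀ i, Real.sqrt (s i / S * M) * Real.sqrt (s i / S * N) = s i := by
    intro i
    rw [← Real.sqrt_mul (mul_nonneg (hσ0 i) hM.le)]
    have h1 : s i / S * M * (s i / S * N) = s i ^ 2 := by
      have : s i / S * M * (s i / S * N) = s i ^ 2 * (M * N) / S ^ 2 := by
        field_simp
      rw [this, hS2]
      field_simp
    rw [h1, Real.sqrt_sq (h.nonneg i)]
  refine ⟨fun i => s i / S, fun i x => Real.sqrt (s i / S * M) * u i x,
    fun i y => Real.sqrt (s i / S * N) * v i y, ⟨hσ0, ?_, ?_, ?_, ?_⟩, ?_⟩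
  · rw [← Finset.sum_div, h.sum_eq, div_le_iff₀ hS]
    exact hD
  · intro i
    simp_rw [mul_pow, Real.sq_sqrt (mul_nonneg (hσ0 i) hM.le)]
    rw [← Finset.mul_sum]
    exact mul_le_of_le_one_right (mul_nonneg (hσ0 i) hM.le) (h.unorm_le i)
  · intro i
    simp_rw [mul_pow, Real.sq_sqrt (mul_nonneg (hσ0 i) hN.le)]
    rw [← Finset.mul_sum, h.vnorm i, mul_one]
  · intro Z
    have h1 : ∀ x y, ∑ i ∈ Z, Real.sqrt (s i / S * M) * u i x * (Real.sqrt (s i / S * N) * v i y)
        = ∑ i, (if i ∈ Z then s i else 0) * (u i x * v i y) := by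
      intro x y
      simp_rw [ite_mul, zero_mul]
      rw [← Finset.sum_filter]
      have h2 : (univ.filter fun i => i ∈ Z) = Z := by ext; simp
      rw [h2]
      refine Finset.sum_congr rfl fun i _ => ?_
      calc _ = (Real.sqrt (s i / S * M) * Real.sqrt (s i / S * N)) * (u i x * v i y) := by ring
        _ = _ := by rw [hprod]
    simp_rw [h1]
    rw [frob_sum u v h.uorth _ h.vorth]
    have h3 : ∀ i, (if i ∈ Z then s i else 0) ^ 2 * ((∑ a, u i a ^ 2) * ∑ b, v i b ^ 2)
        ≤ if i ∈ Z then s i ^ 2 else 0 := by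
      intro i
      rw [h.vnorm i, mul_one]
      split_ifs
      · exact mul_le_of_le_one_right (sq_nonneg _) (h.unorm_le i)
      · simp
    refine (Finset.sum_le_sum fun i _ => h3 i).trans (le_of_eq ?_)
    rw [← Finset.sum_filter]
    have h2 : (univ.filter fun i => i ∈ Z) = Z := by ext; simp
    rw [h2, Finset.mul_sum]
    refine Finset.sum_congr rfl fun i _ => ?_
    rw [div_pow, hS2]
    field_simp
  · intro x y
    rw [h.eq]
    refine Finset.sum_congr rfl fun i _ => ?_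
    calc s i * (u i x * v i y)
        = (Real.sqrt (s i / S * M) * Real.sqrt (s i / S * N)) * (u i x * v i y) := by rw [hprod]
      _ = _ := by ring

end Pool.Agent.R208.Nuc
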