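import Pool.Agent.R208.NucScale

/-!
# The one-scale lemma, assembled
-/

namespace Pool.Agent.R208.Nuc

open Finset

lemma split_three {ι : Type} [Fintype ι] (σ : ι → ℝ) (t t' : ℝ) (htt : t' ≤ t) (f : ι → ℝ) :
    ∑ i, f i = ∑ i ∈ univ.filter (fun i => t ≤ σ i), f i
      + ∑ i ∈ univ.filter (fun i => t' ≤ σ i ∧ σ i < t), f i
      + ∑ i ∈ univ.filter (fun i => σ i < t'), f i := by
  rw [Finset.sum_filter, Finset.sum_filter, Finset.sum_filter, ← Finset.sum_add_distrib,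
    ← Finset.sum_add_distrib]
  refine Finset.sum_congr rfl fun i _ => ?_
  by_cases h1 : t ≤ σ i
  · have h2 : ¬ σ i < t := not_lt.2 h1
    have h3 : ¬ σ i < t' := not_lt.2 (htt.trans h1)
    simp [h1, h2, h3]
  · have h2 : σ i < t := not_le.1 h1
    by_cases h3 : σ i < t'
    · have h4 : ¬ t' ≤ σ i := not_le.2 h3
      simp [h1, h3, h4]
    · have h4 : t' ≤ σ i := not_lt.1 h3
      simp [h1, h2, h3, h4]

lemma one_scale (T ε η : ℝ) (hT : 0 < T) (hε : 0 < ε) (hη : 0 < η) (t : ℝ) (ht : 0 < t) :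
    ∃ ρ : ℝ, 0 < ρ ∧ ∀ (t' δ : ℝ), 0 < t' → t' ≤ t → 64 * t' * T / η ^ 2 ≤ δ →
      t' * T ≤ η ^ 2 / 64 →
      ∀ (α β ι : Type) [Fintype α] [Fintype β] [Fintype ι] [DecidableEq α] [DecidableEq β]
        (M N : ℝ) (σ : ι → ℝ) (a : ι → α → ℝ) (b : ι → β → ℝ) (D P : α → β → ℝ),
        0 < M → 0 < N → M = Fintype.card α → N = Fintype.card β →
        Scaled M N T σ a b → (∀ x y, D x y = ∑ i, a i x * b i y) →
        (∀ x y, P x y = 0 ∨ P x y = 1) → (∀ x y, D x y * P x y = 0) →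
        (∑ i ∈ univ.filter (fun i => t' ≤ σ i ∧ σ i < t), σ i ≤ η / 16 * ε) →
        (∀ (R : Finset α) (C : Finset β), ρ * (M * N) ≤ R.card * C.card →
          δ * (M * N) < ∑ x ∈ R, ∑ y ∈ C, P x y) →
        ∃ (R : Finset α) (C : Finset β), (R.card : ℝ) ≤ 2 * ε * M ∧ (C.card : ℝ) ≤ 2 * ε * N ∧
          ∑ x ∈ Rᶜ, ∑ y ∈ Cᶜ, D x y ^ 2 ≤ η ^ 2 * (M * N) := by
  set g : ℝ := Real.sqrt (T / ε) with hgdef
  have hg : 0 < g := Real.sqrt_pos.2 (by positivity)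
  have hg2 : g ^ 2 = T / ε := Real.sq_sqrt (by positivity)
  set θ : ℝ := η / 16 with hθdef
  have hθ : 0 < θ := by positivity
  set Q : ℕ := ⌈T / t⌉₊ with hQdef
  set h : ℝ := θ / (2 * (Q + 1) * g) with hhdef
  have hh : 0 < h := by positivity
  set N₀ : ℕ := ⌈g / h⌉₊ with hN₀def
  have hN₀ : g / h ≤ N₀ := Nat.le_ceil _
  have hKpos : (0:ℝ) < (((2 * N₀ + 1) ^ Q) ^ 2 : ℕ) := by
    have : 0 < ((2 * N₀ + 1) ^ Q) ^ 2 := by positivity
    exact_mod_cast this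
  refine ⟨3 / 16 * η ^ 2 / (g ^ 2) ^ 2 / (((2 * N₀ + 1) ^ Q) ^ 2 : ℕ), by positivity, ?_⟩
  intro t' δ ht' htt hδ ht'T α β ι _ _ _ _ _ M N σ a b D P hM hN hMc hNc hS hD hP hDP hwin hrect
  set I : Finset ι := univ.filter (fun i => t ≤ σ i) with hI
  set W : Finset ι := univ.filter (fun i => t' ≤ σ i ∧ σ i < t) with hW
  set Z : Finset ι := univ.filter (fun i => σ i < t') with hZ
  have hMN : 0 < M * N := mul_pos hM hN
  -- size of `I`
  have hIcard : I.card ≤ Q := by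
    have h1 : (I.card : ℝ) * t ≤ T := by
      calc (I.card : ℝ) * t = ∑ i ∈ I, t := by simp
        _ ≤ ∑ i ∈ I, σ i := Finset.sum_le_sum fun i hi => (Finset.mem_filter.1 hi).2
        _ ≤ ∑ i, σ i := Finset.sum_le_sum_of_subset_of_nonneg (Finset.subset_univ _)
            fun i _ _ => hS.nonneg i
        _ ≤ T := hS.sum_le
    have h2 : (I.card : ℝ) ≤ T / t := by rwa [le_div_iff₀ ht]
    have h3 : (I.card : ℝ) ≤ Q := h2.trans (Nat.le_ceil _)
    exact_mod_cast h3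
  -- tail
  have htail : ∑ x, ∑ y, (∑ i ∈ Z, a i x * b i y) ^ 2 ≤ M * N * (t' * T) := by
    refine (hS.frob Z).trans (mul_le_mul_of_nonneg_left ?_ hMN.le)
    calc ∑ i ∈ Z, σ i ^ 2 ≤ ∑ i ∈ Z, t' * σ i := by
          refine Finset.sum_le_sum fun i hi => ?_
          rw [sq]
          exact mul_le_mul_of_nonneg_right (Finset.mem_filter.1 hi).2.le (hS.nonneg i)
      _ = t' * ∑ i ∈ Z, σ i := by rw [Finset.mul_sum]
      _ ≤ t' * T := by
          refine mul_le_mul_of_nonneg_left ?_ ht'.le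
          exact (Finset.sum_le_sum_of_subset_of_nonneg (Finset.subset_univ _)
            fun i _ _ => hS.nonneg i).trans hS.sum_le
  set R : Finset α := (univ.filter fun x => θ < ∑ i ∈ W, a i x ^ 2) ∪
      (univ.filter fun x => T / ε < ∑ i ∈ I, a i x ^ 2) with hR
  set C : Finset β := (univ.filter fun y => θ < ∑ i ∈ W, b i y ^ 2) ∪
      (univ.filter fun y => T / ε < ∑ i ∈ I, b i y ^ 2) with hC
  refine ⟨R, C, bad_card hM hε hT hθ hS.nonneg hS.sum_le hS.ha I W hwin,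
    bad_card hN hε hT hθ hS.nonneg hS.sum_le hS.hb I W hwin, ?_⟩
  by_contra hcon
  push Not at hcon
  have hgR : ∀ x ∈ Rᶜ, ∑ i ∈ W, a i x ^ 2 ≤ θ ∧ ∑ i ∈ I, a i x ^ 2 ≤ g ^ 2 := by
    intro x hx
    simp only [hR, Finset.mem_compl, Finset.mem_union, Finset.mem_filter, Finset.mem_univ,
      true_and, not_or, not_lt] at hx
    rw [hg2]; exact hx
  have hgC : ∀ y ∈ Cᶜ, ∑ i ∈ W, b i y ^ 2 ≤ θ ∧ ∑ i ∈ I, b i y ^ 2 ≤ g ^ 2 := by
    intro x hx
    simp only [hC, Finset.mem_compl, Finset.mem_union, Finset.mem_filter, Finset.mem_univ,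
      true_and, not_or, not_lt] at hx
    rw [hg2]; exact hx
  set B : α → β → ℝ := fun x y => ∑ i ∈ I, a i x * b i y with hBdef
  set Mf : α → β → ℝ := fun x y => ∑ i ∈ W, a i x * b i y with hMfdef
  set Tf : α → β → ℝ := fun x y => ∑ i ∈ Z, a i x * b i y with hTfdef
  have hdec : ∀ x y, D x y = B x y + Mf x y + Tf x y := by
    intro x y
    rw [hD x y]
    exact split_three σ t t' htt _
  have hBb : ∀ x ∈ Rᶜ, ∀ y ∈ Cᶜ, B x y ^ 2 ≤ (g ^ 2) ^ 2 := by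
    intro x hx y hy
    calc B x y ^ 2 ≤ (∑ i ∈ I, a i x ^ 2) * ∑ i ∈ I, b i y ^ 2 :=
          Finset.sum_mul_sq_le_sq_mul_sq _ _ _
      _ ≤ g ^ 2 * g ^ 2 := mul_le_mul (hgR x hx).2 (hgC y hy).2
          (Finset.sum_nonneg fun i _ => sq_nonneg _) (by positivity)
      _ = (g ^ 2) ^ 2 := by ring
  have hMb : ∀ x ∈ Rᶜ, ∀ y ∈ Cᶜ, Mf x y ^ 2 ≤ θ ^ 2 := by
    intro x hx y hy
    calc Mf x y ^ 2 ≤ (∑ i ∈ W, a i x ^ 2) * ∑ i ∈ W, b i y ^ 2 :=
          Finset.sum_mul_sq_le_sq_mul_sq _ _ _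
      _ ≤ θ * θ := mul_le_mul (hgR x hx).1 (hgC y hy).1
          (Finset.sum_nonneg fun i _ => sq_nonneg _) hθ.le
      _ = θ ^ 2 := by ring
  have hRc : (Rᶜ.card : ℝ) ≤ M := by
    rw [hMc]; exact_mod_cast Finset.card_le_univ _
  have hCc : (Cᶜ.card : ℝ) ≤ N := by
    rw [hNc]; exact_mod_cast Finset.card_le_univ _
  have hRCc : (Rᶜ.card : ℝ) * Cᶜ.card ≤ M * N :=
    mul_le_mul hRc hCc (Nat.cast_nonneg _) hM.le
  have htail' : ∑ x ∈ Rᶜ, ∑ y ∈ Cᶜ, Tf x y ^ 2 ≤ M * N * (t' * T) := by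
    refine le_trans ?_ htail
    refine le_trans (Finset.sum_le_sum fun x _ =>
      Finset.sum_le_sum_of_subset_of_nonneg (Finset.subset_univ _) fun y _ _ => sq_nonneg _) ?_
    exact Finset.sum_le_sum_of_subset_of_nonneg (Finset.subset_univ _) fun x _ _ =>
      Finset.sum_nonneg fun y _ => sq_nonneg _
  have hMs : ∑ x ∈ Rᶜ, ∑ y ∈ Cᶜ, Mf x y ^ 2 ≤ M * N * θ ^ 2 := by
    calc ∑ x ∈ Rᶜ, ∑ y ∈ Cᶜ, Mf x y ^ 2 ≤ ∑ x ∈ Rᶜ, ∑ y ∈ Cᶜ, θ ^ 2 :=
          Finset.sum_le_sum fun x hx => Finset.sum_le_sum fun y hy => hMb x hx y hy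
      _ = (Rᶜ.card : ℝ) * Cᶜ.card * θ ^ 2 := by
          simp only [Finset.sum_const, nsmul_eq_mul]; ring
      _ ≤ M * N * θ ^ 2 := mul_le_mul_of_nonneg_right hRCc (by positivity)
  have hBlow : η ^ 2 / 4 * (M * N) ≤ ∑ x ∈ Rᶜ, ∑ y ∈ Cᶜ, B x y ^ 2 := by
    have h1 : ∑ x ∈ Rᶜ, ∑ y ∈ Cᶜ, D x y ^ 2 ≤ 3 * (∑ x ∈ Rᶜ, ∑ y ∈ Cᶜ, B x y ^ 2
        + ∑ x ∈ Rᶜ, ∑ y ∈ Cᶜ, Mf x y ^ 2 + ∑ x ∈ Rᶜ, ∑ y ∈ Cᶜ, Tf x y ^ 2) := by
      rw [← Finset.sum_add_distrib, ← Finset.sum_add_distrib, Finset.mul_sum]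
      refine Finset.sum_le_sum fun x _ => ?_
      rw [← Finset.sum_add_distrib, ← Finset.sum_add_distrib, Finset.mul_sum]
      refine Finset.sum_le_sum fun y _ => ?_
      rw [hdec x y]
      nlinarith [sq_nonneg (B x y - Mf x y), sq_nonneg (B x y - Tf x y),
        sq_nonneg (Mf x y - Tf x y)]
    have h2 : M * N * (t' * T) ≤ M * N * (η ^ 2 / 64) := mul_le_mul_of_nonneg_left ht'T hMN.le
    have h3 : θ ^ 2 = η ^ 2 / 256 := by rw [hθdef]; ring
    rw [h3] at hMs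
    have h4 : 0 < η ^ 2 * (M * N) := by positivity
    linarith
  -- the set where the main part is large
  set E : Finset (α × β) := (Rᶜ ×ˢ Cᶜ).filter (fun p => η / 4 ≤ |B p.1 p.2|) with hE
  have hEcard : 3 / 16 * η ^ 2 * (M * N) ≤ E.card * (g ^ 2) ^ 2 := by
    have h1 : ∑ x ∈ Rᶜ, ∑ y ∈ Cᶜ, B x y ^ 2 ≤ E.card * (g ^ 2) ^ 2 + M * N * (η ^ 2 / 16) := by
      rw [← Finset.sum_product' (Rᶜ) (Cᶜ) (fun x y => B x y ^ 2)]
      have h2 : ∀ p ∈ Rᶜ ×ˢ Cᶜ, B p.1 p.2 ^ 2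
          ≤ (if η / 4 ≤ |B p.1 p.2| then (g ^ 2) ^ 2 else 0) + η ^ 2 / 16 := by
        intro p hp
        rw [Finset.mem_product] at hp
        split_ifs with hc
        · have h0 := hBb p.1 hp.1 p.2 hp.2
          have h00 : 0 ≤ η ^ 2 / 16 := by positivity
          linarith
        · push Not at hc
          have h3 : B p.1 p.2 ^ 2 ≤ (η / 4) ^ 2 := by
            rw [← sq_abs]
            exact pow_le_pow_left₀ (abs_nonneg _) hc.le 2
          have h33 : (η / 4) ^ 2 = η ^ 2 / 16 := by ring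
          linarith
      refine (Finset.sum_le_sum h2).trans ?_
      rw [Finset.sum_add_distrib, ← Finset.sum_filter, Finset.sum_const, Finset.sum_const,
        nsmul_eq_mul, nsmul_eq_mul, Finset.card_product]
      push_cast
      have h5 : (Rᶜ.card : ℝ) * Cᶜ.card * (η ^ 2 / 16) ≤ M * N * (η ^ 2 / 16) :=
        mul_le_mul_of_nonneg_right hRCc (by positivity)
      linarith
    linarith
  have hEpos : 0 < E.card := by
    rcases Nat.eq_zero_or_pos E.card with h0 | h0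
    · exfalso
      rw [h0] at hEcard
      have : 0 < 3 / 16 * η ^ 2 * (M * N) := by positivity
      push_cast at hEcard
      linarith
    · exact h0
  have hEgood : ∀ p ∈ E, ∑ i ∈ I, a i p.1 ^ 2 ≤ g ^ 2 ∧ ∑ i ∈ I, b i p.2 ^ 2 ≤ g ^ 2 := by
    intro p hp
    rw [hE, Finset.mem_filter, Finset.mem_product] at hp
    exact ⟨(hgR _ hp.1.1).2, (hgC _ hp.1.2).2⟩
  obtain ⟨p, hp, E', hE'sub, hE'card, hE'cell⟩ := cells_pigeon hh I Q N₀ hIcard hN₀ hg E hEgood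
    (Finset.card_pos.1 hEpos)
  have hp' := hp
  rw [hE, Finset.mem_filter, Finset.mem_product] at hp'
  set Rc : Finset α := Rᶜ.filter (fun x => ∀ i ∈ I, ⌊a i x / h⌋ = ⌊a i p.1 / h⌋) with hRcdef
  set Cc : Finset β := Cᶜ.filter (fun y => ∀ i ∈ I, ⌊b i y / h⌋ = ⌊b i p.2 / h⌋) with hCcdef
  have hE'prod : E' ⊆ Rc ×ˢ Cc := by
    intro q hq
    have h1 := hE'sub hq
    rw [hE, Finset.mem_filter, Finset.mem_product] at h1
    rw [Finset.mem_product, hRcdef, hCcdef, Finset.mem_filter, Finset.mem_filter]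
    exact ⟨⟨h1.1.1, (hE'cell q hq).1⟩, h1.1.2, (hE'cell q hq).2⟩
  have hcardprod : (E'.card : ℝ) ≤ Rc.card * Cc.card := by
    have := Finset.card_le_card hE'prod
    rw [Finset.card_product] at this
    exact_mod_cast this
  have hbig : 3 / 16 * η ^ 2 / (g ^ 2) ^ 2 / (((2 * N₀ + 1) ^ Q) ^ 2 : ℕ) * (M * N)
      ≤ Rc.card * Cc.card := by
    refine le_trans ?_ (hE'card.trans hcardprod)
    rw [div_mul_eq_mul_div]
    refine div_le_div_of_nonneg_right ?_ hKpos.le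
    rw [div_mul_eq_mul_div, div_le_iff₀ (by positivity)]
    exact hEcard
  have hlt := hrect Rc Cc hbig
  -- the main part is large on the product of cells
  have hclose : 2 * Q * h * g ≤ θ := by
    rw [hhdef]
    have h1 : 2 * (Q:ℝ) * (θ / (2 * (Q + 1) * g)) * g = θ * (Q / (Q + 1)) := by
      field_simp
    rw [h1]
    refine mul_le_of_le_one_right hθ.le ?_
    rw [div_le_one (by positivity)]
    linarith
  have hpt : ∀ x ∈ Rc, ∀ y ∈ Cc, P x y * (η ^ 2 / 64) ≤ Tf x y ^ 2 := by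
    intro x hx y hy
    rw [hRcdef, Finset.mem_filter] at hx
    rw [hCcdef, Finset.mem_filter] at hy
    rcases hP x y with h0 | h1
    · rw [h0, zero_mul]; positivity
    · have hD0 : D x y = 0 := by have := hDP x y; rwa [h1, mul_one] at this
      rw [hdec x y] at hD0
      have h2 := cell_close (a := a) (b := b) hg hh I Q hIcard (x := x) (x' := p.1) (y := y)
        (y' := p.2) (hEgood p hp).1 (hgC y hy.1).2 hx.2 hy.2
      have h3 : |B x y - B p.1 p.2| ≤ θ := h2.trans hclose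
      have h4 : η / 4 ≤ |B p.1 p.2| := hp'.2
      have h5 : |B p.1 p.2| ≤ |B x y| + |B x y - B p.1 p.2| := by
        have : B p.1 p.2 = B x y - (B x y - B p.1 p.2) := by ring
        calc |B p.1 p.2| = |B x y - (B x y - B p.1 p.2)| := by rw [← this]
          _ ≤ |B x y| + |B x y - B p.1 p.2| := abs_sub _ _
      have h6 : |Mf x y| ≤ θ := abs_le_of_sq_le_sq (hMb x hx.1 y hy.1) hθ.le
      have h7 : |B x y| ≤ |Mf x y| + |Tf x y| := by
        have : B x y = -(Mf x y) + -(Tf x y) := by linarith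
        rw [this]
        calc |-(Mf x y) + -(Tf x y)| ≤ |-(Mf x y)| + |-(Tf x y)| := abs_add_le _ _
          _ = |Mf x y| + |Tf x y| := by rw [abs_neg, abs_neg]
      have h8 : η / 8 ≤ |Tf x y| := by
        rw [hθdef] at h3 h6
        linarith
      have h9 : (η / 8) ^ 2 ≤ Tf x y ^ 2 := by
        rw [← sq_abs (Tf x y)]
        exact pow_le_pow_left₀ (by positivity) h8 2
      have h99 : (η / 8) ^ 2 = η ^ 2 / 64 := by ring
      rw [h1]
      linarith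
  have hsumP : (∑ x ∈ Rc, ∑ y ∈ Cc, P x y) * (η ^ 2 / 64) ≤ M * N * (t' * T) := by
    rw [Finset.sum_mul]
    simp_rw [Finset.sum_mul]
    refine (Finset.sum_le_sum fun x hx => Finset.sum_le_sum fun y hy => hpt x hx y hy).trans ?_
    refine le_trans ?_ htail
    refine le_trans (Finset.sum_le_sum fun x _ =>
      Finset.sum_le_sum_of_subset_of_nonneg (Finset.subset_univ _) fun y _ _ => sq_nonneg _) ?_
    exact Finset.sum_le_sum_of_subset_of_nonneg (Finset.subset_univ _) fun x _ _ =>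
      Finset.sum_nonneg fun y _ => sq_nonneg _
  have h10 : δ * (M * N) * (η ^ 2 / 64) < M * N * (t' * T) :=
    lt_of_lt_of_le (mul_lt_mul_of_pos_right hlt (by positivity)) hsumP
  have h11 : 64 * t' * T / η ^ 2 * (M * N) * (η ^ 2 / 64) ≤ δ * (M * N) * (η ^ 2 / 64) := by
    refine mul_le_mul_of_nonneg_right ?_ (by positivity)
    exact mul_le_mul_of_nonneg_right hδ hMN.le
  have h12 : 64 * t' * T / η ^ 2 * (M * N) * (η ^ 2 / 64) = M * N * (t' * T) := by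
    field_simp
  linarith

end Pool.Agent.R208.Nuc
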