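import Pool.Agent.R208.NucSvd

/-!
# The one-scale lemma
-/

namespace Pool.Agent.R208.Nuc

open Finset

/-- Markov's inequality for counting. -/
lemma markov {α : Type*} [Fintype α] (f : α → ℝ) (hf : ∀ x, 0 ≤ f x) (lam c : ℝ) (hl : 0 < lam)
    (hs : ∑ x, f x ≤ c * lam) : ((univ.filter fun x => lam < f x).card : ℝ) ≤ c := by
  have h1 : ((univ.filter fun x => lam < f x).card : ℝ) * lam ≤ ∑ x, f x := by
    calc ((univ.filter fun x => lam < f x).card : ℝ) * lam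
        = ∑ x ∈ univ.filter (fun x => lam < f x), lam := by simp
      _ ≤ ∑ x ∈ univ.filter (fun x => lam < f x), f x :=
          Finset.sum_le_sum fun x hx => (Finset.mem_filter.1 hx).2.le
      _ ≤ ∑ x, f x := Finset.sum_le_sum_of_subset_of_nonneg (Finset.subset_univ _)
          fun x _ _ => hf x
  exact le_of_mul_le_mul_right (h1.trans hs) hl

/-- A scaled decomposition `D x y = ∑ i, a i x * b i y`. -/
structure Scaled {α β ι : Type} [Fintype α] [Fintype β] [Fintype ι] (M N T : ℝ)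
    (σ : ι → ℝ) (a : ι → α → ℝ) (b : ι → β → ℝ) : Prop where
  nonneg : ∀ i, 0 ≤ σ i
  sum_le : ∑ i, σ i ≤ T
  ha : ∀ i, ∑ x, a i x ^ 2 ≤ σ i * M
  hb : ∀ i, ∑ y, b i y ^ 2 ≤ σ i * N
  frob : ∀ S : Finset ι, ∑ x, ∑ y, (∑ i ∈ S, a i x * b i y) ^ 2 ≤ M * N * ∑ i ∈ S, σ i ^ 2

section onescale

variable {α β ι : Type} [Fintype α] [Fintype β] [Fintype ι]

/-- The bad set of rows is small. -/
lemma bad_card {M T ε θ : ℝ} {σ : ι → ℝ} {a : ι → α → ℝ} [DecidableEq α] (hM : 0 < M) (hε : 0 < ε)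
    (hT : 0 < T) (hθ : 0 < θ)
    (hnn : ∀ i, 0 ≤ σ i) (hsum : ∑ i, σ i ≤ T) (ha : ∀ i, ∑ x, a i x ^ 2 ≤ σ i * M)
    (I W : Finset ι) (hW : ∑ i ∈ W, σ i ≤ θ * ε) :
    (((univ.filter fun x => θ < ∑ i ∈ W, a i x ^ 2) ∪
      (univ.filter fun x => T / ε < ∑ i ∈ I, a i x ^ 2)).card : ℝ) ≤ 2 * ε * M := by
  have h1 : ((univ.filter fun x => θ < ∑ i ∈ W, a i x ^ 2).card : ℝ) ≤ ε * M := by
    refine markov _ (fun x => Finset.sum_nonneg fun i _ => sq_nonneg _) _ _ hθ ?_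
    rw [Finset.sum_comm]
    calc ∑ i ∈ W, ∑ x, a i x ^ 2 ≤ ∑ i ∈ W, σ i * M := Finset.sum_le_sum fun i _ => ha i
      _ = (∑ i ∈ W, σ i) * M := by rw [Finset.sum_mul]
      _ ≤ (θ * ε) * M := mul_le_mul_of_nonneg_right hW hM.le
      _ = ε * M * θ := by ring
  have h2 : ((univ.filter fun x => T / ε < ∑ i ∈ I, a i x ^ 2).card : ℝ) ≤ ε * M := by
    refine markov _ (fun x => Finset.sum_nonneg fun i _ => sq_nonneg _) _ _ (by positivity) ?_
    rw [Finset.sum_comm]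
    calc ∑ i ∈ I, ∑ x, a i x ^ 2 ≤ ∑ i ∈ I, σ i * M := Finset.sum_le_sum fun i _ => ha i
      _ = (∑ i ∈ I, σ i) * M := by rw [Finset.sum_mul]
      _ ≤ T * M := by
          refine mul_le_mul_of_nonneg_right ?_ hM.le
          exact (Finset.sum_le_sum_of_subset_of_nonneg (Finset.subset_univ _)
            fun i _ _ => hnn i).trans hsum
      _ = ε * M * (T / ε) := by field_simp
  have h3 := Finset.card_union_le (univ.filter fun x => θ < ∑ i ∈ W, a i x ^ 2)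
    (univ.filter fun x => T / ε < ∑ i ∈ I, a i x ^ 2)
  have h4 : (((univ.filter fun x => θ < ∑ i ∈ W, a i x ^ 2) ∪
      (univ.filter fun x => T / ε < ∑ i ∈ I, a i x ^ 2)).card : ℝ)
      ≤ ((univ.filter fun x => θ < ∑ i ∈ W, a i x ^ 2).card : ℝ)
        + ((univ.filter fun x => T / ε < ∑ i ∈ I, a i x ^ 2).card : ℝ) := by exact_mod_cast h3
  linarith

/-- Two points in the same cell have close values of the main part. -/
lemma cell_close {g h : ℝ} (hg : 0 < g) (hh : 0 < h) (I : Finset ι) (Q : ℕ) (hQ : I.card ≤ Q)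
    {a : ι → α → ℝ} {b : ι → β → ℝ} {x x' : α} {y y' : β}
    (hx' : ∑ i ∈ I, a i x' ^ 2 ≤ g ^ 2) (hy : ∑ i ∈ I, b i y ^ 2 ≤ g ^ 2)
    (hxx : ∀ i ∈ I, ⌊a i x / h⌋ = ⌊a i x' / h⌋) (hyy : ∀ i ∈ I, ⌊b i y / h⌋ = ⌊b i y' / h⌋) :
    |∑ i ∈ I, a i x * b i y - ∑ i ∈ I, a i x' * b i y'| ≤ 2 * Q * h * g := by
  have key : ∀ p q : ℝ, ⌊p / h⌋ = ⌊q / h⌋ → |p - q| ≤ h := by
    intro p q hpq
    have := Int.abs_sub_lt_one_of_floor_eq_floor hpq
    rw [← sub_div, abs_div, abs_of_pos hh, div_lt_one hh] at this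
    exact this.le
  have hb : ∀ i ∈ I, |b i y| ≤ g := by
    intro i hi
    refine abs_le_of_sq_le_sq ?_ hg.le
    exact (Finset.single_le_sum (f := fun i => b i y ^ 2) (fun i _ => sq_nonneg _) hi).trans hy
  have ha : ∀ i ∈ I, |a i x'| ≤ g := by
    intro i hi
    refine abs_le_of_sq_le_sq ?_ hg.le
    exact (Finset.single_le_sum (f := fun i => a i x' ^ 2) (fun i _ => sq_nonneg _) hi).trans hx'
  rw [← Finset.sum_sub_distrib]
  calc |∑ i ∈ I, (a i x * b i y - a i x' * b i y')|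
      ≤ ∑ i ∈ I, |a i x * b i y - a i x' * b i y'| := Finset.abs_sum_le_sum_abs _ _
    _ ≤ ∑ i ∈ I, 2 * h * g := by
        refine Finset.sum_le_sum fun i hi => ?_
        have e : a i x * b i y - a i x' * b i y' = (a i x - a i x') * b i y
            + a i x' * (b i y - b i y') := by ring
        rw [e]
        refine (abs_add_le _ _).trans ?_
        rw [abs_mul, abs_mul]
        have h1 := mul_le_mul (key _ _ (hxx i hi)) (hb i hi) (abs_nonneg _) hh.le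
        have h2 := mul_le_mul (ha i hi) (key _ _ (hyy i hi)) (abs_nonneg _) hg.le
        linarith
    _ = I.card * (2 * h * g) := by rw [Finset.sum_const, nsmul_eq_mul]
    _ ≤ Q * (2 * h * g) := by
        refine mul_le_mul_of_nonneg_right ?_ (by positivity)
        exact_mod_cast hQ
    _ = 2 * Q * h * g := by ring

/-- The pigeonhole step: a large set of pairs meets a product of cells in a large set. -/
lemma cells_pigeon {g h : ℝ} (hh : 0 < h) (I : Finset ι) (Q N₀ : ℕ) (hQ : I.card ≤ Q)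
    (hN₀ : g / h ≤ N₀) {a : ι → α → ℝ} {b : ι → β → ℝ} (hg : 0 < g)
    (E : Finset (α × β)) (hE : ∀ p ∈ E, ∑ i ∈ I, a i p.1 ^ 2 ≤ g ^ 2 ∧ ∑ i ∈ I, b i p.2 ^ 2 ≤ g ^ 2)
    (hne : E.Nonempty) :
    ∃ p ∈ E, ∃ E' : Finset (α × β), E' ⊆ E ∧
      (E.card : ℝ) / (((2 * N₀ + 1) ^ Q) ^ 2 : ℕ) ≤ (E'.card : ℝ) ∧
      ∀ q ∈ E', (∀ i ∈ I, ⌊a i q.1 / h⌋ = ⌊a i p.1 / h⌋) ∧
        (∀ i ∈ I, ⌊b i q.2 / h⌋ = ⌊b i p.2 / h⌋) := by
  classical
  set ca : α → ι → ℤ := fun x i => if i ∈ I then ⌊a i x / h⌋ else 0 with hca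
  set cb : β → ι → ℤ := fun y i => if i ∈ I then ⌊b i y / h⌋ else 0 with hcb
  set F : Finset (ι → ℤ) := Fintype.piFinset
    (fun i => if i ∈ I then Finset.Icc (-(N₀ : ℤ)) N₀ else {0}) with hF
  have hrange : ∀ p : ℝ, |p| ≤ g → ⌊p / h⌋ ∈ Finset.Icc (-(N₀ : ℤ)) N₀ := by
    intro p hp
    rw [abs_le] at hp
    rw [Finset.mem_Icc]
    constructor
    · rw [Int.le_floor]
      push_cast
      calc -(N₀ : ℝ) ≤ -(g / h) := neg_le_neg hN₀
        _ = (-g) / h := by ring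
        _ ≤ p / h := div_le_div_of_nonneg_right hp.1 hh.le
    · have h1 : p / h ≤ N₀ := (div_le_div_of_nonneg_right hp.2 hh.le).trans hN₀
      have h2 : (⌊p / h⌋ : ℝ) ≤ (N₀ : ℝ) := (Int.floor_le _).trans h1
      exact_mod_cast h2
  have hmapF : ∀ (γ : Type) (c : ι → γ → ℝ) (z : γ), ∑ i ∈ I, c i z ^ 2 ≤ g ^ 2 →
      (fun i => if i ∈ I then ⌊c i z / h⌋ else 0) ∈ F := by
    intro γ c z hz
    rw [hF, Fintype.mem_piFinset]
    intro i
    by_cases hi : i ∈ I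
    · simp only [hi, if_true]
      apply hrange
      refine abs_le_of_sq_le_sq ?_ hg.le
      exact (Finset.single_le_sum (f := fun i => c i z ^ 2) (fun i _ => sq_nonneg _) hi).trans hz
    · simp [hi]
  have hFcard : F.card ≤ (2 * N₀ + 1) ^ Q := by
    rw [hF, Fintype.card_piFinset]
    have h1 : ∀ i, (if i ∈ I then Finset.Icc (-(N₀ : ℤ)) N₀ else {0}).card
        = if i ∈ I then 2 * N₀ + 1 else 1 := by
      intro i
      split_ifs
      · rw [Int.card_Icc]; omega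
      · simp
    simp_rw [h1]
    rw [Finset.prod_ite, Finset.prod_const_one, mul_one, Finset.prod_const]
    have h2 : (univ.filter fun i => i ∈ I) = I := by ext; simp
    rw [h2]
    exact Nat.pow_le_pow_right (by omega) hQ
  set Φ : α × β → (ι → ℤ) × (ι → ℤ) := fun p => (ca p.1, cb p.2) with hΦ
  have hmaps : ∀ p ∈ E, Φ p ∈ F ×ˢ F := by
    intro p hp
    rw [Finset.mem_product]
    exact ⟨hmapF α a p.1 (hE p hp).1, hmapF β b p.2 (hE p hp).2⟩
  have hprod : ((F ×ˢ F).card : ℝ) ≤ (((2 * N₀ + 1) ^ Q) ^ 2 : ℕ) := by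
    have : (F ×ˢ F).card ≤ ((2 * N₀ + 1) ^ Q) ^ 2 := by
      rw [Finset.card_product, sq]
      exact Nat.mul_le_mul hFcard hFcard
    exact_mod_cast this
  have hKpos : (0:ℝ) < (((2 * N₀ + 1) ^ Q) ^ 2 : ℕ) := by
    have : 0 < ((2 * N₀ + 1) ^ Q) ^ 2 := by positivity
    exact_mod_cast this
  have hFFne : (F ×ˢ F).Nonempty := by
    obtain ⟨p, hp⟩ := hne
    exact ⟨_, hmaps p hp⟩
  obtain ⟨c, hc, hcard⟩ := Finset.exists_le_card_fiber_of_nsmul_le_card_of_maps_to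
    (s := E) (t := F ×ˢ F) (f := Φ) (b := (E.card : ℝ) / (((2 * N₀ + 1) ^ Q) ^ 2 : ℕ)) hmaps hFFne
    (by
      rw [nsmul_eq_mul]
      calc ((F ×ˢ F).card : ℝ) * ((E.card : ℝ) / (((2 * N₀ + 1) ^ Q) ^ 2 : ℕ))
          ≤ (((2 * N₀ + 1) ^ Q) ^ 2 : ℕ) * ((E.card : ℝ) / (((2 * N₀ + 1) ^ Q) ^ 2 : ℕ)) :=
            mul_le_mul_of_nonneg_right hprod (by positivity)
        _ = E.card := by field_simp)
  have hEpos : (0:ℝ) < E.card := by exact_mod_cast hne.card_pos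
  have hfpos : (0:ℝ) < ((E.filter fun x => Φ x = c).card : ℝ) :=
    lt_of_lt_of_le (by positivity) hcard
  have hfne : (E.filter fun x => Φ x = c).Nonempty := by
    rw [← Finset.card_pos]; exact_mod_cast hfpos
  obtain ⟨p, hp⟩ := hfne
  rw [Finset.mem_filter] at hp
  refine ⟨p, hp.1, E.filter fun x => Φ x = c, Finset.filter_subset _ _, hcard, ?_⟩
  intro q hq
  rw [Finset.mem_filter] at hq
  refine ⟨?_, ?_⟩
  · intro i hi
    have h1 : Φ q = Φ p := hq.2.trans hp.2.symm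
    have h2 : ca q.1 = ca p.1 := congrArg Prod.fst h1
    have h3 := congrFun h2 i
    simpa [hca, hi] using h3
  · intro i hi
    have h1 : Φ q = Φ p := hq.2.trans hp.2.symm
    have h2 : cb q.2 = cb p.2 := congrArg Prod.snd h1
    have h3 := congrFun h2 i
    simpa [hcb, hi] using h3

end onescale

end Pool.Agent.R208.Nuc
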