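import Mathlib

/-!
# Singular value decomposition, the nuclear norm and its duality

Everything is stated with finite sums of real numbers.
-/

namespace Pool.Agent.R208.Nuc

open Matrix Finset

/-- The nuclear norm of a real matrix: the sum of its singular values, i.e. of the square roots of
the eigenvalues of `Xᴴ X`. -/
noncomputable def nuc {α β : Type*} [Fintype α] [Fintype β] [DecidableEq β]
    (X : Matrix α β ℝ) : ℝ :=
  ∑ i, Real.sqrt ((isHermitian_conjTranspose_mul_self X).eigenvalues i)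

section basic

variable {ι α β : Type*} [Fintype ι] [Fintype α] [Fintype β]

/-- Pythagoras for a finite orthogonal family. -/
lemma orth_sum_sq (w : ι → α → ℝ) (horth : ∀ i j, i ≠ j → ∑ a, w i a * w j a = 0) (c : ι → ℝ) :
    ∑ a, (∑ i, c i * w i a) ^ 2 = ∑ i, c i ^ 2 * ∑ a, w i a ^ 2 := by
  classical
  have h1 : ∀ a, (∑ i, c i * w i a) ^ 2 = ∑ i, ∑ j, c i * c j * (w i a * w j a) := by
    intro a
    rw [sq, Finset.sum_mul_sum]
    refine Finset.sum_congr rfl fun i _ => Finset.sum_congr rfl fun j _ => by ring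
  simp_rw [h1]
  rw [Finset.sum_comm]
  refine Finset.sum_congr rfl fun i _ => ?_
  rw [Finset.sum_comm]
  have h2 : ∀ j, ∑ a, c i * c j * (w i a * w j a) = if j = i then c i ^ 2 * ∑ a, w i a ^ 2 else 0 := by
    intro j
    rw [← Finset.mul_sum]
    split_ifs with h
    · subst h
      congr 1
      · ring
      · exact Finset.sum_congr rfl fun a _ => by ring
    · rw [horth i j (fun hh => h hh.symm), mul_zero]
  simp_rw [h2]
  simp

/-- Bessel's inequality. -/
lemma bessel (w : ι → α → ℝ) (horth : ∀ i j, i ≠ j → ∑ a, w i a * w j a = 0)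
    (hn : ∀ i, ∑ a, w i a ^ 2 ≤ 1) (y : α → ℝ) :
    ∑ i, (∑ a, w i a * y a) ^ 2 ≤ ∑ a, y a ^ 2 := by
  set c : ι → ℝ := fun i => ∑ a, w i a * y a with hc
  have h0 : 0 ≤ ∑ a, (y a - ∑ i, c i * w i a) ^ 2 := Finset.sum_nonneg fun a _ => sq_nonneg _
  have h1 : ∑ a, (y a - ∑ i, c i * w i a) ^ 2
      = ∑ a, y a ^ 2 - 2 * ∑ a, y a * ∑ i, c i * w i a + ∑ a, (∑ i, c i * w i a) ^ 2 := by
    rw [Finset.mul_sum, ← Finset.sum_sub_distrib, ← Finset.sum_add_distrib]
    exact Finset.sum_congr rfl fun a _ => by ring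
  have h2 : ∑ a, y a * ∑ i, c i * w i a = ∑ i, c i ^ 2 := by
    simp_rw [Finset.mul_sum]
    rw [Finset.sum_comm]
    refine Finset.sum_congr rfl fun i _ => ?_
    rw [sq]
    nth_rewrite 3 [hc]
    simp only
    rw [Finset.mul_sum]
    exact Finset.sum_congr rfl fun a _ => by ring
  have h3 : ∑ a, (∑ i, c i * w i a) ^ 2 ≤ ∑ i, c i ^ 2 := by
    rw [orth_sum_sq w horth c]
    refine Finset.sum_le_sum fun i _ => ?_
    have := mul_le_mul_of_nonneg_left (hn i) (sq_nonneg (c i))
    linarith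
  rw [h1, h2] at h0
  linarith

/-- Cauchy-Schwarz in the form used below. -/
lemma cs (x y : α → ℝ) : (∑ a, x a * y a) ^ 2 ≤ (∑ a, x a ^ 2) * ∑ a, y a ^ 2 :=
  Finset.sum_mul_sq_le_sq_mul_sq _ _ _

end basic

section svd

variable {α β : Type*} [Fintype α] [Fintype β] [DecidableEq β]

/-- The singular value decomposition. -/
structure IsSvd (X : Matrix α β ℝ) (s : β → ℝ) (u : β → α → ℝ) (v : β → β → ℝ) : Prop where
  nonneg : ∀ i, 0 ≤ s i
  eq : ∀ a b, X a b = ∑ i, s i * (u i a * v i b)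
  uorth : ∀ i j, i ≠ j → ∑ a, u i a * u j a = 0
  unorm : ∀ i, ∑ a, u i a ^ 2 = if s i = 0 then 0 else 1
  vorth : ∀ i j, i ≠ j → ∑ b, v i b * v j b = 0
  vnorm : ∀ i, ∑ b, v i b ^ 2 = 1
  sum_eq : ∑ i, s i = nuc X
  card_eq : (univ.filter fun i => s i ≠ 0).card = X.rank

lemma exists_svd (X : Matrix α β ℝ) : ∃ s u v, IsSvd X s u v := by
  classical
  set hH := isHermitian_conjTranspose_mul_self X with hHdef
  set lam : β → ℝ := hH.eigenvalues with hlam
  have hlam0 : ∀ i, 0 ≤ lam i := fun i => eigenvalues_conjTranspose_mul_self_nonneg X i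
  set v : β → β → ℝ := fun i b => (hH.eigenvectorUnitary : Matrix β β ℝ) b i with hv
  have hvv : ∀ i j, ∑ b, v i b * v j b = if i = j then 1 else 0 := by
    intro i j
    have h1 := Matrix.mem_unitaryGroup_iff'.mp (hH.eigenvectorUnitary).2
    have h2 := congrFun (congrFun h1 i) j
    rw [Matrix.mul_apply, Matrix.one_apply] at h2
    rw [← h2]
    refine Finset.sum_congr rfl fun b _ => ?_
    simp [hv, Matrix.star_apply]
  have hvv' : ∀ b c, ∑ i, v i b * v i c = if b = c then 1 else 0 := by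
    intro b c
    have h1 := Matrix.mem_unitaryGroup_iff.mp (hH.eigenvectorUnitary).2
    have h2 := congrFun (congrFun h1 b) c
    rw [Matrix.mul_apply, Matrix.one_apply] at h2
    rw [← h2]
    refine Finset.sum_congr rfl fun i _ => ?_
    simp [hv, Matrix.star_apply]
  set w : β → α → ℝ := fun i => X *ᵥ v i with hw
  have heig : ∀ j, (Xᴴ * X) *ᵥ v j = lam j • v j := by
    intro j
    have := hH.mulVec_eigenvectorBasis j
    exact this
  have hgram : ∀ i j, ∑ a, w i a * w j a = if i = j then lam i else 0 := by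
    intro i j
    have h1 : w i ⬝ᵥ w j = v i ⬝ᵥ (lam j • v j) := by
      rw [← heig j, ← Matrix.mulVec_mulVec, Matrix.dotProduct_mulVec (v i)]
      congr 1
      rw [Matrix.conjTranspose_eq_transpose_of_trivial, Matrix.vecMul_transpose]
    have h2 : ∑ a, w i a * w j a = w i ⬝ᵥ w j := rfl
    rw [h2, h1, dotProduct_smul]
    have h3 : v i ⬝ᵥ v j = if i = j then 1 else 0 := hvv i j
    rw [h3]
    split_ifs with h
    · subst h; simp
    · simp
  refine ⟨fun i => Real.sqrt (lam i), fun i a => w i a / Real.sqrt (lam i), v, ?_⟩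
  have hs0 : ∀ i, Real.sqrt (lam i) = 0 ↔ lam i = 0 := fun i => Real.sqrt_eq_zero (hlam0 i)
  have hw0 : ∀ i, Real.sqrt (lam i) = 0 → ∀ a, w i a = 0 := by
    intro i hi a
    have h1 := hgram i i
    rw [if_pos rfl, (hs0 i).1 hi] at h1
    have h2 := (Finset.sum_eq_zero_iff_of_nonneg (fun a _ => mul_self_nonneg (w i a))).1 h1 a
      (Finset.mem_univ a)
    exact mul_self_eq_zero.1 h2
  refine ⟨fun i => Real.sqrt_nonneg _, ?_, ?_, ?_, ?_, ?_, rfl, ?_⟩
  · intro a b
    have h1 : ∀ i, Real.sqrt (lam i) * (w i a / Real.sqrt (lam i) * v i b) = w i a * v i b := by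
      intro i
      by_cases hi : Real.sqrt (lam i) = 0
      · rw [hw0 i hi a]; simp
      · field_simp
    simp_rw [h1]
    have h2 : ∀ i, w i a * v i b = ∑ c, X a c * (v i c * v i b) := by
      intro i
      simp only [hw, Matrix.mulVec, dotProduct]
      rw [Finset.sum_mul]
      exact Finset.sum_congr rfl fun c _ => by ring
    simp_rw [h2]
    rw [Finset.sum_comm]
    simp_rw [← Finset.mul_sum, hvv']
    simp
  · intro i j hij
    have h1 := hgram i j
    rw [if_neg hij] at h1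
    have h2 : ∀ a, w i a / Real.sqrt (lam i) * (w j a / Real.sqrt (lam j))
        = (w i a * w j a) * (1 / (Real.sqrt (lam i) * Real.sqrt (lam j))) := by
      intro a
      rw [div_mul_div_comm, mul_one_div]
    simp_rw [h2]
    rw [← Finset.sum_mul, h1, zero_mul]
  · intro i
    have h1 := hgram i i
    rw [if_pos rfl] at h1
    have h2 : ∀ a, (w i a / Real.sqrt (lam i)) ^ 2 = (w i a * w i a) * (1 / lam i) := by
      intro a
      rw [div_pow, Real.sq_sqrt (hlam0 i)]
      ring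
    simp_rw [h2]
    rw [← Finset.sum_mul, h1]
    split_ifs with h
    · rw [(hs0 i).1 h, zero_mul]
    · have : lam i ≠ 0 := fun hh => h ((hs0 i).2 hh)
      field_simp
  · intro i j hij
    rw [hvv, if_neg hij]
  · intro i
    have := hvv i i
    rw [if_pos rfl] at this
    rw [← this]
    exact Finset.sum_congr rfl fun b _ => by ring
  · rw [← Matrix.rank_conjTranspose_mul_self X, hH.rank_eq_card_non_zero_eigs,
      Fintype.card_subtype]
    congr 1
    ext i
    simp only [Finset.mem_filter, Finset.mem_univ, true_and, ne_eq, hs0]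
    rfl

variable {X : Matrix α β ℝ} {s : β → ℝ} {u : β → α → ℝ} {v : β → β → ℝ}

lemma IsSvd.unorm_le (h : IsSvd X s u v) (i : β) : ∑ a, u i a ^ 2 ≤ 1 := by
  rw [h.unorm i]; split_ifs <;> norm_num

/-- Frobenius norm of partial sums of the decomposition. -/
lemma frob_sum {ι : Type*} [Fintype ι] (u : ι → α → ℝ) (v : ι → β → ℝ)
    (hu : ∀ i j, i ≠ j → ∑ a, u i a * u j a = 0) (c : ι → ℝ) :
    (∀ i j, i ≠ j → ∑ b, v i b * v j b = 0) →
    ∑ a, ∑ b, (∑ i, c i * (u i a * v i b)) ^ 2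
      = ∑ i, c i ^ 2 * ((∑ a, u i a ^ 2) * ∑ b, v i b ^ 2) := by
  intro hv
  have h1 := orth_sum_sq (α := α × β) (fun i p => u i p.1 * v i p.2) (by
    intro i j hij
    rw [Fintype.sum_prod_type]
    have h2 : ∀ a, ∑ b, (u i a * v i b) * (u j a * v j b) = (u i a * u j a) * ∑ b, v i b * v j b := by
      intro a
      rw [Finset.mul_sum]
      exact Finset.sum_congr rfl fun b _ => by ring
    simp only
    simp_rw [h2, hv i j hij]
    simp) c
  rw [Fintype.sum_prod_type] at h1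
  simp only at h1
  rw [h1]
  refine Finset.sum_congr rfl fun i _ => ?_
  congr 1
  rw [Fintype.sum_prod_type, Finset.sum_mul_sum]
  exact Finset.sum_congr rfl fun a _ => Finset.sum_congr rfl fun b _ => by ring

/-- Duality, with the operator norm bound of `G` on the right factor. -/
lemma inner_le_nuc (X G : Matrix α β ℝ) (c : ℝ) (hc : 0 ≤ c)
    (hG : ∀ z : β → ℝ, ∑ a, (∑ b, G a b * z b) ^ 2 ≤ c ^ 2 * ∑ b, z b ^ 2) :
    ∑ a, ∑ b, X a b * G a b ≤ c * nuc X := by
  obtain ⟨s, u, v, h⟩ := exists_svd X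
  have h1 : ∑ a, ∑ b, X a b * G a b = ∑ i, s i * ∑ a, u i a * ∑ b, G a b * v i b := by
    simp_rw [h.eq, Finset.sum_mul, Finset.mul_sum]
    have : ∀ a, ∑ b, ∑ i, s i * (u i a * v i b) * G a b
        = ∑ i, ∑ b, s i * (u i a * v i b) * G a b := fun a => Finset.sum_comm
    simp_rw [this]
    rw [Finset.sum_comm]
    refine Finset.sum_congr rfl fun i _ => Finset.sum_congr rfl fun a _ =>
      Finset.sum_congr rfl fun b _ => by ring
  have h2 : ∀ i, ∑ a, u i a * ∑ b, G a b * v i b ≤ c := by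
    intro i
    have h3 := cs (u i) (fun a => ∑ b, G a b * v i b)
    have h4 := hG (v i)
    rw [h.vnorm i, mul_one] at h4
    have h5 := h.unorm_le i
    have h6 : (0:ℝ) ≤ ∑ a, u i a ^ 2 := Finset.sum_nonneg fun a _ => sq_nonneg _
    refine abs_le_of_sq_le_sq' ?_ hc |>.2
    calc (∑ a, u i a * ∑ b, G a b * v i b) ^ 2 ≤ _ := h3
      _ ≤ 1 * c ^ 2 := mul_le_mul h5 h4 (Finset.sum_nonneg fun a _ => sq_nonneg _) zero_le_one
      _ = c ^ 2 := one_mul _
  rw [h1, ← h.sum_eq, Finset.mul_sum]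
  refine Finset.sum_le_sum fun i _ => ?_
  rw [mul_comm c]
  exact mul_le_mul_of_nonneg_left (h2 i) (h.nonneg i)

/-- Duality, with the operator norm bound of the transpose of `G`. -/
lemma inner_le_nuc' (X G : Matrix α β ℝ) (c : ℝ) (hc : 0 ≤ c)
    (hG : ∀ y : α → ℝ, ∑ b, (∑ a, G a b * y a) ^ 2 ≤ c ^ 2 * ∑ a, y a ^ 2) :
    ∑ a, ∑ b, X a b * G a b ≤ c * nuc X := by
  refine inner_le_nuc X G c hc fun z => ?_
  -- the operator norm of `G` equals that of the transpose
  set y : α → ℝ := fun a => ∑ b, G a b * z b with hy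
  have h1 : ∑ a, y a ^ 2 = ∑ b, z b * ∑ a, G a b * y a := by
    simp_rw [Finset.mul_sum]
    rw [Finset.sum_comm]
    refine Finset.sum_congr rfl fun a _ => ?_
    rw [sq]
    nth_rewrite 1 [hy]
    simp only
    rw [Finset.sum_mul]
    exact Finset.sum_congr rfl fun b _ => by ring
  have h2 := cs z (fun b => ∑ a, G a b * y a)
  rw [← h1] at h2
  have h3 := hG y
  have hy0 : 0 ≤ ∑ a, y a ^ 2 := Finset.sum_nonneg fun a _ => sq_nonneg _
  have hz0 : 0 ≤ ∑ b, z b ^ 2 := Finset.sum_nonneg fun a _ => sq_nonneg _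
  have h4 : (∑ a, y a ^ 2) ^ 2 ≤ (∑ b, z b ^ 2) * (c ^ 2 * ∑ a, y a ^ 2) :=
    h2.trans (mul_le_mul_of_nonneg_left h3 hz0)
  rcases hy0.eq_or_lt with h5 | h5
  · rw [← h5]; positivity
  · have h6 : (∑ a, y a ^ 2) * (∑ a, y a ^ 2) ≤ (c ^ 2 * ∑ b, z b ^ 2) * ∑ a, y a ^ 2 := by
      nlinarith [h4]
    exact le_of_mul_le_mul_right h6 h5

/-- The norming matrix of `X`. -/
lemma exists_cert (X : Matrix α β ℝ) : ∃ G : Matrix α β ℝ,
    ∑ a, ∑ b, X a b * G a b = nuc X ∧
    (∀ z : β → ℝ, ∑ a, (∑ b, G a b * z b) ^ 2 ≤ ∑ b, z b ^ 2) ∧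
    (∀ y : α → ℝ, ∑ b, (∑ a, G a b * y a) ^ 2 ≤ ∑ a, y a ^ 2) ∧
    ∑ a, ∑ b, G a b ^ 2 = X.rank := by
  obtain ⟨s, u, v, h⟩ := exists_svd X
  have hu0 : ∀ i, s i = 0 → ∀ a, u i a = 0 := by
    intro i hi a
    have h1 := h.unorm i
    rw [if_pos hi] at h1
    have h2 := (Finset.sum_eq_zero_iff_of_nonneg (fun a _ => sq_nonneg (u i a))).1 h1 a
      (Finset.mem_univ a)
    exact pow_eq_zero_iff (two_ne_zero) |>.1 h2
  refine ⟨fun a b => ∑ i, 1 * (u i a * v i b), ?_, ?_, ?_, ?_⟩
  · have h1 : ∑ a, ∑ b, X a b * ∑ i, 1 * (u i a * v i b)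
        = ∑ i, ∑ a, u i a * ∑ b, X a b * v i b := by
      simp_rw [Finset.mul_sum]
      have : ∀ a, ∑ b, ∑ i, X a b * (1 * (u i a * v i b))
          = ∑ i, ∑ b, X a b * (1 * (u i a * v i b)) := fun a => Finset.sum_comm
      simp_rw [this]
      rw [Finset.sum_comm]
      refine Finset.sum_congr rfl fun i _ => Finset.sum_congr rfl fun a _ =>
        Finset.sum_congr rfl fun b _ => by ring
    rw [h1, ← h.sum_eq]
    refine Finset.sum_congr rfl fun i _ => ?_
    have h2 : ∀ a, ∑ b, X a b * v i b = s i * u i a := by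
      intro a
      simp_rw [h.eq, Finset.sum_mul]
      rw [Finset.sum_comm]
      have h3 : ∀ j, ∑ b, s j * (u j a * v j b) * v i b = if j = i then s i * u i a else 0 := by
        intro j
        have h4 : ∑ b, s j * (u j a * v j b) * v i b = s j * u j a * ∑ b, v j b * v i b := by
          rw [Finset.mul_sum]
          exact Finset.sum_congr rfl fun b _ => by ring
        rw [h4]
        split_ifs with hji
        · subst hji
          have := h.vnorm j
          simp_rw [sq] at this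
          rw [this, mul_one]
        · rw [h.vorth j i hji, mul_zero]
      simp_rw [h3]
      simp
    simp_rw [h2]
    have h5 : ∑ a, u i a * (s i * u i a) = s i * ∑ a, u i a ^ 2 := by
      rw [Finset.mul_sum]
      exact Finset.sum_congr rfl fun a _ => by ring
    rw [h5, h.unorm i]
    split_ifs with hi
    · rw [hi]; ring
    · ring
  · intro z
    have h1 : ∀ a, ∑ b, (∑ i, 1 * (u i a * v i b)) * z b = ∑ i, (∑ b, v i b * z b) * u i a := by
      intro a
      simp_rw [Finset.sum_mul]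
      rw [Finset.sum_comm]
      refine Finset.sum_congr rfl fun i _ => Finset.sum_congr rfl fun b _ => by ring
    simp_rw [h1]
    rw [orth_sum_sq u h.uorth]
    calc ∑ i, (∑ b, v i b * z b) ^ 2 * ∑ a, u i a ^ 2
        ≤ ∑ i, (∑ b, v i b * z b) ^ 2 := by
          refine Finset.sum_le_sum fun i _ => ?_
          exact mul_le_of_le_one_right (sq_nonneg _) (h.unorm_le i)
      _ ≤ _ := bessel v h.vorth (fun i => (h.vnorm i).le) z
  · intro y
    have h1 : ∀ b, ∑ a, (∑ i, 1 * (u i a * v i b)) * y a = ∑ i, (∑ a, u i a * y a) * v i b := by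
      intro b
      simp_rw [Finset.sum_mul]
      rw [Finset.sum_comm]
      refine Finset.sum_congr rfl fun i _ => Finset.sum_congr rfl fun a _ => by ring
    simp_rw [h1]
    rw [orth_sum_sq v h.vorth]
    calc ∑ i, (∑ a, u i a * y a) ^ 2 * ∑ b, v i b ^ 2
        = ∑ i, (∑ a, u i a * y a) ^ 2 := by
          refine Finset.sum_congr rfl fun i _ => ?_
          rw [h.vnorm i, mul_one]
      _ ≤ _ := bessel u h.uorth (fun i => h.unorm_le i) y
  · rw [frob_sum u v h.uorth (fun _ => 1) h.vorth]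
    have h1 : ∀ i, (1:ℝ) ^ 2 * ((∑ a, u i a ^ 2) * ∑ b, v i b ^ 2) = if s i ≠ 0 then 1 else 0 := by
      intro i
      rw [h.vnorm i, h.unorm i]
      by_cases hi : s i = 0 <;> simp [hi]
    simp_rw [h1]
    rw [Finset.sum_boole, h.card_eq]

lemma nuc_nonneg (X : Matrix α β ℝ) : 0 ≤ nuc X :=
  Finset.sum_nonneg fun _ _ => Real.sqrt_nonneg _

/-- Triangle inequality. -/
lemma nuc_sub_le (X Y : Matrix α β ℝ) : nuc (X - Y) ≤ nuc X + nuc Y := by
  obtain ⟨G, h1, h2, h3, -⟩ := exists_cert (X - Y)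
  have h4 := inner_le_nuc X G 1 zero_le_one (fun z => by simpa using h2 z)
  have h5 := inner_le_nuc Y (-G) 1 zero_le_one (fun z => by
    have := h2 z
    simp only [Matrix.neg_apply, neg_mul, Finset.sum_neg_distrib, neg_sq]
    simpa using this)
  have h6 : ∑ a, ∑ b, (X - Y) a b * G a b
      = ∑ a, ∑ b, X a b * G a b + ∑ a, ∑ b, Y a b * (-G) a b := by
    rw [← Finset.sum_add_distrib]
    refine Finset.sum_congr rfl fun a _ => ?_
    rw [← Finset.sum_add_distrib]
    refine Finset.sum_congr rfl fun b _ => ?_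
    simp only [Matrix.sub_apply, Matrix.neg_apply]
    ring
  rw [← h1, h6]
  linarith

/-- Cauchy-Schwarz for matrices. -/
lemma cs2 (X Y : α → β → ℝ) :
    (∑ a, ∑ b, X a b * Y a b) ^ 2 ≤ (∑ a, ∑ b, X a b ^ 2) * ∑ a, ∑ b, Y a b ^ 2 := by
  have h1 := cs (α := α × β) (fun p => X p.1 p.2) (fun p => Y p.1 p.2)
  simpa [Fintype.sum_prod_type] using h1

lemma nuc_sq_le (X : Matrix α β ℝ) : nuc X ^ 2 ≤ X.rank * ∑ a, ∑ b, X a b ^ 2 := by
  obtain ⟨G, h1, -, -, h4⟩ := exists_cert X
  have := cs2 X G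
  rw [h1, h4] at this
  linarith

end svd

end Pool.Agent.R208.Nuc
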