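import Mathlib

/-!
# The divergence theorem on discs, in polar coordinates
-/

set_option autoImplicit false

open MeasureTheory Set Filter intervalIntegral
open scoped Topology Real

namespace Pool.Agent.R208.PolarFlux

/-- the point with polar coordinates `s`, `θ` -/
noncomputable def pt (s θ : ℝ) : ℂ := ⟨s * Real.cos θ, s * Real.sin θ⟩

lemma pt_smul (s θ : ℝ) : pt s θ = (s * Real.cos θ) • (1 : ℂ)
    + (s * Real.sin θ) • Complex.I := by
  apply Complex.ext <;> simp [pt, -Complex.ofReal_cos, -Complex.ofReal_sin]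

lemma norm_pt (s θ : ℝ) : ‖pt s θ‖ = |s| := by
  rw [Complex.norm_eq_sqrt_sq_add_sq]
  have : (pt s θ).re ^ 2 + (pt s θ).im ^ 2 = s ^ 2 := by
    simp only [pt]
    have := Real.sin_sq_add_cos_sq θ
    linear_combination s ^ 2 * this
  rw [this, Real.sqrt_sq_eq_abs]

lemma pt_periodic (s : ℝ) : Function.Periodic (pt s) (2 * π) := by
  intro θ
  simp [pt]

lemma exists_pt {z : ℂ} {s : ℝ} (hs : ‖z‖ = s) : ∃ θ, pt s θ = z := by
  refine ⟨z.arg, ?_⟩
  apply Complex.ext
  · simp only [pt]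
    rw [← hs, Complex.norm_mul_cos_arg]
  · simp only [pt]
    rw [← hs, Complex.norm_mul_sin_arg]

lemma continuous_pt : Continuous fun x : ℝ × ℝ => pt x.1 x.2 := by
  simp_rw [pt_smul]
  fun_prop

lemma contDiff_pt : ContDiff ℝ 1 fun x : ℝ × ℝ => pt x.1 x.2 := by
  simp_rw [pt_smul]
  fun_prop

lemma hasDerivAt_pt_left (s θ : ℝ) : HasDerivAt (fun s => pt s θ) (pt 1 θ) s := by
  simp_rw [pt_smul]
  have h1 : HasDerivAt (fun s : ℝ => s * Real.cos θ) (1 * Real.cos θ) s :=
    (hasDerivAt_id s).mul_const _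
  have h2 : HasDerivAt (fun s : ℝ => s * Real.sin θ) (1 * Real.sin θ) s :=
    (hasDerivAt_id s).mul_const _
  exact (h1.smul_const _).add (h2.smul_const _)

lemma hasDerivAt_pt_right (s θ : ℝ) :
    HasDerivAt (fun θ => pt s θ) ((-(s * Real.sin θ)) • (1 : ℂ)
      + (s * Real.cos θ) • Complex.I) θ := by
  simp_rw [pt_smul]
  have h1 : HasDerivAt (fun θ : ℝ => s * Real.cos θ) (-(s * Real.sin θ)) θ := by
    have := (Real.hasDerivAt_cos θ).const_mul s
    rwa [mul_neg] at this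
  have h2 : HasDerivAt (fun θ : ℝ => s * Real.sin θ) (s * Real.cos θ) θ :=
    (Real.hasDerivAt_sin θ).const_mul s
  exact (h1.smul_const _).add (h2.smul_const _)

/-- the radial derivative of `F` -/
lemma hasDerivAt_left {F : ℂ → ℝ} {s θ : ℝ} (hF : DifferentiableAt ℝ F (pt s θ)) :
    HasDerivAt (fun s => F (pt s θ)) (Real.cos θ * fderiv ℝ F (pt s θ) 1
      + Real.sin θ * fderiv ℝ F (pt s θ) Complex.I) s := by
  have h1 := hF.hasFDerivAt.comp_hasDerivAt s (hasDerivAt_pt_left s θ)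
  refine h1.congr_deriv ?_
  rw [pt_smul 1 θ]
  simp only [map_add, map_smul, smul_eq_mul, one_mul]

/-- the angular derivative of `F` -/
lemma hasDerivAt_right {F : ℂ → ℝ} {s θ : ℝ} (hF : DifferentiableAt ℝ F (pt s θ)) :
    HasDerivAt (fun θ => F (pt s θ)) (s * (-Real.sin θ * fderiv ℝ F (pt s θ) 1
      + Real.cos θ * fderiv ℝ F (pt s θ) Complex.I)) θ := by
  have h1 := hF.hasFDerivAt.comp_hasDerivAt θ (hasDerivAt_pt_right s θ)
  refine h1.congr_deriv ?_
  simp only [map_add, map_smul, smul_eq_mul]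
  ring

/-- the flux of the vector field `(F1, F2)` through the circle of radius `s` -/
noncomputable def flux (F1 F2 : ℂ → ℝ) (s : ℝ) : ℝ :=
  ∫ θ in (0 : ℝ)..(2 * π), s * (Real.cos θ * F1 (pt s θ) + Real.sin θ * F2 (pt s θ))

/-- the integral of the divergence over the circle of radius `s` -/
noncomputable def divInt (F1 F2 : ℂ → ℝ) (s : ℝ) : ℝ :=
  ∫ θ in (0 : ℝ)..(2 * π), s * (fderiv ℝ F1 (pt s θ) 1 + fderiv ℝ F2 (pt s θ) Complex.I)

lemma continuous_divInt {F1 F2 : ℂ → ℝ} (h1 : ContDiff ℝ 1 F1) (h2 : ContDiff ℝ 1 F2) :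
    Continuous (divInt F1 F2) := by
  have hc1 : Continuous (fderiv ℝ F1) := h1.continuous_fderiv one_ne_zero
  have hc2 : Continuous (fderiv ℝ F2) := h2.continuous_fderiv one_ne_zero
  have hpt := continuous_pt
  unfold divInt
  apply intervalIntegral.continuous_parametric_intervalIntegral_of_continuous' (f := fun s θ =>
    s * (fderiv ℝ F1 (pt s θ) 1 + fderiv ℝ F2 (pt s θ) Complex.I))
  have e1 : Continuous fun x : ℝ × ℝ => fderiv ℝ F1 (pt x.1 x.2) 1 :=
    (hc1.comp hpt).clm_apply continuous_const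
  have e2 : Continuous fun x : ℝ × ℝ => fderiv ℝ F2 (pt x.1 x.2) Complex.I :=
    (hc2.comp hpt).clm_apply continuous_const
  exact continuous_fst.mul (e1.add e2)

lemma flux_sub {F1 F2 : ℂ → ℝ} (h1 : ContDiff ℝ 1 F1) (h2 : ContDiff ℝ 1 F2) (a b : ℝ) :
    ∫ s in a..b, divInt F1 F2 s = flux F1 F2 b - flux F1 F2 a := by
  set P : ℝ × ℝ → ℝ := fun x => x.1 * (Real.cos x.2 * F1 (pt x.1 x.2)
    + Real.sin x.2 * F2 (pt x.1 x.2)) with hP
  set Q : ℝ × ℝ → ℝ := fun x => -Real.sin x.2 * F1 (pt x.1 x.2)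
    + Real.cos x.2 * F2 (pt x.1 x.2) with hQ
  have hF1 : ContDiff ℝ 1 fun x : ℝ × ℝ => F1 (pt x.1 x.2) := h1.comp contDiff_pt
  have hF2 : ContDiff ℝ 1 fun x : ℝ × ℝ => F2 (pt x.1 x.2) := h2.comp contDiff_pt
  have hcos : ContDiff ℝ 1 fun x : ℝ × ℝ => Real.cos x.2 := Real.contDiff_cos.comp contDiff_snd
  have hsin : ContDiff ℝ 1 fun x : ℝ × ℝ => Real.sin x.2 := Real.contDiff_sin.comp contDiff_snd
  have hPc : ContDiff ℝ 1 P := contDiff_fst.mul ((hcos.mul hF1).add (hsin.mul hF2))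
  have hQc : ContDiff ℝ 1 Q := (hsin.neg.mul hF1).add (hcos.mul hF2)
  have hPd : ∀ x, HasFDerivAt P (fderiv ℝ P x) x := fun x =>
    (hPc.differentiable (by norm_num) x).hasFDerivAt
  have hQd : ∀ x, HasFDerivAt Q (fderiv ℝ Q x) x := fun x =>
    (hQc.differentiable (by norm_num) x).hasFDerivAt
  have hdiv : ∀ x : ℝ × ℝ, fderiv ℝ P x (1, 0) + fderiv ℝ Q x (0, 1)
      = x.1 * (fderiv ℝ F1 (pt x.1 x.2) 1 + fderiv ℝ F2 (pt x.1 x.2) Complex.I) := by
    rintro ⟨s, θ⟩
    have d1 : DifferentiableAt ℝ F1 (pt s θ) := h1.differentiable (by norm_num) _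
    have d2 : DifferentiableAt ℝ F2 (pt s θ) := h2.differentiable (by norm_num) _
    have e1 : HasDerivAt (fun r => P (r, θ)) (fderiv ℝ P (s, θ) (1, 0)) s := by
      have h := (hPd (s, θ)).comp_hasDerivAt s ((hasDerivAt_id s).prodMk (hasDerivAt_const s θ))
      exact h
    have e2 : HasDerivAt (fun r => Q (s, r)) (fderiv ℝ Q (s, θ) (0, 1)) θ := by
      have h := (hQd (s, θ)).comp_hasDerivAt θ ((hasDerivAt_const θ s).prodMk (hasDerivAt_id θ))
      exact h
    have e3 := (hasDerivAt_id s).mul (((hasDerivAt_left d1).const_mul (Real.cos θ)).add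
      ((hasDerivAt_left d2).const_mul (Real.sin θ)))
    have e4 := ((Real.hasDerivAt_sin θ).neg.mul (hasDerivAt_right d1)).add
      ((Real.hasDerivAt_cos θ).mul (hasDerivAt_right d2))
    rw [e1.unique e3, e2.unique e4]
    simp only [id, Pi.add_apply, Pi.neg_apply]
    have h3 := Real.sin_sq_add_cos_sq θ
    linear_combination s * (fderiv ℝ F1 (pt s θ) 1 + fderiv ℝ F2 (pt s θ) Complex.I) * h3
  have key := integral2_divergence_prod_of_hasFDerivAt_off_countable P Q (fderiv ℝ P) (fderiv ℝ Q)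
    a 0 b (2 * π) ∅ countable_empty hPc.continuous.continuousOn hQc.continuous.continuousOn
    (fun x _ => hPd x) (fun x _ => hQd x) ?_
  · simp_rw [hdiv] at key
    unfold divInt flux
    rw [key]
    have h3 : ∀ r, Q (r, 2 * π) = Q (r, 0) := by
      intro r
      simp [hQ, pt]
    simp_rw [h3, sub_self, zero_add]
    rfl
  · apply ContinuousOn.integrableOn_compact (isCompact_uIcc.prod isCompact_uIcc)
    apply Continuous.continuousOn
    exact ((hPc.continuous_fderiv one_ne_zero).clm_apply continuous_const).add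
      ((hQc.continuous_fderiv one_ne_zero).clm_apply continuous_const)

/-- the derivative of the flux is the integral of the divergence -/
theorem hasDerivAt_flux {F1 F2 : ℂ → ℝ} (h1 : ContDiff ℝ 1 F1) (h2 : ContDiff ℝ 1 F2) (s : ℝ) :
    HasDerivAt (flux F1 F2) (divInt F1 F2 s) s := by
  have hc := continuous_divInt h1 h2
  have h3 : HasDerivAt (fun b => flux F1 F2 0 + ∫ s in (0 : ℝ)..b, divInt F1 F2 s)
      (divInt F1 F2 s) s :=
    (intervalIntegral.integral_hasDerivAt_right (hc.intervalIntegrable _ _)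
      (hc.stronglyMeasurableAtFilter _ _) hc.continuousAt).const_add _
  refine h3.congr_of_eventuallyEq (Eventually.of_forall fun b => ?_)
  simp only [flux_sub h1 h2]
  ring

end Pool.Agent.R208.PolarFlux
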