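import Mathlib

/-!
# The rational profile functions used as test functions

`g = φ k`, `g' = k²`, `φ' ≤ k ≤ 1`, `φ(t) ≤ t`.
-/

set_option autoImplicit false

open Set Filter
open scoped Topology

namespace Pool.Agent.R208.Profile

lemma hasDerivAt_max {h h' : ℝ → ℝ} (hh : ∀ τ, 0 ≤ τ → HasDerivAt h (h' τ) τ) (h0 : h' 0 = 0)
    (c t : ℝ) : HasDerivAt (fun t => h (max (t - c) 0)) (h' (max (t - c) 0)) t := by
  rcases lt_trichotomy t c with htc | htc | htc
  · rw [max_eq_right (by linarith), h0]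
    refine (hasDerivAt_const t (h 0)).congr_of_eventuallyEq ?_
    filter_upwards [Iio_mem_nhds htc] with x hx
    rw [max_eq_right (by linarith [mem_Iio.1 hx])]
  · subst htc
    rw [sub_self, max_self, h0, ← hasDerivWithinAt_univ, ← Iic_union_Ici (a := t)]
    refine HasDerivWithinAt.union ?_ ?_
    · refine (hasDerivWithinAt_const t _ (h 0)).congr (fun x hx => ?_) ?_
      · rw [max_eq_right (by linarith [mem_Iic.1 hx])]
      · simp
    · have h1 : HasDerivAt (fun x => h (x - t)) (h' 0) t := by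
        have h3 : HasDerivAt h (h' 0) (t - t) := by
          rw [sub_self]
          exact hh 0 le_rfl
        have h2 := HasDerivAt.comp (h₂ := h) (h := fun x : ℝ => x - t) t h3
          ((hasDerivAt_id t).sub_const t)
        rw [mul_one] at h2
        exact h2
      rw [h0] at h1
      refine h1.hasDerivWithinAt.congr (fun x hx => ?_) ?_
      · rw [max_eq_left (by linarith [mem_Ici.1 hx])]
      · simp
  · rw [max_eq_left (by linarith)]
    have h1 : HasDerivAt (fun x => h (x - c)) (h' (t - c)) t := by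
      have h2 := (hh (t - c) (by linarith)).comp t ((hasDerivAt_id t).sub_const c)
      rw [mul_one] at h2
      exact h2
    refine h1.congr_of_eventuallyEq ?_
    filter_upwards [Ioi_mem_nhds htc] with x hx
    rw [max_eq_left (by linarith [mem_Ioi.1 hx])]

noncomputable def kR (x : ℝ) : ℝ := 3 * x * (x + 1) / (3 * x ^ 2 + 3 * x + 1)
noncomputable def gR (x : ℝ) : ℝ := 3 * x ^ 3 / (3 * x ^ 2 + 3 * x + 1)
noncomputable def fR (x : ℝ) : ℝ := x ^ 2 / (x + 1)
noncomputable def dR (x : ℝ) : ℝ := x * (x + 2) / (x + 1) ^ 2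

lemma hasDerivAt_gR {x : ℝ} (hx : 0 ≤ x) : HasDerivAt gR (kR x ^ 2) x := by
  have h1 : HasDerivAt (fun x : ℝ => 3 * x ^ 3) (3 * (3 * x ^ 2)) x := by
    simpa using (hasDerivAt_pow 3 x).const_mul 3
  have h2 : HasDerivAt (fun x : ℝ => 3 * x ^ 2 + 3 * x + 1) (3 * (2 * x) + 3) x := by
    have e1 : HasDerivAt (fun x : ℝ => x ^ 2) (2 * x) x := by simpa using hasDerivAt_pow 2 x
    have := ((e1.const_mul 3).add ((hasDerivAt_id x).const_mul 3)).add_const 1
    simpa using this
  have h3 : 3 * x ^ 2 + 3 * x + 1 ≠ 0 := by positivity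
  refine (h1.div h2 h3).congr_deriv ?_
  unfold kR
  field_simp
  ring

lemma hasDerivAt_fR {x : ℝ} (hx : 0 ≤ x) : HasDerivAt fR (dR x) x := by
  have h1 : HasDerivAt (fun x : ℝ => x ^ 2) (2 * x) x := by simpa using hasDerivAt_pow 2 x
  have h2 : HasDerivAt (fun x : ℝ => x + 1) 1 x := (hasDerivAt_id x).add_const 1
  have h3 : x + 1 ≠ 0 := by positivity
  refine (h1.div h2 h3).congr_deriv ?_
  unfold dR
  field_simp
  ring

lemma continuous_kR_max (c : ℝ) : Continuous fun t : ℝ => kR (max (t - c) 0) := by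
  unfold kR
  apply Continuous.div (by fun_prop) (by fun_prop)
  intro t
  have : 0 ≤ max (t - c) 0 := le_max_right _ _
  positivity

lemma continuous_dR_max (c : ℝ) : Continuous fun t : ℝ => dR (max (t - c) 0) := by
  unfold dR
  apply Continuous.div (by fun_prop) (by fun_prop)
  intro t
  have : 0 ≤ max (t - c) 0 := le_max_right _ _
  positivity

/-- the test function with level `c` -/
noncomputable def g (c t : ℝ) : ℝ := gR (max (t - c) 0)
/-- the square root of the derivative of `g` -/
noncomputable def k (c t : ℝ) : ℝ := kR (max (t - c) 0)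
/-- `f = g / k` -/
noncomputable def f (c t : ℝ) : ℝ := fR (max (t - c) 0)
/-- the derivative of `f` -/
noncomputable def d (c t : ℝ) : ℝ := dR (max (t - c) 0)

lemma hasDerivAt_g (c t : ℝ) : HasDerivAt (g c) (k c t ^ 2) t := by
  have := hasDerivAt_max (h := gR) (h' := fun x => kR x ^ 2) (fun τ hτ => hasDerivAt_gR hτ)
    (by simp [kR]) c t
  exact this

lemma hasDerivAt_f (c t : ℝ) : HasDerivAt (f c) (d c t) t := by
  have := hasDerivAt_max (h := fR) (h' := dR) (fun τ hτ => hasDerivAt_fR hτ)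
    (by simp [dR]) c t
  exact this

lemma continuous_k (c : ℝ) : Continuous (k c) := continuous_kR_max c
lemma continuous_d (c : ℝ) : Continuous (d c) := continuous_dR_max c
lemma continuous_g (c : ℝ) : Continuous (g c) :=
  continuous_iff_continuousAt.2 fun t => (hasDerivAt_g c t).continuousAt
lemma continuous_f (c : ℝ) : Continuous (f c) :=
  continuous_iff_continuousAt.2 fun t => (hasDerivAt_f c t).continuousAt

lemma g_eq (c t : ℝ) : g c t = f c t * k c t := by
  have h0 : 0 ≤ max (t - c) 0 := le_max_right _ _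
  simp only [g, f, k, gR, fR, kR]
  field_simp

lemma g_zero {c t : ℝ} (h : t ≤ c) : g c t = 0 := by
  simp [g, gR, max_eq_right (sub_nonpos.2 h)]
lemma k_zero {c t : ℝ} (h : t ≤ c) : k c t = 0 := by
  simp [k, kR, max_eq_right (sub_nonpos.2 h)]
lemma f_zero {c t : ℝ} (h : t ≤ c) : f c t = 0 := by
  simp [f, fR, max_eq_right (sub_nonpos.2 h)]
lemma d_zero {c t : ℝ} (h : t ≤ c) : d c t = 0 := by
  simp [d, dR, max_eq_right (sub_nonpos.2 h)]

lemma kR_nonneg {x : ℝ} (hx : 0 ≤ x) : 0 ≤ kR x := by unfold kR; positivity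
lemma kR_le_one {x : ℝ} (hx : 0 ≤ x) : kR x ≤ 1 := by
  unfold kR
  rw [div_le_one (by positivity)]
  nlinarith

lemma kR_mono {x y : ℝ} (hx : 0 ≤ x) (hxy : x ≤ y) : kR x ≤ kR y := by
  have hy : 0 ≤ y := hx.trans hxy
  unfold kR
  rw [div_le_div_iff₀ (by positivity) (by positivity)]
  nlinarith [mul_nonneg hx hy, mul_nonneg hx hx, mul_nonneg hy hy]

lemma k_nonneg (c t : ℝ) : 0 ≤ k c t := kR_nonneg (le_max_right _ _)
lemma k_le_one (c t : ℝ) : k c t ≤ 1 := kR_le_one (le_max_right _ _)

lemma k_sq_le_one (c t : ℝ) : k c t ^ 2 ≤ 1 := by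
  have := k_nonneg c t
  have := k_le_one c t
  nlinarith

lemma k_mono {c t t' : ℝ} (h : t ≤ t') : k c t ≤ k c t' :=
  kR_mono (le_max_right _ _) (max_le_max (by linarith) le_rfl)

lemma k_pos {c t : ℝ} (h : c < t) : 0 < k c t := by
  have h1 : max (t - c) 0 = t - c := max_eq_left (by linarith)
  have h2 : 0 < t - c := by linarith
  simp only [k, h1, kR]
  positivity

lemma g_pos {c t : ℝ} (h : c < t) : 0 < g c t := by
  have h1 : max (t - c) 0 = t - c := max_eq_left (by linarith)
  have h2 : 0 < t - c := by linarith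
  simp only [g, h1, gR]
  positivity

lemma f_nonneg (c t : ℝ) : 0 ≤ f c t := by
  have h0 : 0 ≤ max (t - c) 0 := le_max_right _ _
  simp only [f, fR]
  positivity

lemma d_nonneg (c t : ℝ) : 0 ≤ d c t := by
  have h0 : 0 ≤ max (t - c) 0 := le_max_right _ _
  simp only [d, dR]
  positivity

lemma d_le (c t : ℝ) : d c t ≤ k c t := by
  have h0 : 0 ≤ max (t - c) 0 := le_max_right _ _
  simp only [d, k, dR, kR]
  generalize max (t - c) 0 = x at *
  rw [div_le_div_iff₀ (by positivity) (by positivity)]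
  have : 3 * x * (x + 1) * (x + 1) ^ 2 - x * (x + 2) * (3 * x ^ 2 + 3 * x + 1)
      = x * (2 * x + 1) := by ring
  nlinarith [mul_nonneg h0 (by linarith : (0 : ℝ) ≤ 2 * x + 1)]

lemma f_le {c t : ℝ} (hc : 0 ≤ c) (ht : 0 ≤ t) : f c t ≤ t := by
  have h0 : 0 ≤ max (t - c) 0 := le_max_right _ _
  have h1 : max (t - c) 0 ≤ t := max_le (by linarith) ht
  refine le_trans ?_ h1
  simp only [f, fR]
  generalize max (t - c) 0 = x at *
  rw [div_le_iff₀ (by positivity)]
  nlinarith

/-- `g` is increasing and `1`-Lipschitz -/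
lemma g_sub {c t t' : ℝ} (h : t ≤ t') : 0 ≤ g c t' - g c t ∧ g c t' - g c t ≤ t' - t := by
  have hd : ∀ x, deriv (g c) x = k c x ^ 2 := fun x => (hasDerivAt_g c x).deriv
  have hdiff : Differentiable ℝ (g c) := fun x => (hasDerivAt_g c x).differentiableAt
  constructor
  · have := monotone_of_deriv_nonneg hdiff (fun x => by rw [hd]; positivity)
    linarith [this h]
  · have h2 : Antitone fun x => g c x - x := by
      apply antitone_of_deriv_nonpos (f := fun x => g c x - x) (hdiff.sub differentiable_id)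
      intro x
      have h3 : HasDerivAt (fun x => g c x - x) (k c x ^ 2 - 1) x :=
        (hasDerivAt_g c x).sub (hasDerivAt_id x)
      rw [h3.deriv]
      linarith [k_sq_le_one c x]
    have := h2 h
    simp only at this
    linarith

lemma g_shift (c c' t : ℝ) : g c' t = g c (t + (c - c')) := by
  simp only [g]
  congr 2
  ring

lemma g_level {c c' : ℝ} (h : c' ≤ c) (t : ℝ) : 0 ≤ g c' t - g c t ∧ g c' t - g c t ≤ c - c' := by
  rw [g_shift c c' t]
  have := g_sub (c := c) (t := t) (t' := t + (c - c')) (by linarith)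
  refine ⟨this.1, this.2.trans (by linarith)⟩

lemma contDiff_g (c : ℝ) : ContDiff ℝ 1 (g c) := by
  rw [contDiff_one_iff_deriv]
  refine ⟨fun x => (hasDerivAt_g c x).differentiableAt, ?_⟩
  have : deriv (g c) = fun x => k c x ^ 2 := funext fun x => (hasDerivAt_g c x).deriv
  rw [this]
  exact (continuous_k c).pow 2

end Pool.Agent.R208.Profile
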