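import Mathlib

/-!
# A weighted Wirtinger inequality

If `f` vanishes at the ends of `[a, b]`, `ρ > 0` and `L = ∫ ρ`, then
`(π / L)² ∫ f² ρ ≤ ∫ f'² / ρ`.
-/

set_option autoImplicit false

open MeasureTheory Set Filter intervalIntegral
open scoped Topology Real

namespace Pool.Agent.R208.Wirtinger

lemma aux {a b : ℝ} (hab : a < b) {f f' ρ : ℝ → ℝ} (hf : ∀ x, HasDerivAt f (f' x) x)
    (hf' : Continuous f') (hρ : Continuous ρ) (hρ0 : ∀ x, 0 < ρ x) (ha : f a = 0) (hb : f b = 0)
    {δ : ℝ} (hδ : 0 < δ) :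
    (π / ((∫ x in a..b, ρ x) + 2 * δ)) ^ 2 * ∫ x in a..b, f x ^ 2 * ρ x
      ≤ ∫ x in a..b, f' x ^ 2 / ρ x := by
  have hfc : Continuous f := continuous_iff_continuousAt.2 fun x => (hf x).continuousAt
  have hii : ∀ x y, IntervalIntegrable ρ volume x y := fun x y => hρ.intervalIntegrable x y
  set L : ℝ := ∫ x in a..b, ρ x with hL
  have hL0 : 0 ≤ L := intervalIntegral.integral_nonneg hab.le fun x _ => (hρ0 x).le
  set L' : ℝ := L + 2 * δ with hL'
  have hL'0 : 0 < L' := by linarith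
  set w : ℝ := π / L' with hw
  have hw0 : 0 < w := div_pos Real.pi_pos hL'0
  set Λ : ℝ → ℝ := fun x => δ + ∫ t in a..x, ρ t with hΛ
  have hΛd : ∀ x, HasDerivAt Λ (ρ x) x := fun x =>
    (intervalIntegral.integral_hasDerivAt_right (hii a x)
      (hρ.stronglyMeasurableAtFilter _ _) hρ.continuousAt).const_add δ
  have hΛc : Continuous Λ := continuous_iff_continuousAt.2 fun x => (hΛd x).continuousAt
  have hsin : ∀ x ∈ Icc a b, 0 < Real.sin (w * Λ x) := by
    intro x hx
    have h1 : 0 ≤ ∫ t in a..x, ρ t :=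
      intervalIntegral.integral_nonneg hx.1 fun x _ => (hρ0 x).le
    have h2 : 0 ≤ ∫ t in x..b, ρ t :=
      intervalIntegral.integral_nonneg hx.2 fun x _ => (hρ0 x).le
    have h3 : (∫ t in a..x, ρ t) + ∫ t in x..b, ρ t = L :=
      intervalIntegral.integral_add_adjacent_intervals (hii a x) (hii x b)
    apply Real.sin_pos_of_pos_of_lt_pi
    · apply mul_pos hw0
      simp only [hΛ]
      linarith
    · have h4 : Λ x < L' := by
        simp only [hΛ, hL']
        linarith
      calc w * Λ x < w * L' := mul_lt_mul_of_pos_left h4 hw0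
        _ = π := by rw [hw]; field_simp
  set c : ℝ → ℝ := fun x => w * (Real.cos (w * Λ x) / Real.sin (w * Λ x)) with hc
  have hcd : ∀ x ∈ Icc a b, HasDerivAt c (-(ρ x * (w ^ 2 + c x ^ 2))) x := by
    intro x hx
    have hs := (hsin x hx).ne'
    have h1 : HasDerivAt (fun x => w * Λ x) (w * ρ x) x := (hΛd x).const_mul w
    have h2 := (h1.cos.div h1.sin hs).const_mul w
    refine h2.congr_deriv ?_
    simp only [hc]
    have h3 := Real.sin_sq_add_cos_sq (w * Λ x)
    have h4 : Real.sin (w * Λ x) ^ 2 = 1 - Real.cos (w * Λ x) ^ 2 := by linarith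
    field_simp
    rw [h4]
    ring
  have hcc : ContinuousOn c (Icc a b) := fun x hx => (hcd x hx).continuousAt.continuousWithinAt
  set F' : ℝ → ℝ := fun x => 2 * f x * f' x * c x - f x ^ 2 * (ρ x * (w ^ 2 + c x ^ 2)) with hF'
  have hFd : ∀ x ∈ Icc a b, HasDerivAt (fun x => f x ^ 2 * c x) (F' x) x := by
    intro x hx
    have h1 := ((hf x).pow 2).mul (hcd x hx)
    refine h1.congr_deriv ?_
    simp only [hF', Pi.pow_apply]
    push_cast
    ring
  have hF'c : ContinuousOn F' (Icc a b) := by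
    simp only [hF']
    fun_prop
  have hint : ∫ x in a..b, F' x = 0 := by
    rw [intervalIntegral.integral_eq_sub_of_hasDerivAt (f := fun x => f x ^ 2 * c x)]
    · simp [ha, hb]
    · intro x hx
      rw [uIcc_of_le hab.le] at hx
      exact hFd x hx
    · apply ContinuousOn.intervalIntegrable
      rwa [uIcc_of_le hab.le]
  have hle : ∀ x ∈ Icc a b, F' x ≤ f' x ^ 2 / ρ x - w ^ 2 * (f x ^ 2 * ρ x) := by
    intro x _
    have h1 := hρ0 x
    have h2 : f' x ^ 2 / ρ x - w ^ 2 * (f x ^ 2 * ρ x) - F' x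
        = (f' x - ρ x * c x * f x) ^ 2 / ρ x := by
      simp only [hF']
      field_simp
      ring
    have h3 : 0 ≤ (f' x - ρ x * c x * f x) ^ 2 / ρ x := by positivity
    linarith
  have hi1 : IntervalIntegrable (fun x => f' x ^ 2 / ρ x) volume a b :=
    (Continuous.div (by fun_prop) hρ fun x => (hρ0 x).ne').intervalIntegrable _ _
  have hi2 : IntervalIntegrable (fun x => w ^ 2 * (f x ^ 2 * ρ x)) volume a b :=
    (by fun_prop : Continuous fun x => w ^ 2 * (f x ^ 2 * ρ x)).intervalIntegrable _ _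
  have h1 := intervalIntegral.integral_mono_on hab.le
    (by apply ContinuousOn.intervalIntegrable; rwa [uIcc_of_le hab.le]) (hi1.sub hi2) hle
  rw [hint, intervalIntegral.integral_sub hi1 hi2, intervalIntegral.integral_const_mul] at h1
  linarith

/-- **Weighted Wirtinger inequality.** -/
theorem wirtinger {a b : ℝ} (hab : a < b) {f f' ρ : ℝ → ℝ} (hf : ∀ x, HasDerivAt f (f' x) x)
    (hf' : Continuous f') (hρ : Continuous ρ) (hρ0 : ∀ x, 0 < ρ x) (ha : f a = 0) (hb : f b = 0) :
    (π / (∫ x in a..b, ρ x)) ^ 2 * ∫ x in a..b, f x ^ 2 * ρ x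
      ≤ ∫ x in a..b, f' x ^ 2 / ρ x := by
  have hL0 : 0 < ∫ x in a..b, ρ x :=
    intervalIntegral.intervalIntegral_pos_of_pos (hρ.intervalIntegrable _ _) hρ0 hab
  have h1 : ContinuousAt (fun δ : ℝ => (π / ((∫ x in a..b, ρ x) + 2 * δ)) ^ 2
      * ∫ x in a..b, f x ^ 2 * ρ x) 0 := by
    apply ContinuousAt.mul _ continuousAt_const
    apply ContinuousAt.pow
    apply ContinuousAt.div continuousAt_const
    · fun_prop
    · simpa using hL0.ne'
  have h2 := h1.tendsto
  simp only [mul_zero, add_zero] at h2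
  have h3 := h2.mono_left (nhdsWithin_le_nhds (s := Ioi 0))
  refine le_of_tendsto h3 ?_
  filter_upwards [self_mem_nhdsWithin] with δ hδ
  exact aux hab hf hf' hρ hρ0 ha hb hδ

end Pool.Agent.R208.Wirtinger
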